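import Mathlib

/-!
# Basic l2 tools on a finite type (project MP_278e22_gt)
-/

namespace L2LP

open Finset

/-- the l2 norm of a real function on a finite type -/
noncomputable def nrm {Om : Type*} [Fintype Om] (f : Om → ℝ) : ℝ :=
  Real.sqrt (∑ x, f x ^ 2)

variable {Om : Type*} [Fintype Om]

theorem nrm_nonneg (f : Om → ℝ) : 0 ≤ nrm f := Real.sqrt_nonneg _

theorem nrm_sq (f : Om → ℝ) : nrm f ^ 2 = ∑ x, f x ^ 2 :=
  Real.sq_sqrt (Finset.sum_nonneg fun x _ => sq_nonneg _)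

theorem nrm_le_of_sq_le {f : Om → ℝ} {c : ℝ} (hc : 0 ≤ c) (h : ∑ x, f x ^ 2 ≤ c ^ 2) :
    nrm f ≤ c := by
  unfold nrm
  exact (Real.sqrt_le_sqrt h).trans (by rw [Real.sqrt_sq hc])

theorem sum_sq_le_of_nrm_le {f : Om → ℝ} {c : ℝ} (h : nrm f ≤ c) :
    ∑ x, f x ^ 2 ≤ c ^ 2 := by
  rw [← nrm_sq]
  exact pow_le_pow_left₀ (nrm_nonneg f) h 2

theorem nrm_eq_norm (f : Om → ℝ) : nrm f = ‖(WithLp.toLp 2 f : EuclideanSpace ℝ Om)‖ := by
  rw [EuclideanSpace.norm_eq]
  simp [nrm]

theorem nrm_add_le (f g : Om → ℝ) : nrm (fun x => f x + g x) ≤ nrm f + nrm g := by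
  rw [nrm_eq_norm, nrm_eq_norm, nrm_eq_norm]
  have : (WithLp.toLp 2 (fun x => f x + g x) : EuclideanSpace ℝ Om)
      = WithLp.toLp 2 f + WithLp.toLp 2 g := by
    ext x; simp
  rw [this]
  exact norm_add_le _ _

theorem nrm_neg (f : Om → ℝ) : nrm (fun x => - f x) = nrm f := by
  simp [nrm]

theorem nrm_sub_comm (f g : Om → ℝ) : nrm (fun x => f x - g x) = nrm (fun x => g x - f x) := by
  unfold nrm
  congr 1
  exact Finset.sum_congr rfl fun x _ => by ring

theorem nrm_sub_le (f g : Om → ℝ) : nrm (fun x => f x - g x) ≤ nrm f + nrm g := by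
  have := nrm_add_le f (fun x => - g x)
  rw [nrm_neg] at this
  simpa [sub_eq_add_neg] using this

/-- triangle inequality in the form used most often -/
theorem nrm_le_add_sub (f g : Om → ℝ) : nrm f ≤ nrm g + nrm (fun x => f x - g x) := by
  have := nrm_add_le g (fun x => f x - g x)
  simpa using this

theorem nrm_mono {f g : Om → ℝ} (h : ∀ x, |f x| ≤ |g x|) : nrm f ≤ nrm g := by
  unfold nrm
  apply Real.sqrt_le_sqrt
  apply Finset.sum_le_sum
  intro x _
  exact sq_le_sq.mpr (h x)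

theorem nrm_const_mul (c : ℝ) (f : Om → ℝ) : nrm (fun x => c * f x) = |c| * nrm f := by
  unfold nrm
  have : ∑ x, (c * f x) ^ 2 = c ^ 2 * ∑ x, f x ^ 2 := by
    rw [Finset.mul_sum]
    exact Finset.sum_congr rfl fun x _ => by ring
  rw [this, Real.sqrt_mul (sq_nonneg c), Real.sqrt_sq_eq_abs]

/-- Cauchy-Schwarz -/
theorem inner_le (f g : Om → ℝ) : ∑ x, f x * g x ≤ nrm f * nrm g := by
  have h := Real.sum_mul_le_sqrt_mul_sqrt Finset.univ f g
  simpa [nrm] using h

theorem abs_inner_le (f g : Om → ℝ) : |∑ x, f x * g x| ≤ nrm f * nrm g := by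
  rw [abs_le]
  constructor
  · have h := inner_le (fun x => - f x) g
    rw [nrm_neg] at h
    have e : ∑ x, -f x * g x = - ∑ x, f x * g x := by
      rw [← Finset.sum_neg_distrib]
      exact Finset.sum_congr rfl fun x _ => by ring
    linarith [h, e.symm.le, e.le]
  · exact inner_le f g

/-- invariance under a permutation of the index type -/
theorem nrm_comp (e : Equiv.Perm Om) (f : Om → ℝ) : nrm (fun x => f (e x)) = nrm f := by
  unfold nrm
  congr 1
  exact Equiv.sum_comp e (fun x => f x ^ 2)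

end L2LP
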