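import Pool.Agent.Helper44.LP.Sidon

/-!
# The block space and its permutations
-/

namespace L2LP

open Finset

/-- Exchange `f d` and `g d`, fix everything else. -/
noncomputable def swapFun {D X : Type*} (f g : D → X) (x : X) : X :=
  open Classical in
  if h : ∃ d, f d = x then g h.choose else if h : ∃ d, g d = x then f h.choose else x


theorem swapFun_left {D X : Type*} (f g : D → X) (hf : Function.Injective f) (d : D) :
    swapFun f g (f d) = g d := by
  classical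
  unfold swapFun
  have h : ∃ d', f d' = f d := ⟨d, rfl⟩
  rw [dif_pos h]
  rw [hf h.choose_spec]

theorem swapFun_right {D X : Type*} (f g : D → X) (hg : Function.Injective g)
    (hfg : ∀ d d', f d ≠ g d') (d : D) : swapFun f g (g d) = f d := by
  classical
  unfold swapFun
  have h1 : ¬ ∃ d', f d' = g d := fun ⟨d', h⟩ => hfg d' d h
  have h : ∃ d', g d' = g d := ⟨d, rfl⟩
  rw [dif_neg h1, dif_pos h]
  rw [hg h.choose_spec]

theorem swapFun_of_ne {D X : Type*} (f g : D → X) (x : X) (h1 : ∀ d, f d ≠ x)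
    (h2 : ∀ d, g d ≠ x) : swapFun f g x = x := by
  classical
  unfold swapFun
  rw [dif_neg (fun ⟨d, h⟩ => h1 d h), dif_neg (fun ⟨d, h⟩ => h2 d h)]

theorem swapFun_invol {D X : Type*} (f g : D → X) (hf : Function.Injective f)
    (hg : Function.Injective g) (hfg : ∀ d d', f d ≠ g d') :
    Function.Involutive (swapFun f g) := by
  intro x
  by_cases h1 : ∃ d, f d = x
  · obtain ⟨d, rfl⟩ := h1
    rw [swapFun_left f g hf, swapFun_right f g hg hfg]
  · by_cases h2 : ∃ d, g d = x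
    · obtain ⟨d, rfl⟩ := h2
      rw [swapFun_right f g hg hfg, swapFun_left f g hf]
    · have h1' : ∀ d, f d ≠ x := fun d h => h1 ⟨d, h⟩
      have h2' : ∀ d, g d ≠ x := fun d h => h2 ⟨d, h⟩
      rw [swapFun_of_ne f g x h1' h2', swapFun_of_ne f g x h1' h2']

/-- the block space with levels `0, ..., m` -/
abbrev Blk (q : ℕ → ℕ) (m : ℕ) := Σ r : Fin (m + 1), ZMod (q r) × ZMod (q r)

section
variable (q : ℕ → ℕ) (m : ℕ)

/-- base point -/
def bo : Blk q m := ⟨0, (0, 0)⟩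

def pe1 : Equiv.Perm (Blk q m) where
  toFun w := ⟨w.1, (w.2.1 + 1, w.2.2)⟩
  invFun w := ⟨w.1, (w.2.1 - 1, w.2.2)⟩
  left_inv w := by simp
  right_inv w := by simp

def pe2 : Equiv.Perm (Blk q m) where
  toFun w := ⟨w.1, (w.2.1, w.2.2 + 1)⟩
  invFun w := ⟨w.1, (w.2.1, w.2.2 - 1)⟩
  left_inv w := by simp
  right_inv w := by simp

def pT1 : Equiv.Perm (Blk q m) where
  toFun w := ⟨w.1, (w.2.1 + w.2.2, w.2.2)⟩
  invFun w := ⟨w.1, (w.2.1 - w.2.2, w.2.2)⟩
  left_inv w := by simp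
  right_inv w := by simp

def pT2 : Equiv.Perm (Blk q m) where
  toFun w := ⟨w.1, (w.2.1, w.2.2 + w.2.1)⟩
  invFun w := ⟨w.1, (w.2.1, w.2.2 - w.2.1)⟩
  left_inv w := by simp
  right_inv w := by simp

/-- index set of the matched pairs -/
abbrev Mt := Σ r : Fin m, Fin (q (r + 1))

/-- upper contact point, in block `r` -/
def upP (d : Mt q m) : Blk q m := ⟨d.1.castSucc, pt (q d.1) d.2⟩

/-- lower contact point, in block `r+1` -/
def loP (d : Mt q m) : Blk q m := ⟨d.1.succ, (((d.2 : ℕ) : ZMod (q (d.1 + 1))), ((d.2 : ℕ) : ZMod (q (d.1 + 1))) ^ 2)⟩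

noncomputable def tauF : Blk q m → Blk q m := swapFun (upP q m) (loP q m)

/-- the slice of a configuration in block `r` (empty if `r > m`) -/
def sl [∀ r, NeZero (q r)] (r : ℕ) (T : Blk q m → Bool) : Finset (ZMod (q r) × ZMod (q r)) :=
  if h : r < m + 1 then univ.filter (fun w => T ⟨⟨r, h⟩, w⟩ = true) else ∅

noncomputable def th [∀ r, NeZero (q r)] (r : ℕ) (T : Blk q m → Bool) : ℝ :=
  ((sl q m r T).card : ℝ) / (q r : ℝ) ^ 2

noncomputable def thm [∀ r, NeZero (q r)] (r : ℕ) (T : Blk q m → Bool) : ℝ :=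
  ((sl q m r T ∩ Cm (q r)).card : ℝ) / (q r : ℝ)

noncomputable def thp [∀ r, NeZero (q r)] (r : ℕ) (T : Blk q m → Bool) : ℝ :=
  ((sl q m r T ∩ Cp (q r) (q (r + 1))).card : ℝ) / (q (r + 1) : ℝ)

noncomputable def ze [∀ r, NeZero (q r)] (r : ℕ) (T : Blk q m → Bool) : ℝ :=
  ((sl q m r T \ (Cm (q r) ∪ Cp (q r) (q (r + 1)))).card : ℝ) / (q r : ℝ) ^ 2

end

/-- arithmetic hypotheses on the sequence of primes -/
structure Params (q : ℕ → ℕ) (eps : ℕ → ℝ) : Prop where
  ne2 : ∀ r, q r ≠ 2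
  mono : ∀ r, q r ≤ q (r + 1)
  room : ∀ r, q (r + 1) / q r + 1 < q r
  ratio : ∀ r, q (r + 1) = q r ∨ q r ≤ (q (r + 1) / q r) ^ 2
  eps_pos : ∀ r, 0 < eps r
  eps_le : ∀ r, eps r ≤ 1
  eps1 : ∀ r, 16 / (q r : ℝ) ≤ eps r ^ 3
  eps2 : ∀ r, 2 * (q (r + 1) : ℝ) / (q r : ℝ) ^ 2 ≤ eps r
  eps_sum : ∀ m, ∑ r ∈ range m, eps r ≤ 1 / 20000

section
variable {q : ℕ → ℕ} [hq : ∀ r, Fact (q r).Prime] {eps : ℕ → ℝ} (hp : Params q eps) (m : ℕ)

include hp

theorem upP_injective : Function.Injective (upP q m) := by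
  rintro ⟨⟨r, hr⟩, ⟨t, ht⟩⟩ ⟨⟨r', hr'⟩, ⟨t', ht'⟩⟩ h
  unfold upP at h
  have h1 : r = r' := by
    have := congrArg (fun w : Blk q m => (w.1 : ℕ)) h
    simpa using this
  subst h1
  have h2 : pt (q r) t = pt (q r) t' := by
    have := (Sigma.mk.inj_iff.mp h).2
    exact eq_of_heq this
  have h3 : t = t' := pt_injOn (q r) (q (r + 1)) (hp.room r) (by simpa using ht)
    (by simpa using ht') h2
  subst h3
  rfl

theorem loP_injective : Function.Injective (loP q m) := by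
  rintro ⟨⟨r, hr⟩, ⟨t, ht⟩⟩ ⟨⟨r', hr'⟩, ⟨t', ht'⟩⟩ h
  unfold loP at h
  have h1 : r = r' := by
    have := congrArg (fun w : Blk q m => (w.1 : ℕ)) h
    simpa using this
  subst h1
  have h2 : (((t : ℕ) : ZMod (q (r + 1))), ((t : ℕ) : ZMod (q (r + 1))) ^ 2) =
      (((t' : ℕ) : ZMod (q (r + 1))), ((t' : ℕ) : ZMod (q (r + 1))) ^ 2) := by
    have := (Sigma.mk.inj_iff.mp h).2
    exact eq_of_heq this
  have h3 : ((t : ℕ) : ZMod (q (r + 1))) = ((t' : ℕ) : ZMod (q (r + 1))) := congrArg Prod.fst h2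
  have h4 : t = t' := by
    rw [ZMod.natCast_eq_natCast_iff', Nat.mod_eq_of_lt ht, Nat.mod_eq_of_lt ht'] at h3
    exact h3
  subst h4
  rfl

theorem mem_Cm_pt (n : ℕ) [NeZero n] (x : ZMod n) : (x, x ^ 2) ∈ Cm n :=
  Finset.mem_image.mpr ⟨x, Finset.mem_univ _, rfl⟩

theorem upP_ne_loP (d d' : Mt q m) : upP q m d ≠ loP q m d' := by
  obtain ⟨⟨r, hr⟩, ⟨t, ht⟩⟩ := d
  obtain ⟨⟨r', hr'⟩, ⟨t', ht'⟩⟩ := d'
  intro h
  unfold upP loP at h
  have h1 : r = r' + 1 := by
    have := congrArg (fun w : Blk q m => (w.1 : ℕ)) h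
    simpa using this
  subst h1
  have h2 : pt (q (r' + 1)) t =
      (((t' : ℕ) : ZMod (q (r' + 1))), ((t' : ℕ) : ZMod (q (r' + 1))) ^ 2) := by
    have := (Sigma.mk.inj_iff.mp h).2
    exact eq_of_heq this
  have hd := Cm_disjoint_Cp (q (r' + 1)) (q (r' + 1 + 1)) (hp.room (r' + 1))
  have ha : pt (q (r' + 1)) t ∈ Cm (q (r' + 1)) := by
    rw [h2]; exact Finset.mem_image.mpr ⟨_, Finset.mem_univ _, rfl⟩
  have hb : pt (q (r' + 1)) t ∈ Cp (q (r' + 1)) (q (r' + 1 + 1)) :=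
    Finset.mem_image.mpr ⟨t, by simpa using ht, rfl⟩
  exact Finset.disjoint_left.mp hd ha hb

theorem tauF_upP (d : Mt q m) : tauF q m (upP q m d) = loP q m d :=
  swapFun_left _ _ (upP_injective hp m) d

theorem tauF_loP (d : Mt q m) : tauF q m (loP q m d) = upP q m d :=
  swapFun_right _ _ (loP_injective hp m) (upP_ne_loP hp m) d

theorem tauF_of_ne (w : Blk q m) (h1 : ∀ d, upP q m d ≠ w) (h2 : ∀ d, loP q m d ≠ w) :
    tauF q m w = w :=
  swapFun_of_ne _ _ w h1 h2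

theorem tauF_invol : Function.Involutive (tauF q m) :=
  swapFun_invol _ _ (upP_injective hp m) (loP_injective hp m) (upP_ne_loP hp m)

theorem th_mem (r : ℕ) (T : Blk q m → Bool) : 0 ≤ th q m r T ∧ th q m r T ≤ 1 := by
  have hq0 : (0 : ℝ) < q r := by exact_mod_cast (hq r).out.pos
  refine ⟨by unfold th; positivity, ?_⟩
  unfold th
  rw [div_le_one (by positivity)]
  have h1 : (sl q m r T).card ≤ q r ^ 2 := by
    refine (Finset.card_le_univ _).trans ?_
    rw [Fintype.card_prod, ZMod.card, sq]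
  exact_mod_cast h1

theorem thm_mem (r : ℕ) (T : Blk q m → Bool) : 0 ≤ thm q m r T ∧ thm q m r T ≤ 1 := by
  have hq0 : (0 : ℝ) < q r := by exact_mod_cast (hq r).out.pos
  refine ⟨by unfold thm; positivity, ?_⟩
  unfold thm
  rw [div_le_one (by positivity)]
  have h1 : (sl q m r T ∩ Cm (q r)).card ≤ q r :=
    (Finset.card_le_card Finset.inter_subset_right).trans (card_Cm (q r)).le
  exact_mod_cast h1

theorem thp_mem (r : ℕ) (T : Blk q m → Bool) : 0 ≤ thp q m r T ∧ thp q m r T ≤ 1 := by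
  have hq0 : (0 : ℝ) < q (r + 1) := by exact_mod_cast (hq (r + 1)).out.pos
  refine ⟨by unfold thp; positivity, ?_⟩
  unfold thp
  rw [div_le_one (by positivity)]
  have h1 : (sl q m r T ∩ Cp (q r) (q (r + 1))).card ≤ q (r + 1) :=
    (Finset.card_le_card Finset.inter_subset_right).trans (card_Cp _ _ (hp.room r)).le
  exact_mod_cast h1

theorem mem_sl (r : ℕ) (hr : r < m + 1) (T : Blk q m → Bool) (w : ZMod (q r) × ZMod (q r)) :
    w ∈ sl q m r T ↔ T ⟨⟨r, hr⟩, w⟩ = true := by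
  unfold sl
  rw [dif_pos hr]
  simp

/-- (h1) -/
theorem thm_succ (r : ℕ) (hr : r + 1 < m + 1) (T : Blk q m → Bool) :
    thm q m (r + 1) T = thp q m r (fun w => T (tauF q m w)) := by
  have hrm : r < m := by omega
  unfold thm thp
  congr 2
  have e1 : sl q m (r + 1) T ∩ Cm (q (r + 1)) =
      ((range (q (r + 1))).filter (fun t => T ⟨⟨r + 1, hr⟩, (((t : ℕ) : ZMod (q (r + 1))),
        ((t : ℕ) : ZMod (q (r + 1))) ^ 2)⟩ = true)).image
        (fun t : ℕ => (((t : ℕ) : ZMod (q (r + 1))), ((t : ℕ) : ZMod (q (r + 1))) ^ 2)) := by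
    ext w
    simp only [Finset.mem_inter, mem_sl hp m (r + 1) hr, Finset.mem_image, Finset.mem_filter,
      Finset.mem_range, Cm, Finset.mem_univ, true_and]
    constructor
    · rintro ⟨hT, x, rfl⟩
      refine ⟨x.val, ⟨ZMod.val_lt x, ?_⟩, ?_⟩
      · rw [ZMod.natCast_val, ZMod.cast_id]; exact hT
      · rw [ZMod.natCast_val, ZMod.cast_id]
    · rintro ⟨t, ⟨ht, hT⟩, rfl⟩
      exact ⟨hT, _, rfl⟩
  have e2 : sl q m r (fun w => T (tauF q m w)) ∩ Cp (q r) (q (r + 1)) =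
      ((range (q (r + 1))).filter (fun t => T ⟨⟨r + 1, hr⟩, (((t : ℕ) : ZMod (q (r + 1))),
        ((t : ℕ) : ZMod (q (r + 1))) ^ 2)⟩ = true)).image (pt (q r)) := by
    have htau : ∀ t, t < q (r + 1) → tauF q m ⟨⟨r, by omega⟩, pt (q r) t⟩ =
        ⟨⟨r + 1, hr⟩, (((t : ℕ) : ZMod (q (r + 1))), ((t : ℕ) : ZMod (q (r + 1))) ^ 2)⟩ := by
      intro t ht
      exact tauF_upP hp m ⟨⟨r, hrm⟩, ⟨t, ht⟩⟩
    ext w
    simp only [Finset.mem_inter, mem_sl hp m r (by omega : r < m + 1), Finset.mem_image,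
      Finset.mem_filter, Finset.mem_range, Cp]
    constructor
    · rintro ⟨hT, t, ht, rfl⟩
      rw [htau t ht] at hT
      exact ⟨t, ⟨ht, hT⟩, rfl⟩
    · rintro ⟨t, ⟨ht, hT⟩, rfl⟩
      refine ⟨?_, t, ht, rfl⟩
      rw [htau t ht]; exact hT
  rw [e1, e2, Finset.card_image_of_injOn, Finset.card_image_of_injOn]
  · intro t ht t' ht' h
    simp only [Finset.coe_filter, Finset.mem_range, Set.mem_setOf_eq] at ht ht'
    exact pt_injOn (q r) (q (r + 1)) (hp.room r) (by simpa using ht.1) (by simpa using ht'.1) h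
  · intro t ht t' ht' h
    simp only [Finset.coe_filter, Finset.mem_range, Set.mem_setOf_eq] at ht ht'
    have h3 : ((t : ℕ) : ZMod (q (r + 1))) = ((t' : ℕ) : ZMod (q (r + 1))) := congrArg Prod.fst h
    rwa [ZMod.natCast_eq_natCast_iff', Nat.mod_eq_of_lt ht.1, Nat.mod_eq_of_lt ht'.1] at h3

/-- (h2) -/
theorem ze_tau (r : ℕ) (hr : r < m + 1) (T : Blk q m → Bool) :
    ze q m r (fun w => T (tauF q m w)) = ze q m r T := by
  unfold ze
  congr 2
  congr 1
  ext w
  simp only [Finset.mem_sdiff, mem_sl hp m r hr, Finset.mem_union, not_or]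
  constructor
  · rintro ⟨h1, h2, h3⟩
    refine ⟨?_, h2, h3⟩
    rwa [tauF_of_ne hp m] at h1
    · rintro ⟨⟨r', hr'⟩, ⟨t, ht⟩⟩ h
      unfold upP at h
      have h4 : r' = r := by
        have := congrArg (fun w : Blk q m => (w.1 : ℕ)) h
        simpa using this
      subst h4
      have h5 : pt (q r') t = w := eq_of_heq (Sigma.mk.inj_iff.mp h).2
      exact h3 (Finset.mem_image.mpr ⟨t, by simpa using ht, h5⟩)
    · rintro ⟨⟨r', hr'⟩, ⟨t, ht⟩⟩ h
      unfold loP at h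
      have h4 : r' + 1 = r := by
        have := congrArg (fun w : Blk q m => (w.1 : ℕ)) h
        simpa using this
      subst h4
      have h5 := eq_of_heq (Sigma.mk.inj_iff.mp h).2
      exact h2 (Finset.mem_image.mpr ⟨_, Finset.mem_univ _, h5⟩)
  · rintro ⟨h1, h2, h3⟩
    refine ⟨?_, h2, h3⟩
    rwa [tauF_of_ne hp m]
    · rintro ⟨⟨r', hr'⟩, ⟨t, ht⟩⟩ h
      unfold upP at h
      have h4 : r' = r := by
        have := congrArg (fun w : Blk q m => (w.1 : ℕ)) h
        simpa using this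
      subst h4
      have h5 : pt (q r') t = w := eq_of_heq (Sigma.mk.inj_iff.mp h).2
      exact h3 (Finset.mem_image.mpr ⟨t, by simpa using ht, h5⟩)
    · rintro ⟨⟨r', hr'⟩, ⟨t, ht⟩⟩ h
      unfold loP at h
      have h4 : r' + 1 = r := by
        have := congrArg (fun w : Blk q m => (w.1 : ℕ)) h
        simpa using this
      subst h4
      have h5 := eq_of_heq (Sigma.mk.inj_iff.mp h).2
      exact h2 (Finset.mem_image.mpr ⟨_, Finset.mem_univ _, h5⟩)

/-- (h2') -/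
theorem th_sub_ze (r : ℕ) (hr : r < m + 1) (T : Blk q m → Bool) :
    |th q m r T - ze q m r T| ≤ eps r / 2 * (thp q m r T + thm q m r T) := by
  have hq0 : (0 : ℝ) < q r := by exact_mod_cast (hq r).out.pos
  have hq1 : (0 : ℝ) < q (r + 1) := by exact_mod_cast (hq (r + 1)).out.pos
  set S := sl q m r T with hS
  set A := (S ∩ Cm (q r)).card with hA
  set B := (S ∩ Cp (q r) (q (r + 1))).card with hB
  have hcard : S.card ≤ (S \ (Cm (q r) ∪ Cp (q r) (q (r + 1)))).card + (A + B) := by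
    have h1 : (S ∩ (Cm (q r) ∪ Cp (q r) (q (r + 1)))).card ≤ A + B := by
      rw [Finset.inter_union_distrib_left]
      exact Finset.card_union_le _ _
    have h2 := Finset.card_sdiff_add_card_inter S (Cm (q r) ∪ Cp (q r) (q (r + 1)))
    omega
  have hcard2 : (S \ (Cm (q r) ∪ Cp (q r) (q (r + 1)))).card ≤ S.card :=
    Finset.card_le_card Finset.sdiff_subset
  have e1 : th q m r T - ze q m r T =
      ((S.card : ℝ) - (S \ (Cm (q r) ∪ Cp (q r) (q (r + 1)))).card) / (q r : ℝ) ^ 2 := by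
    unfold th ze; rw [← hS]; ring
  rw [e1, abs_of_nonneg (div_nonneg (by
    have : ((S \ (Cm (q r) ∪ Cp (q r) (q (r + 1)))).card : ℝ) ≤ S.card := by exact_mod_cast hcard2
    linarith) (by positivity))]
  have hAB : (S.card : ℝ) - (S \ (Cm (q r) ∪ Cp (q r) (q (r + 1)))).card ≤ A + B := by
    have : (S.card : ℝ) ≤ (S \ (Cm (q r) ∪ Cp (q r) (q (r + 1)))).card + (A + B) := by
      exact_mod_cast hcard
    linarith
  have hthm : (A : ℝ) = q r * thm q m r T := by
    unfold thm; rw [← hS, ← hA]; field_simp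
  have hthp : (B : ℝ) = q (r + 1) * thp q m r T := by
    unfold thp; rw [← hS, ← hB]; field_simp
  have hm : (q r : ℝ) ≤ q (r + 1) := by exact_mod_cast hp.mono r
  have h1 : (A : ℝ) + B ≤ q (r + 1) * (thp q m r T + thm q m r T) := by
    rw [hthm, hthp]
    have := mul_le_mul_of_nonneg_right hm (thm_mem hp m r T).1
    linarith
  calc ((S.card : ℝ) - (S \ (Cm (q r) ∪ Cp (q r) (q (r + 1)))).card) / (q r : ℝ) ^ 2
      ≤ (q (r + 1) * (thp q m r T + thm q m r T)) / (q r : ℝ) ^ 2 := by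
        apply div_le_div_of_nonneg_right _ (by positivity)
        linarith
    _ = (2 * (q (r + 1) : ℝ) / (q r : ℝ) ^ 2) / 2 * (thp q m r T + thm q m r T) := by ring
    _ ≤ eps r / 2 * (thp q m r T + thm q m r T) := by
        apply mul_le_mul_of_nonneg_right _ (add_nonneg (thp_mem hp m r T).1 (thm_mem hp m r T).1)
        linarith [hp.eps2 r]

end

end L2LP
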