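import Mathlib

/-!
# Sector argument for relative property (T) (Lemma 2, combinatorial part)
-/

namespace L2LP

open Finset

namespace Sector

variable {N : ℕ} [NeZero N]

/-- the shear `(j,k) -> (j+k,k)` -/
def eA (N : ℕ) : Equiv.Perm (ZMod N × ZMod N) where
  toFun c := (c.1 + c.2, c.2)
  invFun c := (c.1 - c.2, c.2)
  left_inv c := by simp
  right_inv c := by simp

/-- the shear `(j,k) -> (j,k+j)` -/
def eB (N : ℕ) : Equiv.Perm (ZMod N × ZMod N) where
  toFun c := (c.1, c.2 + c.1)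
  invFun c := (c.1, c.2 - c.1)
  left_inv c := by simp
  right_inv c := by simp

/-- first and third quadrant, small -/
def D12 (c : ZMod N × ZMod N) : Prop :=
  4 * |c.1.valMinAbs| < N ∧ 4 * |c.2.valMinAbs| < N ∧
    ((0 ≤ c.1.valMinAbs ∧ 0 < c.2.valMinAbs) ∨ (c.1.valMinAbs ≤ 0 ∧ c.2.valMinAbs < 0))

/-- second and fourth quadrant, small -/
def D34 (c : ZMod N × ZMod N) : Prop :=
  4 * |c.1.valMinAbs| < N ∧ 4 * |c.2.valMinAbs| < N ∧
    ((0 < c.1.valMinAbs ∧ c.2.valMinAbs ≤ 0) ∨ (c.1.valMinAbs < 0 ∧ 0 ≤ c.2.valMinAbs))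

instance : DecidablePred (D12 (N := N)) := fun c => by unfold D12; infer_instance
instance : DecidablePred (D34 (N := N)) := fun c => by unfold D34; infer_instance

theorem vma_add {a b : ZMod N} (ha : 4 * |a.valMinAbs| < N) (hb : 4 * |b.valMinAbs| < N) :
    (a + b).valMinAbs = a.valMinAbs + b.valMinAbs := by
  rw [ZMod.valMinAbs_spec]
  refine ⟨by push_cast; simp, ?_⟩
  have h1 := abs_le.1 (le_refl |a.valMinAbs|)
  have h2 := abs_le.1 (le_refl |b.valMinAbs|)
  constructor <;> [skip; skip] <;> omega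

theorem vma_sub {a b : ZMod N} (ha : 4 * |a.valMinAbs| < N) (hb : 4 * |b.valMinAbs| < N) :
    (a - b).valMinAbs = a.valMinAbs - b.valMinAbs := by
  rw [ZMod.valMinAbs_spec]
  refine ⟨by push_cast; simp, ?_⟩
  have h1 := abs_le.1 (le_refl |a.valMinAbs|)
  have h2 := abs_le.1 (le_refl |b.valMinAbs|)
  constructor <;> [skip; skip] <;> omega

/-- the image of `D12` under `A` -/
theorem im1 {c : ZMod N × ZMod N} (h : D12 ((eA N).symm c)) :
    (c.2.valMinAbs ≤ c.1.valMinAbs ∧ 0 < c.2.valMinAbs) ∨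
      (c.1.valMinAbs ≤ c.2.valMinAbs ∧ c.2.valMinAbs < 0) := by
  obtain ⟨h1, h2, h3⟩ := h
  have e : c.1 = ((eA N).symm c).1 + ((eA N).symm c).2 := by simp [eA]
  have e2 : c.2 = ((eA N).symm c).2 := rfl
  rw [e, vma_add h1 h2, e2]
  omega

theorem im2 {c : ZMod N × ZMod N} (h : D12 ((eB N).symm c)) :
    (c.1.valMinAbs < c.2.valMinAbs ∧ 0 ≤ c.1.valMinAbs) ∨
      (c.2.valMinAbs < c.1.valMinAbs ∧ c.1.valMinAbs ≤ 0) := by
  obtain ⟨h1, h2, h3⟩ := h
  have e : c.2 = ((eB N).symm c).2 + ((eB N).symm c).1 := by simp [eB]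
  have e2 : c.1 = ((eB N).symm c).1 := rfl
  rw [e, vma_add h2 h1, e2]
  omega

theorem im3 {c : ZMod N × ZMod N} (h : D34 (eA N c)) :
    (0 < c.1.valMinAbs ∧ c.2.valMinAbs ≤ 0 ∧ 0 < c.1.valMinAbs + c.2.valMinAbs) ∨
      (c.1.valMinAbs < 0 ∧ 0 ≤ c.2.valMinAbs ∧ c.1.valMinAbs + c.2.valMinAbs < 0) := by
  obtain ⟨h1, h2, h3⟩ := h
  have e : c.1 = (eA N c).1 - (eA N c).2 := by simp [eA]
  have e2 : c.2 = (eA N c).2 := rfl
  rw [e, vma_sub h1 h2, e2]
  omega

theorem im4 {c : ZMod N × ZMod N} (h : D34 (eB N c)) :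
    (0 < c.1.valMinAbs ∧ c.2.valMinAbs < 0 ∧ c.1.valMinAbs + c.2.valMinAbs ≤ 0) ∨
      (c.1.valMinAbs < 0 ∧ 0 < c.2.valMinAbs ∧ 0 ≤ c.1.valMinAbs + c.2.valMinAbs) := by
  obtain ⟨h1, h2, h3⟩ := h
  have e : c.2 = (eB N c).2 - (eB N c).1 := by simp [eB]
  have e2 : c.1 = (eB N c).1 := rfl
  rw [e, vma_sub h2 h1, e2]
  omega

theorem pointwise (g : ZMod N × ZMod N → ℝ) (hg : ∀ c, 0 ≤ g c) (c : ZMod N × ZMod N) :
    (if D12 ((eA N).symm c) then g c else 0) + (if D12 ((eB N).symm c) then g c else 0)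
      + (if D34 (eA N c) then g c else 0) + (if D34 (eB N c) then g c else 0)
      ≤ if c = 0 then 0 else g c := by
  have hc := hg c
  by_cases h0 : c = 0
  · subst h0
    have n1 : ¬ D12 ((eA N).symm 0) := fun h => by
      have := im1 h; simp at this
    have n2 : ¬ D12 ((eB N).symm 0) := fun h => by
      have := im2 h; simp at this
    have n3 : ¬ D34 (eA N 0) := fun h => by
      have := im3 h; simp at this
    have n4 : ¬ D34 (eB N 0) := fun h => by
      have := im4 h; simp at this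
    simp [n1, n2, n3, n4]
  · rw [if_neg h0]
    by_cases h1 : D12 ((eA N).symm c)
    · have q1 := im1 h1
      have n2 : ¬ D12 ((eB N).symm c) := fun h => by have := im2 h; omega
      have n3 : ¬ D34 (eA N c) := fun h => by have := im3 h; omega
      have n4 : ¬ D34 (eB N c) := fun h => by have := im4 h; omega
      simp [h1, n2, n3, n4]
    · by_cases h2 : D12 ((eB N).symm c)
      · have q2 := im2 h2
        have n3 : ¬ D34 (eA N c) := fun h => by have := im3 h; omega
        have n4 : ¬ D34 (eB N c) := fun h => by have := im4 h; omega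
        simp [h1, h2, n3, n4]
      · by_cases h3 : D34 (eA N c)
        · have q3 := im3 h3
          have n4 : ¬ D34 (eB N c) := fun h => by have := im4 h; omega
          simp [h1, h2, h3, n4]
        · by_cases h4 : D34 (eB N c)
          · simp [h1, h2, h3, h4]
          · simp [h1, h2, h3, h4, hc]

theorem norm_char_sub_one {j : ZMod N} (hj : ¬ 4 * |j.valMinAbs| < N) :
    2 ≤ ‖(ZMod.stdAddChar j : ℂ) - 1‖ ^ 2 := by
  have hN : (0 : ℝ) < N := by exact_mod_cast Nat.pos_of_ne_zero (NeZero.ne N)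
  set v := j.valMinAbs with hv
  have hjv : j = ((v : ℤ) : ZMod N) := by rw [hv, ZMod.coe_valMinAbs]
  have e1 : (ZMod.stdAddChar j : ℂ) = Complex.exp (((2 * Real.pi * v / N : ℝ) : ℂ) * Complex.I) := by
    rw [hjv, ZMod.stdAddChar_coe]
    congr 1
    push_cast
    ring
  set t : ℝ := 2 * Real.pi * v / N with ht
  have e2 : ‖(ZMod.stdAddChar j : ℂ) - 1‖ ^ 2 = 2 - 2 * Real.cos t := by
    rw [e1, ← Complex.normSq_eq_norm_sq, Complex.normSq_apply]
    simp only [Complex.sub_re, Complex.sub_im, Complex.exp_ofReal_mul_I_re,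
      Complex.exp_ofReal_mul_I_im, Complex.one_re, Complex.one_im]
    nlinarith [Real.sin_sq_add_cos_sq t]
  have hb := j.valMinAbs_mem_Ioc
  rw [← hv] at hb
  have hcos : Real.cos t ≤ 0 := by
    rw [← Real.cos_abs]
    have habs : |t| = 2 * Real.pi * |(v : ℝ)| / N := by
      rw [ht, abs_div, abs_mul, abs_of_pos hN, abs_of_pos (by positivity : (0 : ℝ) < 2 * Real.pi)]
    have h4 : (N : ℝ) ≤ 4 * |(v : ℝ)| := by
      have : (N : ℤ) ≤ 4 * |v| := not_lt.1 hj
      exact_mod_cast this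
    have h2 : 2 * |(v : ℝ)| ≤ N := by
      have : 2 * |v| ≤ (N : ℤ) := by
        have := hb.1
        have := hb.2
        rcases abs_cases v with h | h <;> omega
      exact_mod_cast this
    apply Real.cos_nonpos_of_pi_div_two_le_of_le
    · rw [habs, le_div_iff₀ hN]
      nlinarith [Real.pi_pos]
    · rw [habs, div_le_iff₀ hN]
      nlinarith [Real.pi_pos]
  rw [e2]
  linarith

theorem sq_ge (x y : ℝ) : (3 / 4) * x ^ 2 - 3 * (y - x) ^ 2 ≤ y ^ 2 := by
  nlinarith [sq_nonneg (x / 2 + 2 * (y - x))]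

theorem sector (h : ZMod N × ZMod N → ℝ) (e : ℝ)
    (hA : ∑ c, (h (eA N c) - h c) ^ 2 ≤ e ^ 2) (hB : ∑ c, (h (eB N c) - h c) ^ 2 ≤ e ^ 2)
    (h1 : ∑ c : ZMod N × ZMod N, ‖(ZMod.stdAddChar c.1 : ℂ) - 1‖ ^ 2 * h c ^ 2 ≤ e ^ 2)
    (h2 : ∑ c : ZMod N × ZMod N, ‖(ZMod.stdAddChar c.2 : ℂ) - 1‖ ^ 2 * h c ^ 2 ≤ e ^ 2) :
    ∑ c : ZMod N × ZMod N, (if c = 0 then 0 else h c ^ 2) ≤ 27 * e ^ 2 := by
  have key : (∑ c, if D12 c then h (eA N c) ^ 2 else 0) + (∑ c, if D12 c then h (eB N c) ^ 2 else 0)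
      + (∑ c, if D34 c then h ((eA N).symm c) ^ 2 else 0)
      + (∑ c, if D34 c then h ((eB N).symm c) ^ 2 else 0)
      ≤ ∑ c : ZMod N × ZMod N, (if c = 0 then 0 else h c ^ 2) := by
    rw [← Equiv.sum_comp (eA N).symm (fun c => if D12 c then h (eA N c) ^ 2 else 0),
      ← Equiv.sum_comp (eB N).symm (fun c => if D12 c then h (eB N c) ^ 2 else 0),
      ← Equiv.sum_comp (eA N) (fun c => if D34 c then h ((eA N).symm c) ^ 2 else 0),
      ← Equiv.sum_comp (eB N) (fun c => if D34 c then h ((eB N).symm c) ^ 2 else 0),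
      ← sum_add_distrib, ← sum_add_distrib, ← sum_add_distrib]
    apply sum_le_sum
    intro c _
    simpa using pointwise (fun c => h c ^ 2) (fun c => sq_nonneg _) c
  -- lower bounds
  have low : ∀ (P : ZMod N × ZMod N → Prop) [DecidablePred P] (f : Equiv.Perm (ZMod N × ZMod N)),
      ∑ c, (h (f c) - h c) ^ 2 ≤ e ^ 2 →
      (3 / 4) * (∑ c, if P c then h c ^ 2 else 0) - 3 * e ^ 2 ≤ ∑ c, if P c then h (f c) ^ 2 else 0 := by
    intro P _ f hf
    have : (3 / 4) * (∑ c, if P c then h c ^ 2 else 0) - 3 * (∑ c, (h (f c) - h c) ^ 2)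
        ≤ ∑ c, if P c then h (f c) ^ 2 else 0 := by
      rw [mul_sum, mul_sum, ← sum_sub_distrib]
      apply sum_le_sum
      intro c _
      split_ifs with hP
      · exact sq_ge _ _
      · nlinarith [sq_nonneg (h (f c) - h c)]
    linarith
  have l1 := low D12 (eA N) hA
  have l2 := low D12 (eB N) hB
  have hA' : ∑ c, (h ((eA N).symm c) - h c) ^ 2 ≤ e ^ 2 := by
    rw [← Equiv.sum_comp (eA N)]
    simpa [sub_sq_comm] using hA
  have hB' : ∑ c, (h ((eB N).symm c) - h c) ^ 2 ≤ e ^ 2 := by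
    rw [← Equiv.sum_comp (eB N)]
    simpa [sub_sq_comm] using hB
  have l3 := low D34 (eA N).symm hA'
  have l4 := low D34 (eB N).symm hB'
  -- the outside
  have out : ∑ c : ZMod N × ZMod N, (if c = 0 then 0 else h c ^ 2)
      ≤ (∑ c, if D12 c then h c ^ 2 else 0) + (∑ c, if D34 c then h c ^ 2 else 0) + e ^ 2 := by
    have h3 : ∑ c : ZMod N × ZMod N, (if c = 0 then 0 else h c ^ 2)
      ≤ (∑ c, if D12 c then h c ^ 2 else 0) + (∑ c, if D34 c then h c ^ 2 else 0)
        + (1 / 2) * ((∑ c : ZMod N × ZMod N, ‖(ZMod.stdAddChar c.1 : ℂ) - 1‖ ^ 2 * h c ^ 2)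
          + ∑ c : ZMod N × ZMod N, ‖(ZMod.stdAddChar c.2 : ℂ) - 1‖ ^ 2 * h c ^ 2) := by
      rw [← sum_add_distrib, ← sum_add_distrib, mul_sum, ← sum_add_distrib]
      apply sum_le_sum
      intro c _
      have hh := sq_nonneg (h c)
      have p1 : 0 ≤ ‖(ZMod.stdAddChar c.1 : ℂ) - 1‖ ^ 2 * h c ^ 2 := by positivity
      have p2 : 0 ≤ ‖(ZMod.stdAddChar c.2 : ℂ) - 1‖ ^ 2 * h c ^ 2 := by positivity
      by_cases h0 : c = 0
      · rw [if_pos h0]
        have q1 : (0 : ℝ) ≤ if D12 c then h c ^ 2 else 0 := by split_ifs <;> simp [hh]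
        have q2 : (0 : ℝ) ≤ if D34 c then h c ^ 2 else 0 := by split_ifs <;> simp [hh]
        linarith
      · rw [if_neg h0]
        by_cases d1 : D12 c
        · rw [if_pos d1]
          have q2 : (0 : ℝ) ≤ if D34 c then h c ^ 2 else 0 := by split_ifs <;> simp [hh]
          linarith
        · by_cases d2 : D34 c
          · rw [if_pos d2, if_neg d1]
            linarith
          · rw [if_neg d1, if_neg d2]
            by_cases b1 : 4 * |c.1.valMinAbs| < N
            · by_cases b2 : 4 * |c.2.valMinAbs| < N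
              · exfalso
                have : c.1.valMinAbs ≠ 0 ∨ c.2.valMinAbs ≠ 0 := by
                  by_contra hcon
                  push Not at hcon
                  apply h0
                  ext1
                  · exact (ZMod.valMinAbs_eq_zero _).1 hcon.1
                  · exact (ZMod.valMinAbs_eq_zero _).1 hcon.2
                unfold D12 at d1
                unfold D34 at d2
                simp only [b1, b2, true_and] at d1 d2
                omega
              · have := norm_char_sub_one b2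
                nlinarith
            · have := norm_char_sub_one b1
              nlinarith
    linarith
  linarith

end Sector

end L2LP
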