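import Pool.Agent.Helper44.LP.Basic
import Pool.Agent.Helper44.LP.RelTSector

/-!
# Relative property (T) of Z^2 inside Z^2 x| SL_2(Z), for permutation actions (Lemma 2)
-/

namespace L2LP

open Finset

/-- the average of a function over the commuting permutations `E1^a E2^b`, `0 <= a,b < N` -/
noncomputable def avg {Om : Type*} (N : ℕ) (E1 E2 : Equiv.Perm Om) (H : Om → ℝ) : Om → ℝ :=
  fun x => (∑ a ∈ range N, ∑ b ∈ range N, H ((E1 ^ a * E2 ^ b) x)) / (N : ℝ) ^ 2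

section powers

variable {G : Type*} [Group G]

theorem pow_val_add {N : ℕ} [NeZero N] {E : G} (hE : E ^ N = 1) (a b : ZMod N) :
    E ^ (a + b).val = E ^ a.val * E ^ b.val := by
  rw [ZMod.val_add, ← pow_eq_pow_mod _ hE, pow_add]

theorem pow_val_one {N : ℕ} [NeZero N] {E : G} (hE : E ^ N = 1) :
    E ^ (1 : ZMod N).val = E := by
  rw [ZMod.val_one_eq_one_mod, ← pow_eq_pow_mod _ hE, pow_one]

end powers

/-- the action of `Z_N^2` -/
def U {Om : Type*} {N : ℕ} (E1 E2 : Equiv.Perm Om) (p : ZMod N × ZMod N) : Equiv.Perm Om :=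
  E1 ^ p.1.val * E2 ^ p.2.val

section U

variable {Om : Type*} {N : ℕ} [NeZero N] {E1 E2 : Equiv.Perm Om}

theorem U_add (hcomm : E1 * E2 = E2 * E1) (hE1 : E1 ^ N = 1) (hE2 : E2 ^ N = 1)
    (p q : ZMod N × ZMod N) : U E1 E2 (p + q) = U E1 E2 p * U E1 E2 q := by
  have hc : Commute E1 E2 := hcomm
  unfold U
  rw [Prod.fst_add, Prod.snd_add, pow_val_add hE1, pow_val_add hE2]
  have := (hc.pow_pow q.1.val p.2.val).eq
  calc E1 ^ p.1.val * E1 ^ q.1.val * (E2 ^ p.2.val * E2 ^ q.2.val)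
      = E1 ^ p.1.val * (E1 ^ q.1.val * E2 ^ p.2.val) * E2 ^ q.2.val := by group
    _ = E1 ^ p.1.val * (E2 ^ p.2.val * E1 ^ q.1.val) * E2 ^ q.2.val := by rw [this]
    _ = _ := by group

theorem U_one_zero (hE1 : E1 ^ N = 1) : U E1 E2 ((1, 0) : ZMod N × ZMod N) = E1 := by
  simp [U, pow_val_one hE1]

theorem U_zero_one (hE2 : E2 ^ N = 1) : U E1 E2 ((0, 1) : ZMod N × ZMod N) = E2 := by
  simp [U, pow_val_one hE2]

theorem semi_pow {G : Type*} [Group G] {S E F : G} (h : S * E = F * S) (n : ℕ) :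
    S * E ^ n = F ^ n * S := by
  induction n with
  | zero => simp
  | succ n ih => rw [pow_succ, pow_succ, ← mul_assoc, ih, mul_assoc, h, mul_assoc]

theorem S1_U (hcomm : E1 * E2 = E2 * E1) (hE1 : E1 ^ N = 1) {S1 : Equiv.Perm Om}
    (h11 : S1 * E1 = E1 * S1) (h12 : S1 * E2 = E1 * E2 * S1) (p : ZMod N × ZMod N) :
    S1 * U E1 E2 p = U E1 E2 (p.1 + p.2, p.2) * S1 := by
  have hc : Commute E1 E2 := hcomm
  unfold U
  rw [← mul_assoc, semi_pow h11, mul_assoc, semi_pow h12, hc.mul_pow, pow_val_add hE1]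
  simp only [mul_assoc]

theorem S2_U (hcomm : E1 * E2 = E2 * E1) (hE2 : E2 ^ N = 1) {S2 : Equiv.Perm Om}
    (h22 : S2 * E2 = E2 * S2) (h21 : S2 * E1 = E1 * E2 * S2) (p : ZMod N × ZMod N) :
    S2 * U E1 E2 p = U E1 E2 (p.1, p.2 + p.1) * S2 := by
  have hc : Commute E1 E2 := hcomm
  unfold U
  rw [← mul_assoc, semi_pow h21, mul_assoc, semi_pow h22, hc.mul_pow, pow_val_add hE2]
  have := (hc.symm.pow_pow p.1.val p.2.val).eq
  have h3 : (E2 ^ p.2.val * E2 ^ p.1.val) = E2 ^ p.1.val * E2 ^ p.2.val := by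
    rw [← pow_add, ← pow_add, add_comm]
  rw [h3]
  simp only [mul_assoc]

end U

section Fourier

variable {N : ℕ} [NeZero N]

theorem char_sum (r : ZMod N × ZMod N) :
    ∑ c : ZMod N × ZMod N, (ZMod.stdAddChar (c.1 * r.1 + c.2 * r.2) : ℂ)
      = if r = 0 then (N : ℂ) ^ 2 else 0 := by
  have hp := ZMod.isPrimitive_stdAddChar N
  have e : ∀ b : ZMod N, ∑ x : ZMod N, (ZMod.stdAddChar (x * b) : ℂ) = if b = 0 then (N : ℂ) else 0 := by
    intro b
    have := AddChar.sum_mulShift b hp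
    rw [this]
    split_ifs <;> simp [ZMod.card]
  rw [Fintype.sum_prod_type]
  simp only [AddChar.map_add_eq_mul]
  simp only [← mul_sum, e, ← sum_mul]
  by_cases h1 : r.1 = 0
  · by_cases h2 : r.2 = 0
    · have : r = 0 := Prod.ext h1 h2
      simp [this, sq]
    · have : r ≠ 0 := fun h => h2 (by rw [h]; rfl)
      simp [h1, h2, this]
  · have : r ≠ 0 := fun h => h1 (by rw [h]; rfl)
    simp [h1, this]

theorem parseval (G : ZMod N × ZMod N → ℂ) :
    ∑ c : ZMod N × ZMod N, ‖∑ p : ZMod N × ZMod N, (ZMod.stdAddChar (c.1 * p.1 + c.2 * p.2) : ℂ) * G p‖ ^ 2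
      = (N : ℝ) ^ 2 * ∑ p, ‖G p‖ ^ 2 := by
  have key : ((∑ c : ZMod N × ZMod N,
      ‖∑ p : ZMod N × ZMod N, (ZMod.stdAddChar (c.1 * p.1 + c.2 * p.2) : ℂ) * G p‖ ^ 2 : ℝ) : ℂ)
      = (((N : ℝ) ^ 2 * ∑ p, ‖G p‖ ^ 2 : ℝ) : ℂ) := by
    push_cast
    simp only [← Complex.mul_conj', map_sum, map_mul]
    calc ∑ c : ZMod N × ZMod N, (∑ p : ZMod N × ZMod N, (ZMod.stdAddChar (c.1 * p.1 + c.2 * p.2) : ℂ) * G p)
          * (∑ p : ZMod N × ZMod N, (starRingEnd ℂ) (ZMod.stdAddChar (c.1 * p.1 + c.2 * p.2) : ℂ)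
            * (starRingEnd ℂ) (G p))
        = ∑ c : ZMod N × ZMod N, ∑ p : ZMod N × ZMod N, ∑ r : ZMod N × ZMod N,
            (ZMod.stdAddChar (c.1 * (p.1 - r.1) + c.2 * (p.2 - r.2)) : ℂ)
              * (G p * (starRingEnd ℂ) (G r)) := by
          apply sum_congr rfl
          intro c _
          rw [sum_mul_sum]
          apply sum_congr rfl
          intro p _
          apply sum_congr rfl
          intro r _
          rw [← AddChar.map_neg_eq_conj]
          have : (c.1 * (p.1 - r.1) + c.2 * (p.2 - r.2)) =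
            (c.1 * p.1 + c.2 * p.2) + (- (c.1 * r.1 + c.2 * r.2)) := by ring
          rw [this, AddChar.map_add_eq_mul _ (c.1 * p.1 + c.2 * p.2) (-(c.1 * r.1 + c.2 * r.2))]
          have hgen : ∀ a b g r : ℂ, a * g * (b * r) = a * b * (g * r) := fun a b g r => by ring
          exact hgen _ _ _ _
      _ = ∑ p : ZMod N × ZMod N, ∑ r : ZMod N × ZMod N, ∑ c : ZMod N × ZMod N,
            (ZMod.stdAddChar (c.1 * (p.1 - r.1) + c.2 * (p.2 - r.2)) : ℂ)
              * (G p * (starRingEnd ℂ) (G r)) := by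
          rw [sum_comm]
          apply sum_congr rfl
          intro p _
          rw [sum_comm]
      _ = ∑ p : ZMod N × ZMod N, ∑ r : ZMod N × ZMod N,
            (if p - r = 0 then (N : ℂ) ^ 2 else 0) * (G p * (starRingEnd ℂ) (G r)) := by
          apply sum_congr rfl
          intro p _
          apply sum_congr rfl
          intro r _
          rw [← sum_mul, ← char_sum (p - r)]
          rfl
      _ = (N : ℂ) ^ 2 * ∑ p, G p * (starRingEnd ℂ) (G p) := by
          rw [mul_sum]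
          apply sum_congr rfl
          intro p _
          rw [sum_eq_single p]
          · simp
          · intro r _ hr
            have : p - r ≠ 0 := sub_ne_zero.2 (Ne.symm hr)
            simp [this]
          · simp
  exact_mod_cast key

variable {Om : Type*} [Fintype Om]

/-- isotypic component -/
noncomputable def PP (E1 E2 : Equiv.Perm Om) (c : ZMod N × ZMod N) (F : Om → ℂ) : Om → ℂ :=
  fun x => (N : ℂ)⁻¹ ^ 2 * ∑ p : ZMod N × ZMod N,
    (ZMod.stdAddChar (c.1 * p.1 + c.2 * p.2) : ℂ) * F (U E1 E2 p x)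

/-- complex l2 norm -/
noncomputable def cn (F : Om → ℂ) : ℝ := ‖(WithLp.toLp 2 F : EuclideanSpace ℂ Om)‖

theorem cn_sq (F : Om → ℂ) : cn F ^ 2 = ∑ x, ‖F x‖ ^ 2 := by
  unfold cn
  rw [EuclideanSpace.norm_sq_eq]

theorem cn_mul (z : ℂ) (F : Om → ℂ) : cn (fun x => z * F x) ^ 2 = ‖z‖ ^ 2 * cn F ^ 2 := by
  rw [cn_sq, cn_sq, mul_sum]
  exact sum_congr rfl fun x _ => by rw [norm_mul, mul_pow]

theorem cn_comp (g : Equiv.Perm Om) (F : Om → ℂ) : cn (fun x => F (g x)) = cn F := by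
  have h : cn (fun x => F (g x)) ^ 2 = cn F ^ 2 := by
    rw [cn_sq, cn_sq]
    exact Equiv.sum_comp g (fun x => ‖F x‖ ^ 2)
  exact (sq_eq_sq₀ (norm_nonneg _) (norm_nonneg _)).1 h

theorem cn_sub_sq (F G : Om → ℂ) : (cn F - cn G) ^ 2 ≤ cn (fun x => F x - G x) ^ 2 := by
  have e : (WithLp.toLp 2 (fun x => F x - G x) : EuclideanSpace ℂ Om)
      = WithLp.toLp 2 F - WithLp.toLp 2 G := by
    ext x; simp
  unfold cn
  rw [e]
  have := abs_norm_sub_norm_le (WithLp.toLp 2 F : EuclideanSpace ℂ Om) (WithLp.toLp 2 G)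
  rw [← sq_abs]
  exact pow_le_pow_left₀ (abs_nonneg _) this 2

theorem PP_parseval (E1 E2 : Equiv.Perm Om) (F : Om → ℂ) :
    ∑ c : ZMod N × ZMod N, cn (PP E1 E2 c F) ^ 2 = cn F ^ 2 := by
  have hN : (N : ℝ) ≠ 0 := Nat.cast_ne_zero.2 (NeZero.ne N)
  simp only [cn_sq]
  rw [sum_comm]
  have e : ∀ x, ∑ c : ZMod N × ZMod N, ‖PP E1 E2 c F x‖ ^ 2
      = ((N : ℝ)⁻¹) ^ 2 * ∑ p : ZMod N × ZMod N, ‖F (U E1 E2 p x)‖ ^ 2 := by
    intro x
    have h := parseval (N := N) (fun p => F (U E1 E2 p x))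
    have : ∀ c : ZMod N × ZMod N, ‖PP E1 E2 c F x‖ ^ 2 = ((N : ℝ)⁻¹) ^ 4 *
        ‖∑ p : ZMod N × ZMod N, (ZMod.stdAddChar (c.1 * p.1 + c.2 * p.2) : ℂ) * F (U E1 E2 p x)‖ ^ 2 := by
      intro c
      unfold PP
      rw [norm_mul, norm_pow, norm_inv, Complex.norm_natCast]
      ring
    simp only [this, ← mul_sum, h]
    field_simp
  simp only [e, ← mul_sum]
  rw [sum_comm]
  have e2 : ∀ p : ZMod N × ZMod N, ∑ x, ‖F (U E1 E2 p x)‖ ^ 2 = ∑ x, ‖F x‖ ^ 2 := by
    intro p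
    exact Equiv.sum_comp (U E1 E2 p) (fun x => ‖F x‖ ^ 2)
  simp only [e2, sum_const, card_univ, Fintype.card_prod, ZMod.card, nsmul_eq_mul]
  push_cast
  field_simp

omit [Fintype Om] in
theorem PP_sub (E1 E2 : Equiv.Perm Om) (c : ZMod N × ZMod N) (F G : Om → ℂ) (x : Om) :
    PP E1 E2 c (fun x => F x - G x) x = PP E1 E2 c F x - PP E1 E2 c G x := by
  unfold PP
  rw [← mul_sub, ← sum_sub_distrib]
  congr 1
  exact sum_congr rfl fun p _ => by ring

omit [Fintype Om] in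
/-- effect of a permutation normalising the action -/
theorem PP_comp {E1 E2 : Equiv.Perm Om} (g : Equiv.Perm Om)
    (f : Equiv.Perm (ZMod N × ZMod N)) (hg : ∀ p, g * U E1 E2 p = U E1 E2 (f p) * g)
    (c c' : ZMod N × ZMod N)
    (hc : ∀ p : ZMod N × ZMod N, c.1 * p.1 + c.2 * p.2 = c'.1 * (f p).1 + c'.2 * (f p).2)
    (F : Om → ℂ) (x : Om) :
    PP E1 E2 c (fun x => F (g x)) x = PP E1 E2 c' F (g x) := by
  unfold PP
  congr 1
  rw [← Equiv.sum_comp f (fun p : ZMod N × ZMod N =>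
    (ZMod.stdAddChar (c'.1 * p.1 + c'.2 * p.2) : ℂ) * F (U E1 E2 p (g x)))]
  apply sum_congr rfl
  intro p _
  rw [hc p]
  congr 2
  have := congrArg (fun t : Equiv.Perm Om => t x) (hg p)
  exact congrArg F (by simpa using this)

omit [Fintype Om] in
/-- effect of the action itself -/
theorem PP_U {E1 E2 : Equiv.Perm Om} (r : ZMod N × ZMod N)
    (hU : ∀ p q : ZMod N × ZMod N, U E1 E2 (p + q) = U E1 E2 p * U E1 E2 q)
    (c : ZMod N × ZMod N) (F : Om → ℂ) (x : Om) :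
    PP E1 E2 c (fun x => F (U E1 E2 r x)) x
      = ZMod.stdAddChar (-(c.1 * r.1 + c.2 * r.2)) * PP E1 E2 c F x := by
  unfold PP
  rw [mul_left_comm]
  congr 1
  rw [← Equiv.sum_comp (Equiv.addRight r)
    (fun p : ZMod N × ZMod N => (ZMod.stdAddChar (c.1 * p.1 + c.2 * p.2) : ℂ) * F (U E1 E2 p x)),
    mul_sum]
  apply sum_congr rfl
  intro p _
  rw [← mul_assoc, ← AddChar.map_add_eq_mul]
  congr 2
  · simp only [Equiv.coe_addRight, Prod.fst_add, Prod.snd_add]
    ring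
  · simp only [Equiv.coe_addRight]
    rw [add_comm, hU]
    rfl

end Fourier

theorem avg_eq {Om : Type*} {N : ℕ} [NeZero N] (E1 E2 : Equiv.Perm Om) (H : Om → ℝ) (x : Om) :
    avg N E1 E2 H x = (∑ p : ZMod N × ZMod N, H (U E1 E2 p x)) / (N : ℝ) ^ 2 := by
  unfold avg
  congr 1
  have hs : ∀ f : ℕ → ℝ, ∑ a ∈ range N, f a = ∑ a : ZMod N, f a.val := by
    intro f
    obtain ⟨n, rfl⟩ := Nat.exists_eq_succ_of_ne_zero (NeZero.ne N)
    rw [Finset.sum_range]
    rfl
  rw [hs, Fintype.sum_prod_type]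
  apply sum_congr rfl
  intro a _
  rw [hs]
  rfl

theorem avg_inv1 {Om : Type*} (N : ℕ) (hN : 0 < N) (E1 E2 : Equiv.Perm Om)
    (hcomm : E1 * E2 = E2 * E1) (hE1 : E1 ^ N = 1) (H : Om → ℝ) (x : Om) :
    avg N E1 E2 H (E1 x) = avg N E1 E2 H x := by
  have : NeZero N := ⟨hN.ne'⟩
  have hc : Commute E1 E2 := hcomm
  rw [avg_eq, avg_eq]
  congr 1
  rw [← Equiv.sum_comp (Equiv.addRight ((1, 0) : ZMod N × ZMod N))
    (fun p => H (U E1 E2 p x))]
  apply sum_congr rfl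
  intro p _
  have : U E1 E2 (p + (1, 0)) = U E1 E2 p * E1 := by
    unfold U
    have h1 : (p + ((1, 0) : ZMod N × ZMod N)).1 = p.1 + 1 := rfl
    have h2 : (p + ((1, 0) : ZMod N × ZMod N)).2 = p.2 := by simp
    rw [h1, h2, pow_val_add hE1, pow_val_one hE1, mul_assoc, mul_assoc]
    congr 1
    exact (hc.pow_right _).eq
  simp only [Equiv.coe_addRight]
  rw [this]
  rfl

theorem avg_inv2 {Om : Type*} (N : ℕ) (hN : 0 < N) (E1 E2 : Equiv.Perm Om)
    (hE2 : E2 ^ N = 1) (H : Om → ℝ) (x : Om) :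
    avg N E1 E2 H (E2 x) = avg N E1 E2 H x := by
  have : NeZero N := ⟨hN.ne'⟩
  rw [avg_eq, avg_eq]
  congr 1
  rw [← Equiv.sum_comp (Equiv.addRight ((0, 1) : ZMod N × ZMod N))
    (fun p => H (U E1 E2 p x))]
  apply sum_congr rfl
  intro p _
  have : U E1 E2 (p + (0, 1)) = U E1 E2 p * E2 := by
    unfold U
    have h1 : (p + ((0, 1) : ZMod N × ZMod N)).1 = p.1 := by simp
    have h2 : (p + ((0, 1) : ZMod N × ZMod N)).2 = p.2 + 1 := rfl
    rw [h1, h2, pow_val_add hE2, pow_val_one hE2, mul_assoc]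
  simp only [Equiv.coe_addRight]
  rw [this]
  rfl

theorem inv_U {Om : Type*} {N : ℕ} {E1 E2 : Equiv.Perm Om} {L : Om → ℝ}
    (hL1 : ∀ x, L (E1 x) = L x) (hL2 : ∀ x, L (E2 x) = L x) (p : ZMod N × ZMod N) (x : Om) :
    L (U E1 E2 p x) = L x := by
  have h1 : ∀ (n : ℕ) (y : Om), L ((E1 ^ n) y) = L y := by
    intro n
    induction n with
    | zero => intro y; simp
    | succ n ih => intro y; rw [pow_succ, Equiv.Perm.mul_apply, ih, hL1]
  have h2 : ∀ (n : ℕ) (y : Om), L ((E2 ^ n) y) = L y := by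
    intro n
    induction n with
    | zero => intro y; simp
    | succ n ih => intro y; rw [pow_succ, Equiv.Perm.mul_apply, ih, hL2]
  unfold U
  rw [Equiv.Perm.mul_apply, h1, h2]

theorem avg_of_inv {Om : Type*} (N : ℕ) (hN : 0 < N) (E1 E2 : Equiv.Perm Om) (L : Om → ℝ)
    (hL1 : ∀ x, L (E1 x) = L x) (hL2 : ∀ x, L (E2 x) = L x) (x : Om) :
    avg N E1 E2 L x = L x := by
  have : NeZero N := ⟨hN.ne'⟩
  have hN' : (N : ℝ) ≠ 0 := Nat.cast_ne_zero.2 (NeZero.ne N)
  rw [avg_eq]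
  simp only [inv_U hL1 hL2, sum_const, card_univ, Fintype.card_prod, ZMod.card, nsmul_eq_mul]
  push_cast
  field_simp

theorem avg_sub {Om : Type*} (N : ℕ) (E1 E2 : Equiv.Perm Om) (F G : Om → ℝ) (x : Om) :
    avg N E1 E2 (fun x => F x - G x) x = avg N E1 E2 F x - avg N E1 E2 G x := by
  unfold avg
  rw [← sub_div]
  congr 1
  simp only [sum_sub_distrib]

theorem nrm_avg_le {Om : Type*} [Fintype Om] (N : ℕ) (hN : 0 < N) (E1 E2 : Equiv.Perm Om)
    (F : Om → ℝ) : nrm (avg N E1 E2 F) ≤ nrm F := by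
  have : NeZero N := ⟨hN.ne'⟩
  have hN' : (N : ℝ) ≠ 0 := Nat.cast_ne_zero.2 (NeZero.ne N)
  apply nrm_le_of_sq_le (nrm_nonneg F)
  rw [nrm_sq]
  have h1 : ∀ x, avg N E1 E2 F x ^ 2 ≤ ((N : ℝ) ^ 2)⁻¹ * ∑ p : ZMod N × ZMod N, F (U E1 E2 p x) ^ 2 := by
    intro x
    rw [avg_eq, div_pow]
    have := sq_sum_le_card_mul_sum_sq (s := (univ : Finset (ZMod N × ZMod N)))
      (f := fun p => F (U E1 E2 p x))
    rw [card_univ, Fintype.card_prod, ZMod.card] at this
    push_cast at this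
    rw [div_le_iff₀ (by positivity)]
    calc (∑ p : ZMod N × ZMod N, F (U E1 E2 p x)) ^ 2
        ≤ (N : ℝ) * N * ∑ p : ZMod N × ZMod N, F (U E1 E2 p x) ^ 2 := this
      _ = _ := by field_simp
  calc ∑ x, avg N E1 E2 F x ^ 2
      ≤ ∑ x, ((N : ℝ) ^ 2)⁻¹ * ∑ p : ZMod N × ZMod N, F (U E1 E2 p x) ^ 2 :=
        sum_le_sum fun x _ => h1 x
    _ = ∑ x, F x ^ 2 := by
        rw [← mul_sum, sum_comm]
        have e2 : ∀ p : ZMod N × ZMod N, ∑ x, F (U E1 E2 p x) ^ 2 = ∑ x, F x ^ 2 := by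
          intro p
          exact Equiv.sum_comp (U E1 E2 p) (fun x => F x ^ 2)
        simp only [e2, sum_const, card_univ, Fintype.card_prod, ZMod.card, nsmul_eq_mul]
        push_cast
        field_simp

theorem avg_best {Om : Type*} [Fintype Om] (N : ℕ) (hN : 0 < N) (E1 E2 : Equiv.Perm Om)
    (K L : Om → ℝ) (hL1 : ∀ x, L (E1 x) = L x) (hL2 : ∀ x, L (E2 x) = L x) :
    nrm (fun x => K x - avg N E1 E2 K x) ≤ 2 * nrm (fun x => K x - L x) := by
  have e : (fun x => K x - avg N E1 E2 K x)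
      = fun x => (fun x => K x - L x) x - avg N E1 E2 (fun x => K x - L x) x := by
    funext x
    rw [avg_sub, avg_of_inv N hN E1 E2 L hL1 hL2]
    ring
  rw [e]
  calc _ ≤ nrm (fun x => K x - L x) + nrm (avg N E1 E2 (fun x => K x - L x)) := nrm_sub_le _ _
    _ ≤ _ := by
      have := nrm_avg_le N hN E1 E2 (fun x => K x - L x)
      linarith

theorem relT {Om : Type*} [Fintype Om] (N : ℕ) (hN : 0 < N)
    (E1 E2 S1 S2 : Equiv.Perm Om)
    (hcomm : E1 * E2 = E2 * E1) (hE1 : E1 ^ N = 1) (hE2 : E2 ^ N = 1)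
    (h11 : S1 * E1 = E1 * S1) (h12 : S1 * E2 = E1 * E2 * S1)
    (h22 : S2 * E2 = E2 * S2) (h21 : S2 * E1 = E1 * E2 * S2)
    (H : Om → ℝ) (e : ℝ)
    (hH1 : nrm (fun x => H (E1 x) - H x) ≤ e) (hH2 : nrm (fun x => H (E2 x) - H x) ≤ e)
    (hH3 : nrm (fun x => H (S1 x) - H x) ≤ e) (hH4 : nrm (fun x => H (S2 x) - H x) ≤ e) :
    nrm (fun x => H x - avg N E1 E2 H x) ≤ 8 * e := by
  have : NeZero N := ⟨hN.ne'⟩
  have hN' : (N : ℝ) ≠ 0 := Nat.cast_ne_zero.2 (NeZero.ne N)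
  have he : 0 ≤ e := (nrm_nonneg _).trans hH1
  have hU := U_add (N := N) hcomm hE1 hE2
  -- complexification
  let C : (Om → ℝ) → (Om → ℂ) := fun F x => (F x : ℂ)
  have hC : ∀ F : Om → ℝ, cn (C F) ^ 2 = nrm F ^ 2 := by
    intro F
    rw [cn_sq, nrm_sq]
    exact sum_congr rfl fun x _ => by simp [C]
  let h : ZMod N × ZMod N → ℝ := fun c => cn (PP E1 E2 c (C H))
  -- shears
  have hA : ∑ c, (h (Sector.eA N c) - h c) ^ 2 ≤ e ^ 2 := by
    have step : ∀ c : ZMod N × ZMod N, (h (Sector.eA N c) - h c) ^ 2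
        ≤ cn (PP E1 E2 (Sector.eA N c) (C (fun x => H (S2 x) - H x))) ^ 2 := by
      intro c
      have hcomp : h c = cn (PP E1 E2 (Sector.eA N c) (fun x => C H (S2 x))) := by
        have : PP E1 E2 (Sector.eA N c) (fun x => C H (S2 x)) = fun x => PP E1 E2 c (C H) (S2 x) := by
          funext x
          refine PP_comp S2 (Sector.eB N) ?_ _ _ ?_ (C H) x
          · intro p
            exact S2_U hcomm hE2 h22 h21 p
          · intro p
            simp only [Sector.eA, Sector.eB, Equiv.coe_fn_mk]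
            ring
        rw [this, cn_comp]
      rw [hcomp]
      have h2 := cn_sub_sq (PP E1 E2 (Sector.eA N c) (fun x => C H (S2 x)))
        (PP E1 E2 (Sector.eA N c) (C H))
      have h3 : (fun x => PP E1 E2 (Sector.eA N c) (fun x => C H (S2 x)) x
          - PP E1 E2 (Sector.eA N c) (C H) x)
          = PP E1 E2 (Sector.eA N c) (C (fun x => H (S2 x) - H x)) := by
        funext x
        rw [← PP_sub]
        congr 1
        funext y
        simp [C]
      rw [h3] at h2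
      rw [sub_sq_comm]
      exact h2
    calc ∑ c, (h (Sector.eA N c) - h c) ^ 2
        ≤ ∑ c, cn (PP E1 E2 (Sector.eA N c) (C (fun x => H (S2 x) - H x))) ^ 2 :=
          sum_le_sum fun c _ => step c
      _ = ∑ c : ZMod N × ZMod N, cn (PP E1 E2 c (C (fun x => H (S2 x) - H x))) ^ 2 :=
          Equiv.sum_comp (Sector.eA N) (fun c => cn (PP E1 E2 c (C (fun x => H (S2 x) - H x))) ^ 2)
      _ = nrm (fun x => H (S2 x) - H x) ^ 2 := by rw [PP_parseval, hC]
      _ ≤ e ^ 2 := pow_le_pow_left₀ (nrm_nonneg _) hH4 2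
  have hB : ∑ c, (h (Sector.eB N c) - h c) ^ 2 ≤ e ^ 2 := by
    have step : ∀ c : ZMod N × ZMod N, (h (Sector.eB N c) - h c) ^ 2
        ≤ cn (PP E1 E2 (Sector.eB N c) (C (fun x => H (S1 x) - H x))) ^ 2 := by
      intro c
      have hcomp : h c = cn (PP E1 E2 (Sector.eB N c) (fun x => C H (S1 x))) := by
        have : PP E1 E2 (Sector.eB N c) (fun x => C H (S1 x)) = fun x => PP E1 E2 c (C H) (S1 x) := by
          funext x
          refine PP_comp S1 (Sector.eA N) ?_ _ _ ?_ (C H) x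
          · intro p
            exact S1_U hcomm hE1 h11 h12 p
          · intro p
            simp only [Sector.eA, Sector.eB, Equiv.coe_fn_mk]
            ring
        rw [this, cn_comp]
      rw [hcomp]
      have h2 := cn_sub_sq (PP E1 E2 (Sector.eB N c) (fun x => C H (S1 x)))
        (PP E1 E2 (Sector.eB N c) (C H))
      have h3 : (fun x => PP E1 E2 (Sector.eB N c) (fun x => C H (S1 x)) x
          - PP E1 E2 (Sector.eB N c) (C H) x)
          = PP E1 E2 (Sector.eB N c) (C (fun x => H (S1 x) - H x)) := by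
        funext x
        rw [← PP_sub]
        congr 1
        funext y
        simp [C]
      rw [h3] at h2
      rw [sub_sq_comm]
      exact h2
    calc ∑ c, (h (Sector.eB N c) - h c) ^ 2
        ≤ ∑ c, cn (PP E1 E2 (Sector.eB N c) (C (fun x => H (S1 x) - H x))) ^ 2 :=
          sum_le_sum fun c _ => step c
      _ = ∑ c : ZMod N × ZMod N, cn (PP E1 E2 c (C (fun x => H (S1 x) - H x))) ^ 2 :=
          Equiv.sum_comp (Sector.eB N) (fun c => cn (PP E1 E2 c (C (fun x => H (S1 x) - H x))) ^ 2)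
      _ = nrm (fun x => H (S1 x) - H x) ^ 2 := by rw [PP_parseval, hC]
      _ ≤ e ^ 2 := pow_le_pow_left₀ (nrm_nonneg _) hH3 2
  -- translations
  have hT : ∀ (r : ZMod N × ZMod N) (c : ZMod N × ZMod N),
      ‖(ZMod.stdAddChar (c.1 * r.1 + c.2 * r.2) : ℂ) - 1‖ ^ 2 * h c ^ 2
        = cn (PP E1 E2 c (C (fun x => H (U E1 E2 r x) - H x))) ^ 2 := by
    intro r c
    have h3 : PP E1 E2 c (C (fun x => H (U E1 E2 r x) - H x))
        = fun x => ((ZMod.stdAddChar (-(c.1 * r.1 + c.2 * r.2)) : ℂ) - 1) * PP E1 E2 c (C H) x := by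
      funext x
      have e1 : C (fun x => H (U E1 E2 r x) - H x) = fun x => (fun y => C H (U E1 E2 r y)) x - C H x := by
        funext y
        simp [C]
      rw [e1, PP_sub, PP_U r hU]
      ring
    have h4 : ‖(ZMod.stdAddChar (-(c.1 * r.1 + c.2 * r.2)) : ℂ) - 1‖
        = ‖(ZMod.stdAddChar (c.1 * r.1 + c.2 * r.2) : ℂ) - 1‖ := by
      rw [AddChar.map_neg_eq_conj]
      have : (starRingEnd ℂ) (ZMod.stdAddChar (c.1 * r.1 + c.2 * r.2) : ℂ) - 1
          = (starRingEnd ℂ) ((ZMod.stdAddChar (c.1 * r.1 + c.2 * r.2) : ℂ) - 1) := by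
        simp
      rw [this, Complex.norm_conj]
    rw [h3, cn_mul, h4]
  have hT1 : ∑ c : ZMod N × ZMod N, ‖(ZMod.stdAddChar c.1 : ℂ) - 1‖ ^ 2 * h c ^ 2 ≤ e ^ 2 := by
    have : ∀ c : ZMod N × ZMod N, ‖(ZMod.stdAddChar c.1 : ℂ) - 1‖ ^ 2 * h c ^ 2
        = cn (PP E1 E2 c (C (fun x => H (E1 x) - H x))) ^ 2 := by
      intro c
      have := hT (1, 0) c
      rw [U_one_zero hE1] at this
      simpa using this
    simp only [this]
    rw [PP_parseval, hC]
    exact pow_le_pow_left₀ (nrm_nonneg _) hH1 2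
  have hT2 : ∑ c : ZMod N × ZMod N, ‖(ZMod.stdAddChar c.2 : ℂ) - 1‖ ^ 2 * h c ^ 2 ≤ e ^ 2 := by
    have : ∀ c : ZMod N × ZMod N, ‖(ZMod.stdAddChar c.2 : ℂ) - 1‖ ^ 2 * h c ^ 2
        = cn (PP E1 E2 c (C (fun x => H (E2 x) - H x))) ^ 2 := by
      intro c
      have := hT (0, 1) c
      rw [U_zero_one hE2] at this
      simpa using this
    simp only [this]
    rw [PP_parseval, hC]
    exact pow_le_pow_left₀ (nrm_nonneg _) hH2 2
  have main := Sector.sector h e hA hB hT1 hT2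
  -- components of the average
  have inv1 : ∀ x, avg N E1 E2 H (E1 x) = avg N E1 E2 H x := avg_inv1 N hN E1 E2 hcomm hE1 H
  have inv2 : ∀ x, avg N E1 E2 H (E2 x) = avg N E1 E2 H x := avg_inv2 N hN E1 E2 hE2 H
  have hcomp : ∀ c : ZMod N × ZMod N,
      cn (PP E1 E2 c (C (fun x => H x - avg N E1 E2 H x))) ^ 2 = if c = 0 then 0 else h c ^ 2 := by
    intro c
    have e1 : C (fun x => H x - avg N E1 E2 H x) = fun x => C H x - C (avg N E1 E2 H) x := by
      funext y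
      simp [C]
    have e2 : ∀ x, PP E1 E2 c (C (avg N E1 E2 H)) x = if c = 0 then C (avg N E1 E2 H) x else 0 := by
      intro x
      unfold PP
      have : ∀ p : ZMod N × ZMod N, C (avg N E1 E2 H) (U E1 E2 p x) = C (avg N E1 E2 H) x := by
        intro p
        simp only [C]
        rw [inv_U inv1 inv2]
      simp only [this, ← sum_mul]
      have hs : ∑ p : ZMod N × ZMod N, (ZMod.stdAddChar (c.1 * p.1 + c.2 * p.2) : ℂ)
          = if c = 0 then (N : ℂ) ^ 2 else 0 := by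
        rw [← char_sum c]
        exact sum_congr rfl fun p _ => by rw [mul_comm c.1, mul_comm c.2]
      rw [hs]
      have hNc : (N : ℂ) ≠ 0 := Nat.cast_ne_zero.2 (NeZero.ne N)
      split_ifs
      · field_simp
      · simp
    have e3 : ∀ x, c = 0 → PP E1 E2 c (C H) x = C (avg N E1 E2 H) x := by
      intro x hc
      subst hc
      unfold PP
      simp only [C, avg_eq]
      push_cast
      simp [div_eq_inv_mul]
    have e4 : PP E1 E2 c (C (fun x => H x - avg N E1 E2 H x))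
        = if c = 0 then (fun _ => 0) else PP E1 E2 c (C H) := by
      rw [e1]
      funext x
      rw [PP_sub, e2]
      split_ifs with hc
      · rw [e3 x hc]
        simp
      · simp
    rw [e4]
    split_ifs with hc
    · rw [cn_sq]
      simp
    · rfl
  have total : nrm (fun x => H x - avg N E1 E2 H x) ^ 2 ≤ 27 * e ^ 2 := by
    rw [← hC, ← PP_parseval (N := N) E1 E2]
    simp only [hcomp]
    exact main
  have : nrm (fun x => H x - avg N E1 E2 H x) ^ 2 ≤ (8 * e) ^ 2 := by nlinarith [sq_nonneg e]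
  exact (sq_le_sq₀ (nrm_nonneg _) (by positivity)).1 this

end L2LP
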