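import Pool.Agent.Helper44.LP.Basic

/-!
# Telescoping lemma (Lemma 3 of the paper proof)
-/

namespace L2LP

open Finset

section weighted

variable {Om : Type*} [Fintype Om]

theorem nrm_abs (f : Om → ℝ) : nrm (fun x => |f x|) = nrm f := by
  unfold nrm
  congr 1
  exact Finset.sum_congr rfl fun x _ => sq_abs _

/-- weighted l2 norm -/
noncomputable def wn (w f : Om → ℝ) : ℝ := nrm (fun x => Real.sqrt (w x) * f x)

theorem wn_nonneg (w f : Om → ℝ) : 0 ≤ wn w f := nrm_nonneg _

theorem wn_sq {w : Om → ℝ} (hw : ∀ x, 0 ≤ w x) (f : Om → ℝ) :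
    wn w f ^ 2 = ∑ x, w x * f x ^ 2 := by
  unfold wn
  rw [nrm_sq]
  refine Finset.sum_congr rfl fun x _ => ?_
  rw [mul_pow, Real.sq_sqrt (hw x)]

theorem wn_le_nrm {w : Om → ℝ} (hw1 : ∀ x, w x ≤ 1) (f : Om → ℝ) :
    wn w f ≤ nrm f := by
  unfold wn
  apply nrm_mono
  intro x
  rw [abs_mul, abs_of_nonneg (Real.sqrt_nonneg _)]
  have h1 : Real.sqrt (w x) ≤ 1 := by
    rw [← Real.sqrt_one]
    exact Real.sqrt_le_sqrt (hw1 x)
  exact mul_le_of_le_one_left (abs_nonneg _) h1

theorem wn_le_add {w : Om → ℝ} (hw1 : ∀ x, w x ≤ 1) (f g : Om → ℝ) :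
    wn w f ≤ wn w g + nrm (fun x => f x - g x) := by
  have h1 : wn w f ≤ wn w g + wn w (fun x => f x - g x) := by
    unfold wn
    have h := nrm_le_add_sub (fun x => Real.sqrt (w x) * f x) (fun x => Real.sqrt (w x) * g x)
    refine h.trans (le_of_eq ?_)
    congr 2
    funext x
    ring
  have h2 := wn_le_nrm hw1 (fun x => f x - g x)
  linarith

theorem wn_mono {w : Om → ℝ} {f g : Om → ℝ} (h : ∀ x, |f x| ≤ |g x|) :
    wn w f ≤ wn w g := by
  unfold wn
  apply nrm_mono
  intro x
  rw [abs_mul, abs_mul]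
  exact mul_le_mul_of_nonneg_left (h x) (abs_nonneg _)

theorem nrm_mul_le_wn {w : Om → ℝ} (hw0 : ∀ x, 0 ≤ w x) (hw1 : ∀ x, w x ≤ 1) (f : Om → ℝ) :
    nrm (fun x => w x * f x) ≤ wn w f := by
  unfold wn
  apply nrm_mono
  intro x
  rw [abs_mul, abs_mul, abs_of_nonneg (Real.sqrt_nonneg _), abs_of_nonneg (hw0 x)]
  apply mul_le_mul_of_nonneg_right _ (abs_nonneg _)
  have h := Real.sqrt_le_sqrt (hw1 x)
  rw [Real.sqrt_one] at h
  calc w x = Real.sqrt (w x) * Real.sqrt (w x) := (Real.mul_self_sqrt (hw0 x)).symm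
    _ ≤ Real.sqrt (w x) * 1 := mul_le_mul_of_nonneg_left h (Real.sqrt_nonneg _)
    _ = Real.sqrt (w x) := mul_one _

end weighted

theorem telescope {Om : Type*} [Fintype Om] (m : ℕ) (tau : Om → Om)
    (htau : Function.Involutive tau)
    (th thp thm ze : ℕ → Om → ℝ) (eps : ℕ → ℝ) (Inv : (Om → ℝ) → Prop)
    (P : (Om → ℝ) → (Om → ℝ))
    (heps0 : ∀ r, 0 < eps r) (heps1 : ∀ r, eps r ≤ 1)
    (hsum : ∑ r ∈ range m, eps r ≤ 1 / 20000)
    (hth : ∀ r x, 0 ≤ th r x ∧ th r x ≤ 1)
    (hthp : ∀ r x, 0 ≤ thp r x ∧ thp r x ≤ 1)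
    (hthm : ∀ r x, 0 ≤ thm r x ∧ thm r x ≤ 1)
    (h1 : ∀ r, r + 1 < m → ∀ x, thm (r + 1) x = thp r (tau x))
    (h2 : ∀ r, r < m → ∀ x, ze r (tau x) = ze r x)
    (h2' : ∀ r, r < m → ∀ x, |th r x - ze r x| ≤ eps r / 2 * (thp r x + thm r x))
    (h3p : ∀ r, r < m → ∀ L, Inv L → ∑ x, thp r x * L x ^ 2 = ∑ x, th r x * L x ^ 2)
    (h3m : ∀ r, r < m → ∀ L, Inv L → ∑ x, thm r x * L x ^ 2 = ∑ x, th r x * L x ^ 2)
    (h4p : ∀ r, r < m → ∀ L, Inv L →
      ∑ x, (thp r x - th r x) ^ 2 * L x ^ 2 ≤ eps r ^ 3 * ∑ x, th r x * L x ^ 2)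
    (h4m : ∀ r, r < m → ∀ L, Inv L →
      ∑ x, (thm r x - th r x) ^ 2 * L x ^ 2 ≤ eps r ^ 3 * ∑ x, th r x * L x ^ 2)
    (hP : ∀ K, Inv (P K))
    (hPbest : ∀ K L, Inv L → nrm (fun x => K x - P K x) ≤ 2 * nrm (fun x => K x - L x))
    (H : Om → ℝ) (A : ℝ) (hA : 0 ≤ A)
    (hH1 : nrm (fun x => H x - P H x) ≤ A)
    (hH2 : nrm (fun x => H (tau x) - H x) ≤ A)
    (hH3 : ∑ x, th 0 x * H x ^ 2 ≤ A ^ 2) :
    ∀ r, r < m → ∑ x, th r x * H x ^ 2 ≤ (7 * A) ^ 2 := by
  classical
  intro r1 hr1
  have hm : 0 < m := by omega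
  -- the permutation tau
  let te : Equiv.Perm Om := htau.toPerm tau
  have hte : ∀ x, te x = tau x := fun x => rfl
  set Hb : Om → ℝ := P H with hHb
  have hInvHb : Inv Hb := hP H
  -- maximal level
  obtain ⟨r0, hr0, hmax⟩ := Finset.exists_max_image (range m) (fun r => wn (th r) Hb)
    ⟨0, Finset.mem_range.mpr hm⟩
  rw [Finset.mem_range] at hr0
  set M : ℝ := wn (th r0) Hb with hM
  have hM0 : 0 ≤ M := wn_nonneg _ _
  have hMr : ∀ r, r < m → wn (th r) Hb ≤ M := fun r hr => hmax r (Finset.mem_range.mpr hr)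
  have hMp : ∀ r, r < m → wn (thp r) Hb ≤ M := by
    intro r hr
    have e : wn (thp r) Hb ^ 2 = wn (th r) Hb ^ 2 := by
      rw [wn_sq (fun x => (hthp r x).1), wn_sq (fun x => (hth r x).1), h3p r hr Hb hInvHb]
    have e2 := (pow_left_inj₀ (wn_nonneg _ _) (wn_nonneg _ _) two_ne_zero).mp e
    rw [e2]; exact hMr r hr
  have hMm : ∀ r, r < m → wn (thm r) Hb ≤ M := by
    intro r hr
    have e : wn (thm r) Hb ^ 2 = wn (th r) Hb ^ 2 := by
      rw [wn_sq (fun x => (hthm r x).1), wn_sq (fun x => (hth r x).1), h3m r hr Hb hInvHb]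
    have e2 := (pow_left_inj₀ (wn_nonneg _ _) (wn_nonneg _ _) two_ne_zero).mp e
    rw [e2]; exact hMr r hr
  have hHr : ∀ r, r < m → wn (th r) H ≤ M + A := fun r hr =>
    (wn_le_add (fun x => (hth r x).2) H Hb).trans (add_le_add (hMr r hr) hH1)
  have hHp : ∀ r, r < m → wn (thp r) H ≤ M + A := fun r hr =>
    (wn_le_add (fun x => (hthp r x).2) H Hb).trans (add_le_add (hMp r hr) hH1)
  have hHm : ∀ r, r < m → wn (thm r) H ≤ M + A := fun r hr =>
    (wn_le_add (fun x => (hthm r x).2) H Hb).trans (add_le_add (hMm r hr) hH1)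
  -- the bad set
  let Bd : Om → Prop := fun x => ∃ r, r < m ∧ (eps r < |thp r x - th r x| ∨ eps r < |thm r x - th r x|)
  let ind : Om → ℝ := fun x => if Bd x then 1 else 0
  have hind1 : ∀ x, |ind x| ≤ 1 := by
    intro x; simp only [ind]; split_ifs <;> simp
  have hbadHb : nrm (fun x => ind x * Hb x) ≤ M / 100 := by
    apply nrm_le_of_sq_le (by positivity)
    have hpt : ∀ x, (ind x * Hb x) ^ 2 ≤ ∑ r ∈ range m,
        (((thp r x - th r x) ^ 2 * Hb x ^ 2) / eps r ^ 2 + ((thm r x - th r x) ^ 2 * Hb x ^ 2) / eps r ^ 2) := by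
      intro x
      have hnn : ∀ r ∈ range m, 0 ≤ (((thp r x - th r x) ^ 2 * Hb x ^ 2) / eps r ^ 2 +
          ((thm r x - th r x) ^ 2 * Hb x ^ 2) / eps r ^ 2) := fun r _ => by positivity
      by_cases hb : Bd x
      · obtain ⟨r, hr, hor⟩ := hb
        have hb : Bd x := ⟨r, hr, hor⟩
        have hi : ind x = 1 := by simp only [ind]; rw [if_pos hb]
        rw [hi, one_mul]
        refine le_trans ?_ (Finset.single_le_sum hnn (Finset.mem_range.mpr hr))
        have he := heps0 r
        rcases hor with h | h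
        · have h4 : eps r ^ 2 ≤ (thp r x - th r x) ^ 2 := by
            rw [← sq_abs (thp r x - th r x)]
            exact pow_le_pow_left₀ he.le h.le 2
          have h5 : Hb x ^ 2 ≤ ((thp r x - th r x) ^ 2 * Hb x ^ 2) / eps r ^ 2 := by
            rw [le_div_iff₀ (by positivity), mul_comm]
            exact mul_le_mul_of_nonneg_right h4 (sq_nonneg _)
          have h6 : 0 ≤ ((thm r x - th r x) ^ 2 * Hb x ^ 2) / eps r ^ 2 := by positivity
          linarith
        · have h4 : eps r ^ 2 ≤ (thm r x - th r x) ^ 2 := by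
            rw [← sq_abs (thm r x - th r x)]
            exact pow_le_pow_left₀ he.le h.le 2
          have h5 : Hb x ^ 2 ≤ ((thm r x - th r x) ^ 2 * Hb x ^ 2) / eps r ^ 2 := by
            rw [le_div_iff₀ (by positivity), mul_comm]
            exact mul_le_mul_of_nonneg_right h4 (sq_nonneg _)
          have h6 : 0 ≤ ((thp r x - th r x) ^ 2 * Hb x ^ 2) / eps r ^ 2 := by positivity
          linarith
      · have hi : ind x = 0 := by simp only [ind]; rw [if_neg hb]
        rw [hi, zero_mul]
        have := Finset.sum_nonneg hnn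
        simpa using this
    calc ∑ x, (ind x * Hb x) ^ 2
        ≤ ∑ x, ∑ r ∈ range m,
        (((thp r x - th r x) ^ 2 * Hb x ^ 2) / eps r ^ 2 + ((thm r x - th r x) ^ 2 * Hb x ^ 2) / eps r ^ 2) :=
          Finset.sum_le_sum fun x _ => hpt x
      _ = ∑ r ∈ range m, ((∑ x, (thp r x - th r x) ^ 2 * Hb x ^ 2) / eps r ^ 2 +
            (∑ x, (thm r x - th r x) ^ 2 * Hb x ^ 2) / eps r ^ 2) := by
          rw [Finset.sum_comm]
          refine Finset.sum_congr rfl fun r _ => ?_
          rw [Finset.sum_add_distrib, Finset.sum_div, Finset.sum_div]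
      _ ≤ ∑ r ∈ range m, (2 * M ^ 2) * eps r := by
          apply Finset.sum_le_sum
          intro r hr
          rw [Finset.mem_range] at hr
          have he := heps0 r
          have hM2 : ∑ x, th r x * Hb x ^ 2 ≤ M ^ 2 := by
            rw [← wn_sq (fun x => (hth r x).1)]
            exact pow_le_pow_left₀ (wn_nonneg _ _) (hMr r hr) 2
          have ha : (∑ x, (thp r x - th r x) ^ 2 * Hb x ^ 2) / eps r ^ 2 ≤ M ^ 2 * eps r := by
            rw [div_le_iff₀ (by positivity)]
            have := h4p r hr Hb hInvHb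
            have h7 : eps r ^ 3 * ∑ x, th r x * Hb x ^ 2 ≤ eps r ^ 3 * M ^ 2 :=
              mul_le_mul_of_nonneg_left hM2 (by positivity)
            calc _ ≤ _ := this
              _ ≤ _ := h7
              _ = M ^ 2 * eps r * eps r ^ 2 := by ring
          have hb : (∑ x, (thm r x - th r x) ^ 2 * Hb x ^ 2) / eps r ^ 2 ≤ M ^ 2 * eps r := by
            rw [div_le_iff₀ (by positivity)]
            have := h4m r hr Hb hInvHb
            have h7 : eps r ^ 3 * ∑ x, th r x * Hb x ^ 2 ≤ eps r ^ 3 * M ^ 2 :=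
              mul_le_mul_of_nonneg_left hM2 (by positivity)
            calc _ ≤ _ := this
              _ ≤ _ := h7
              _ = M ^ 2 * eps r * eps r ^ 2 := by ring
          linarith
      _ = (2 * M ^ 2) * ∑ r ∈ range m, eps r := by rw [Finset.mul_sum]
      _ ≤ (2 * M ^ 2) * (1 / 20000) := mul_le_mul_of_nonneg_left hsum (by positivity)
      _ = (M / 100) ^ 2 := by ring
  have hbadH : nrm (fun x => ind x * H x) ≤ M / 100 + A := by
    have h := nrm_le_add_sub (fun x => ind x * H x) (fun x => ind x * Hb x)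
    have h' : nrm (fun x => ind x * H x - ind x * Hb x) ≤ nrm (fun x => H x - Hb x) := by
      apply nrm_mono
      intro x
      rw [← mul_sub, abs_mul]
      exact mul_le_of_le_one_left (abs_nonneg _) (hind1 x)
    linarith
  have hbadH' : nrm (fun x => ind (tau x) * H x) ≤ M / 100 + 2 * A := by
    have e : nrm (fun x => ind (tau x) * H x) = nrm (fun x => ind x * H (tau x)) := by
      have := nrm_comp te (fun x => ind x * H (tau x))
      rw [← this]
      congr 1
      funext x
      simp only [hte]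
      rw [htau x]
    rw [e]
    have h := nrm_le_add_sub (fun x => ind x * H (tau x)) (fun x => ind x * H x)
    have h' : nrm (fun x => ind x * H (tau x) - ind x * H x) ≤ nrm (fun x => H (tau x) - H x) := by
      apply nrm_mono
      intro x
      rw [← mul_sub, abs_mul]
      exact mul_le_of_le_one_left (abs_nonneg _) (hind1 x)
    linarith
  -- the good part
  let good : Om → Prop := fun x => ¬ Bd x ∧ ¬ Bd (tau x)
  have hgoodtau : ∀ x, good (tau x) ↔ good x := by
    intro x; simp only [good, htau x]; tauto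
  set K : Om → ℝ := fun x => if good x then H x else 0 with hK
  have hKH : ∀ x, |K x| ≤ |H x| := by
    intro x; simp only [hK]; split_ifs <;> simp
  set b : ℝ := M / 50 + 3 * A with hb
  have hHK : nrm (fun x => H x - K x) ≤ b := by
    have h : nrm (fun x => H x - K x) ≤ nrm (fun x => |ind x * H x| + |ind (tau x) * H x|) := by
      apply nrm_mono
      intro x
      rw [abs_of_nonneg (by positivity : 0 ≤ |ind x * H x| + |ind (tau x) * H x|)]
      by_cases hg : good x
      · have : H x - K x = 0 := by simp only [hK]; rw [if_pos hg]; ring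
        rw [this, abs_zero]; positivity
      · have e : H x - K x = H x := by simp only [hK]; rw [if_neg hg]; ring
        rw [e]
        have : Bd x ∨ Bd (tau x) := by
          by_contra hcon
          push Not at hcon
          exact hg hcon
        rcases this with h | h
        · have : ind x = 1 := by simp only [ind]; rw [if_pos h]
          rw [this, one_mul]
          linarith [abs_nonneg (ind (tau x) * H x)]
        · have : ind (tau x) = 1 := by simp only [ind]; rw [if_pos h]
          rw [this, one_mul]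
          linarith [abs_nonneg (ind x * H x)]
    have h2 := nrm_add_le (fun x => |ind x * H x|) (fun x => |ind (tau x) * H x|)
    have e1 : nrm (fun x => |ind x * H x|) = nrm (fun x => ind x * H x) := nrm_abs _
    have e2 : nrm (fun x => |ind (tau x) * H x|) = nrm (fun x => ind (tau x) * H x) := nrm_abs _
    rw [e1, e2] at h2
    have : b = (M / 100 + A) + (M / 100 + 2 * A) := by rw [hb]; ring
    linarith
  set u : Om → ℝ := fun x => K (tau x) - K x with hu
  have hu_eq : ∀ x, u x = if good x then H (tau x) - H x else 0 := by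
    intro x
    simp only [hu, hK]
    by_cases hg : good x
    · rw [if_pos ((hgoodtau x).mpr hg), if_pos hg, if_pos hg]
    · rw [if_neg (fun h => hg ((hgoodtau x).mp h)), if_neg hg, if_neg hg]; ring
  have hu_le : nrm u ≤ A := by
    refine le_trans (nrm_mono ?_) hH2
    intro x
    rw [hu_eq x]
    split_ifs <;> simp
  set Kb : Om → ℝ := P K with hKb
  have hInvKb : Inv Kb := hP K
  set k : Om → ℝ := fun x => K x - Kb x with hk
  set kap : ℝ := 2 * (b + A) with hkap
  have hk_le : nrm k ≤ kap := by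
    have h := hPbest K Hb hInvHb
    have h2 : nrm (fun x => K x - Hb x) ≤ nrm (fun x => K x - H x) + nrm (fun x => H x - Hb x) := by
      have := nrm_add_le (fun x => K x - H x) (fun x => H x - Hb x)
      simpa using this
    rw [nrm_sub_comm K H] at h2
    have h3 : nrm k ≤ 2 * nrm (fun x => K x - Hb x) := h
    rw [hkap]
    linarith
  have hkap0 : 0 ≤ kap := (nrm_nonneg _).trans hk_le
  set a' : ℝ := M + A + kap with ha'
  have ha'0 : 0 ≤ a' := by positivity
  have hKbr : ∀ r, r < m → wn (th r) Kb ≤ a' := by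
    intro r hr
    have h := wn_le_add (fun x => (hth r x).2) Kb K
    rw [nrm_sub_comm Kb K] at h
    have h2 : wn (th r) K ≤ M + A := (wn_mono hKH).trans (hHr r hr)
    have h3 : nrm (fun x => K x - Kb x) ≤ kap := hk_le
    rw [ha']
    linarith
  have phiKb : ∀ r, r < m → ∀ w : Om → ℝ,
      (∑ x, (w x - th r x) ^ 2 * Kb x ^ 2 ≤ eps r ^ 3 * ∑ x, th r x * Kb x ^ 2) →
      nrm (fun x => (w x - th r x) * Kb x) ≤ eps r * a' := by
    intro r hr w hw
    have he := heps0 r
    apply nrm_le_of_sq_le (by positivity)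
    have h5 : ∑ x, th r x * Kb x ^ 2 ≤ a' ^ 2 := by
      rw [← wn_sq (fun x => (hth r x).1)]
      exact pow_le_pow_left₀ (wn_nonneg _ _) (hKbr r hr) 2
    have h6 : eps r ^ 3 ≤ eps r ^ 2 := pow_le_pow_of_le_one he.le (heps1 r) (by norm_num)
    calc ∑ x, ((w x - th r x) * Kb x) ^ 2 = ∑ x, (w x - th r x) ^ 2 * Kb x ^ 2 :=
          Finset.sum_congr rfl fun x _ => by ring
      _ ≤ eps r ^ 3 * ∑ x, th r x * Kb x ^ 2 := hw
      _ ≤ eps r ^ 3 * a' ^ 2 := mul_le_mul_of_nonneg_left h5 (by positivity)
      _ ≤ eps r ^ 2 * a' ^ 2 := mul_le_mul_of_nonneg_right h6 (by positivity)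
      _ = (eps r * a') ^ 2 := by ring
  have phiK : ∀ r, r < m → ∀ w : Om → ℝ, (∀ x, good x → |w x - th r x| ≤ eps r) →
      nrm (fun x => (w x - th r x) * Kb x) ≤ eps r * a' →
      nrm (fun x => (w x - th r x) * K x) ≤ eps r * (a' + kap) := by
    intro r hr w hw hwb
    have he := heps0 r
    have h : nrm (fun x => (w x - th r x) * K x) ≤
        nrm (fun x => |(w x - th r x) * Kb x| + eps r * |k x|) := by
      apply nrm_mono
      intro x
      rw [abs_of_nonneg (by positivity : 0 ≤ |(w x - th r x) * Kb x| + eps r * |k x|)]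
      by_cases hg : good x
      · have e : (w x - th r x) * K x = (w x - th r x) * Kb x + (w x - th r x) * k x := by
          simp only [hk]; ring
        rw [e]
        refine (abs_add_le _ _).trans ?_
        have : |(w x - th r x) * k x| ≤ eps r * |k x| := by
          rw [abs_mul]
          exact mul_le_mul_of_nonneg_right (hw x hg) (abs_nonneg _)
        linarith
      · have e : K x = 0 := by simp only [hK]; rw [if_neg hg]
        rw [e, mul_zero, abs_zero]; positivity
    have h2 := nrm_add_le (fun x => |(w x - th r x) * Kb x|) (fun x => eps r * |k x|)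
    have e1 : nrm (fun x => |(w x - th r x) * Kb x|) = nrm (fun x => (w x - th r x) * Kb x) :=
      nrm_abs _
    have e2 : nrm (fun x => eps r * |k x|) = eps r * nrm k := by
      rw [nrm_const_mul, abs_of_pos he, nrm_abs]
    rw [e1, e2] at h2
    have h3 : eps r * nrm k ≤ eps r * kap := mul_le_mul_of_nonneg_left hk_le he.le
    have h4 : eps r * (a' + kap) = eps r * a' + eps r * kap := by ring
    linarith
  have goodp : ∀ r, r < m → ∀ x, good x → |thp r x - th r x| ≤ eps r := by
    intro r hr x hg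
    by_contra hcon
    push Not at hcon
    exact hg.1 ⟨r, hr, Or.inl hcon⟩
  have goodm : ∀ r, r < m → ∀ x, good x → |thm r x - th r x| ≤ eps r := by
    intro r hr x hg
    by_contra hcon
    push Not at hcon
    exact hg.1 ⟨r, hr, Or.inr hcon⟩
  -- (i)
  have stepi : ∀ r, r < m → ∀ w : Om → ℝ, (∀ x, good x → |w x - th r x| ≤ eps r) →
      (∑ x, w x * Kb x ^ 2 = ∑ x, th r x * Kb x ^ 2) →
      (∑ x, (w x - th r x) ^ 2 * Kb x ^ 2 ≤ eps r ^ 3 * ∑ x, th r x * Kb x ^ 2) →
      |∑ x, w x * K x ^ 2 - ∑ x, th r x * K x ^ 2| ≤ eps r * (kap * (2 * a' + kap)) := by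
    intro r hr w hwg hw3 hw4
    have he := heps0 r
    have hb1 := phiKb r hr w hw4
    have hb2 := phiK r hr w hwg hb1
    have e : ∑ x, w x * K x ^ 2 - ∑ x, th r x * K x ^ 2
        = ∑ x, k x * ((w x - th r x) * K x) + ∑ x, k x * ((w x - th r x) * Kb x) := by
      have e0 : ∑ x, w x * Kb x ^ 2 - ∑ x, th r x * Kb x ^ 2 = 0 := by rw [hw3]; ring
      have e1 : ∑ x, w x * K x ^ 2 - ∑ x, th r x * K x ^ 2
          = (∑ x, w x * K x ^ 2 - ∑ x, th r x * K x ^ 2)
            - (∑ x, w x * Kb x ^ 2 - ∑ x, th r x * Kb x ^ 2) := by rw [e0]; ring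
      rw [e1, ← Finset.sum_sub_distrib, ← Finset.sum_sub_distrib, ← Finset.sum_sub_distrib,
        ← Finset.sum_add_distrib]
      refine Finset.sum_congr rfl fun x _ => ?_
      simp only [hk]; ring
    rw [e]
    have c1 := abs_inner_le k (fun x => (w x - th r x) * K x)
    have c2 := abs_inner_le k (fun x => (w x - th r x) * Kb x)
    have d1 : nrm k * nrm (fun x => (w x - th r x) * K x) ≤ kap * (eps r * (a' + kap)) :=
      mul_le_mul hk_le hb2 (nrm_nonneg _) hkap0
    have d2 : nrm k * nrm (fun x => (w x - th r x) * Kb x) ≤ kap * (eps r * a') :=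
      mul_le_mul hk_le hb1 (nrm_nonneg _) hkap0
    refine (abs_add_le _ _).trans ?_
    have e3 : eps r * (kap * (2 * a' + kap)) = kap * (eps r * (a' + kap)) + kap * (eps r * a') := by
      ring
    rw [e3]
    linarith
  have stepp : ∀ r, r < m →
      |∑ x, thp r x * K x ^ 2 - ∑ x, th r x * K x ^ 2| ≤ eps r * (kap * (2 * a' + kap)) :=
    fun r hr => stepi r hr (thp r) (goodp r hr) (h3p r hr Kb hInvKb) (h4p r hr Kb hInvKb)
  have stepm : ∀ r, r < m →
      |∑ x, thm r x * K x ^ 2 - ∑ x, th r x * K x ^ 2| ≤ eps r * (kap * (2 * a' + kap)) :=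
    fun r hr => stepi r hr (thm r) (goodm r hr) (h3m r hr Kb hInvKb) (h4m r hr Kb hInvKb)
  -- (ii)
  have stepii : ∀ r, r + 1 < m →
      |∑ x, thm (r + 1) x * K x ^ 2 - ∑ x, thp r x * K x ^ 2|
        ≤ eps r * (2 * A * (a' + kap + M + 2 * A)) := by
    intro r hr
    have hr' : r < m := by omega
    have he := heps0 r
    set w : Om → ℝ := fun x => thp r x - ze r x with hw
    have e : ∑ x, thm (r + 1) x * K x ^ 2 - ∑ x, thp r x * K x ^ 2
        = ∑ x, u x * (2 * (w x * K x) + w x * u x) := by
      have e1 : ∑ x, thm (r + 1) x * K x ^ 2 - ∑ x, thp r x * K x ^ 2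
          = ∑ x, w (tau x) * K x ^ 2 - ∑ x, w x * K x ^ 2 := by
        rw [← Finset.sum_sub_distrib, ← Finset.sum_sub_distrib]
        refine Finset.sum_congr rfl fun x _ => ?_
        rw [h1 r hr x]
        simp only [hw, h2 r hr' x]; ring
      have e2 : ∑ x, w (tau x) * K x ^ 2 = ∑ x, w x * K (tau x) ^ 2 := by
        have := Equiv.sum_comp te (fun x => w x * K (tau x) ^ 2)
        rw [← this]
        refine Finset.sum_congr rfl fun x _ => ?_
        simp only [hte, htau x]
      rw [e1, e2, ← Finset.sum_sub_distrib]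
      refine Finset.sum_congr rfl fun x _ => ?_
      simp only [hu]; ring
    rw [e]
    have c1 := abs_inner_le u (fun x => 2 * (w x * K x) + w x * u x)
    have c2 := nrm_add_le (fun x => 2 * (w x * K x)) (fun x => w x * u x)
    have c3 : nrm (fun x => 2 * (w x * K x)) = 2 * nrm (fun x => w x * K x) := by
      rw [nrm_const_mul, abs_of_pos (by norm_num : (0:ℝ) < 2)]
    have zeb : ∀ x, |th r x - ze r x| ≤ eps r := by
      intro x
      refine (h2' r hr' x).trans ?_
      have a1 := (hthp r x).2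
      have a2 := (hthm r x).2
      have : thp r x + thm r x ≤ 2 := by linarith
      calc eps r / 2 * (thp r x + thm r x) ≤ eps r / 2 * 2 :=
            mul_le_mul_of_nonneg_left this (by positivity)
        _ = eps r := by ring
    have c4 : nrm (fun x => w x * u x) ≤ 2 * eps r * A := by
      have h : nrm (fun x => w x * u x) ≤ nrm (fun x => (2 * eps r) * u x) := by
        apply nrm_mono
        intro x
        rw [abs_mul, abs_mul, abs_of_pos (by positivity : 0 < 2 * eps r)]
        by_cases hg : good x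
        · apply mul_le_mul_of_nonneg_right _ (abs_nonneg _)
          have e5 : w x = (thp r x - th r x) + (th r x - ze r x) := by simp only [hw]; ring
          rw [e5]
          refine (abs_add_le _ _).trans ?_
          have g1 := goodp r hr' x hg
          have g2 := zeb x
          linarith
        · have : u x = 0 := by rw [hu_eq x, if_neg hg]
          rw [this, abs_zero, mul_zero, mul_zero]
      rw [nrm_const_mul, abs_of_pos (by positivity : 0 < 2 * eps r)] at h
      exact h.trans (mul_le_mul_of_nonneg_left hu_le (by positivity))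
    have c5 : nrm (fun x => w x * K x) ≤ eps r * (a' + kap + M + A) := by
      have h : nrm (fun x => w x * K x) ≤ nrm (fun x => |(thp r x - th r x) * K x| +
          (eps r / 2) * (|thp r x * K x| + |thm r x * K x|)) := by
        apply nrm_mono
        intro x
        rw [abs_of_nonneg (by positivity : 0 ≤ |(thp r x - th r x) * K x| +
          (eps r / 2) * (|thp r x * K x| + |thm r x * K x|))]
        have e5 : w x * K x = (thp r x - th r x) * K x + (th r x - ze r x) * K x := by
          simp only [hw]; ring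
        rw [e5]
        refine (abs_add_le _ _).trans ?_
        have : |(th r x - ze r x) * K x| ≤ (eps r / 2) * (|thp r x * K x| + |thm r x * K x|) := by
          rw [abs_mul, abs_mul, abs_mul, abs_of_nonneg (hthp r x).1, abs_of_nonneg (hthm r x).1]
          calc |th r x - ze r x| * |K x| ≤ (eps r / 2 * (thp r x + thm r x)) * |K x| :=
                mul_le_mul_of_nonneg_right (h2' r hr' x) (abs_nonneg _)
            _ = _ := by ring
        linarith
      have h6 := nrm_add_le (fun x => |(thp r x - th r x) * K x|)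
        (fun x => (eps r / 2) * (|thp r x * K x| + |thm r x * K x|))
      have h7 := nrm_add_le (fun x => |thp r x * K x|) (fun x => |thm r x * K x|)
      have e1 : nrm (fun x => |(thp r x - th r x) * K x|) = nrm (fun x => (thp r x - th r x) * K x) :=
        nrm_abs _
      have e2 : nrm (fun x => |thp r x * K x|) = nrm (fun x => thp r x * K x) := nrm_abs _
      have e3 : nrm (fun x => |thm r x * K x|) = nrm (fun x => thm r x * K x) := nrm_abs _
      have e4 : nrm (fun x => (eps r / 2) * (|thp r x * K x| + |thm r x * K x|))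
          = (eps r / 2) * nrm (fun x => (|thp r x * K x| + |thm r x * K x|)) := by
        rw [nrm_const_mul, abs_of_pos (by positivity : 0 < eps r / 2)]
      rw [e1, e4] at h6
      rw [e2, e3] at h7
      have i1 := phiK r hr' (thp r) (goodp r hr') (phiKb r hr' (thp r) (h4p r hr' Kb hInvKb))
      have i2 : nrm (fun x => thp r x * K x) ≤ M + A :=
        (nrm_mul_le_wn (fun x => (hthp r x).1) (fun x => (hthp r x).2) K).trans
          ((wn_mono hKH).trans (hHp r hr'))
      have i3 : nrm (fun x => thm r x * K x) ≤ M + A :=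
        (nrm_mul_le_wn (fun x => (hthm r x).1) (fun x => (hthm r x).2) K).trans
          ((wn_mono hKH).trans (hHm r hr'))
      have i4 : (eps r / 2) * nrm (fun x => (|thp r x * K x| + |thm r x * K x|))
          ≤ (eps r / 2) * (2 * (M + A)) :=
        mul_le_mul_of_nonneg_left (by linarith) (by positivity)
      have i5 : eps r * (a' + kap + M + A) = eps r * (a' + kap) + (eps r / 2) * (2 * (M + A)) := by
        ring
      rw [i5]
      linarith
    have c6 : nrm (fun x => 2 * (w x * K x) + w x * u x)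
        ≤ 2 * (eps r * (a' + kap + M + A)) + 2 * eps r * A := by
      rw [c3] at c2
      linarith
    have c7 : nrm u * nrm (fun x => 2 * (w x * K x) + w x * u x)
        ≤ A * (2 * (eps r * (a' + kap + M + A)) + 2 * eps r * A) :=
      mul_le_mul hu_le c6 (nrm_nonneg _) hA
    have c8 : eps r * (2 * A * (a' + kap + M + 2 * A))
        = A * (2 * (eps r * (a' + kap + M + A)) + 2 * eps r * A) := by ring
    rw [c8]
    linarith
  -- telescoping
  set C1 : ℝ := kap * (2 * a' + kap) with hC1
  set C2 : ℝ := 2 * A * (a' + kap + M + 2 * A) with hC2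
  have hC10 : 0 ≤ C1 := by positivity
  have hC20 : 0 ≤ C2 := by positivity
  have tel : ∀ r, r < m → ∑ x, th r x * K x ^ 2
      ≤ ∑ x, th 0 x * K x ^ 2 + ∑ i ∈ range r, (eps i * (C1 + C2) + eps (i + 1) * C1) := by
    intro r
    induction r with
    | zero => intro _; simp
    | succ r ih =>
      intro hr
      have hr' : r < m := by omega
      have i0 := ih hr'
      have i1 := abs_le.mp (stepm (r + 1) hr)
      have i2 := abs_le.mp (stepii r hr)
      have i3 := abs_le.mp (stepp r hr')
      rw [Finset.sum_range_succ]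
      have e1 : eps r * (C1 + C2) = eps r * C1 + eps r * C2 := by ring
      linarith [i1.1, i1.2, i2.1, i2.2, i3.1, i3.2]
  have hm0 : ∑ x, th 0 x * K x ^ 2 ≤ A ^ 2 := by
    refine le_trans (Finset.sum_le_sum fun x _ => ?_) hH3
    apply mul_le_mul_of_nonneg_left _ (hth 0 x).1
    exact sq_le_sq.mpr (hKH x)
  have tel2 : ∀ r, r < m → ∑ x, th r x * K x ^ 2 ≤ A ^ 2 + (2 * C1 + C2) / 20000 := by
    intro r hr
    have h := tel r hr
    have s1 : ∑ i ∈ range r, eps i ≤ 1 / 20000 := by
      refine le_trans ?_ hsum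
      exact Finset.sum_le_sum_of_subset_of_nonneg (Finset.range_mono hr.le)
        (fun i _ _ => (heps0 i).le)
    have s2 : ∑ i ∈ range r, eps (i + 1) ≤ 1 / 20000 := by
      refine le_trans ?_ hsum
      have s3 : ∑ i ∈ range r, eps (i + 1) ≤ ∑ i ∈ range (r + 1), eps i := by
        rw [Finset.sum_range_succ' eps r]
        linarith [heps0 0]
      refine s3.trans ?_
      exact Finset.sum_le_sum_of_subset_of_nonneg (Finset.range_mono hr)
        (fun i _ _ => (heps0 i).le)
    have e : ∑ i ∈ range r, (eps i * (C1 + C2) + eps (i + 1) * C1)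
        = (∑ i ∈ range r, eps i) * (C1 + C2) + (∑ i ∈ range r, eps (i + 1)) * C1 := by
      rw [Finset.sum_add_distrib, Finset.sum_mul, Finset.sum_mul]
    rw [e] at h
    have t1 := mul_le_mul_of_nonneg_right s1 (add_nonneg hC10 hC20)
    have t2 := mul_le_mul_of_nonneg_right s2 hC10
    have e2 : (2 * C1 + C2) / 20000 = 1 / 20000 * (C1 + C2) + 1 / 20000 * C1 := by ring
    rw [e2]
    linarith
  -- conclusion: M ≤ 6 A
  have hM6 : M ≤ 6 * A := by
    by_contra hcon
    push Not at hcon
    set X : ℝ := wn (th r0) K with hX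
    have hX0 : 0 ≤ X := wn_nonneg _ _
    have hX2 : X ^ 2 ≤ A ^ 2 + (2 * C1 + C2) / 20000 := by
      rw [hX, wn_sq (fun x => (hth r0 x).1)]
      exact tel2 r0 hr0
    have hMX : M ≤ X + b + A := by
      have g1 := wn_le_add (fun x => (hth r0 x).2) Hb H
      rw [nrm_sub_comm Hb H] at g1
      have g2 := wn_le_add (fun x => (hth r0 x).2) H K
      linarith
    have hMpos : 0 < M := by linarith
    have hA6 : A ≤ M / 6 := by linarith
    have hkapM : kap ≤ 1.374 * M := by
      rw [hkap, hb]; linarith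
    have ha'M : a' ≤ 2.541 * M := by
      rw [ha']; linarith
    have hC1M : C1 ≤ 8.88 * M ^ 2 := by
      rw [hC1]
      have : 2 * a' + kap ≤ 6.456 * M := by linarith
      calc kap * (2 * a' + kap) ≤ (1.374 * M) * (6.456 * M) :=
            mul_le_mul hkapM this (by positivity) (by positivity)
        _ = (1.374 * 6.456) * M ^ 2 := by ring
        _ ≤ 8.88 * M ^ 2 := mul_le_mul_of_nonneg_right (by norm_num) (by positivity)
    have hC2M : C2 ≤ 2 * M ^ 2 := by
      rw [hC2]
      have g1 : a' + kap + M + 2 * A ≤ 5.25 * M := by linarith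
      have g2 : 2 * A ≤ M / 3 := by linarith
      calc 2 * A * (a' + kap + M + 2 * A) ≤ (M / 3) * (5.25 * M) :=
            mul_le_mul g2 g1 (by positivity) (by positivity)
        _ = (5.25 / 3) * M ^ 2 := by ring
        _ ≤ 2 * M ^ 2 := mul_le_mul_of_nonneg_right (by norm_num) (by positivity)
    have hXlow : 0.31 * M ≤ X := by
      rw [hb] at hMX
      linarith
    have hX3 : (0.31 * M) ^ 2 ≤ X ^ 2 := pow_le_pow_left₀ (by positivity) hXlow 2
    have hA2 : A ^ 2 ≤ (M / 6) ^ 2 := pow_le_pow_left₀ hA hA6 2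
    have hM2 : 0 < M ^ 2 := by positivity
    nlinarith
  have h7 : wn (th r1) H ≤ 7 * A := by
    have := hHr r1 hr1
    linarith
  rw [← wn_sq (fun x => (hth r1 x).1)]
  exact pow_le_pow_left₀ (wn_nonneg _ _) h7 2

end L2LP
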