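import Pool.Agent.Helper44.LP.Block
import Pool.Agent.Helper44.LP.Telescope
import Pool.Agent.Helper44.LP.RelT

/-!
# The Hardy inequality on the configuration space (Corollary 4)
-/

namespace L2LP

open Finset

/-! ### Action of permutations on configurations -/

section Cfg

variable {X : Type*}

/-- composition of configurations with a permutation -/
def cfgP (s : Equiv.Perm X) : Equiv.Perm (X → Bool) where
  toFun T w := T (s w)
  invFun T w := T (s.symm w)
  left_inv T := by ext w; simp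
  right_inv T := by ext w; simp

theorem cfgP_apply (s : Equiv.Perm X) (T : X → Bool) : cfgP s T = fun w => T (s w) := rfl

/-- the action by `T ↦ T ∘ s⁻¹` -/
def cfgA : Equiv.Perm X →* Equiv.Perm (X → Bool) where
  toFun s := cfgP s⁻¹
  map_one' := by
    ext T w
    rfl
  map_mul' s s' := by
    ext T w
    simp [cfgP]

theorem cfgA_apply (s : Equiv.Perm X) (T : X → Bool) : cfgA s T = fun w => T (s⁻¹ w) := rfl

theorem cfgA_cfgP (s : Equiv.Perm X) (T : X → Bool) : cfgA s (fun w => T (s w)) = T := by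
  ext w
  simp [cfgA_apply]

variable [Fintype X] [DecidableEq X]

theorem nrm_cfgA (s : Equiv.Perm X) (H : (X → Bool) → ℝ) :
    nrm (fun T => H (cfgA s T) - H T) = nrm (fun T => H (fun w => T (s w)) - H T) := by
  have h := nrm_comp (cfgP s) (fun T : X → Bool => H (cfgA s T) - H T)
  rw [← h, nrm_sub_comm]
  congr 1
  funext T
  rw [cfgP_apply, cfgA_cfgP]

theorem sum_cfgP (s : Equiv.Perm X) (F : (X → Bool) → ℝ) :
    ∑ T : X → Bool, F (fun w => T (s w)) = ∑ T, F T :=
  Equiv.sum_comp (cfgP s) F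

end Cfg

section
variable {q : ℕ → ℕ} [hq : ∀ r, Fact (q r).Prime] {eps : ℕ → ℝ} (hp : Params q eps) (m : ℕ)

/-- the bijection `tauF` as a permutation (uses the involution property) -/
noncomputable def ptau {q : ℕ → ℕ} [∀ r, Fact (q r).Prime] {eps : ℕ → ℝ} (hp : Params q eps)
    (m : ℕ) : Equiv.Perm (Blk q m) :=
  Function.Involutive.toPerm (tauF q m) (tauF_invol hp m)

/-- functions invariant under the two translations -/
def InvF (q : ℕ → ℕ) (m : ℕ) (L : (Blk q m → Bool) → ℝ) : Prop :=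
  (∀ T, L (fun w => T (pe1 q m w)) = L T) ∧ (∀ T, L (fun w => T (pe2 q m w)) = L T)

/-- translation by `(i,j)` on every block -/
def pij (q : ℕ → ℕ) (m i j : ℕ) : Equiv.Perm (Blk q m) where
  toFun w := ⟨w.1, (w.2.1 + (i : ZMod (q w.1)), w.2.2 + (j : ZMod (q w.1)))⟩
  invFun w := ⟨w.1, (w.2.1 - (i : ZMod (q w.1)), w.2.2 - (j : ZMod (q w.1)))⟩
  left_inv w := by simp
  right_inv w := by simp

theorem pij_apply (i j : ℕ) (w : Blk q m) :
    pij q m i j w = ⟨w.1, (w.2.1 + (i : ZMod (q w.1)), w.2.2 + (j : ZMod (q w.1)))⟩ := rfl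

theorem pe1_apply (w : Blk q m) : pe1 q m w = ⟨w.1, (w.2.1 + 1, w.2.2)⟩ := rfl
theorem pe2_apply (w : Blk q m) : pe2 q m w = ⟨w.1, (w.2.1, w.2.2 + 1)⟩ := rfl
theorem pT1_apply (w : Blk q m) : pT1 q m w = ⟨w.1, (w.2.1 + w.2.2, w.2.2)⟩ := rfl
theorem pT2_apply (w : Blk q m) : pT2 q m w = ⟨w.1, (w.2.1, w.2.2 + w.2.1)⟩ := rfl

theorem InvF.shift {L : (Blk q m → Bool) → ℝ} (hL : InvF q m L) (i j : ℕ) (T : Blk q m → Bool) :
    L (fun w => T (pij q m i j w)) = L T := by
  have h1 : ∀ (i : ℕ) (T : Blk q m → Bool), L (fun w => T (pij q m i 0 w)) = L T := by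
    intro i
    induction i with
    | zero =>
      intro T
      congr 1
      funext w
      congr 1
      rw [pij_apply]
      simp
    | succ i ih =>
      intro T
      have h := hL.1 (fun w => T (pij q m i 0 w))
      rw [ih] at h
      rw [← h]
      congr 1
      funext w
      congr 1
      rw [pij_apply, pij_apply, pe1_apply]
      simp
      ring
  have h2 : ∀ (j : ℕ) (T : Blk q m → Bool), L (fun w => T (pij q m i j w)) = L T := by
    intro j
    induction j with
    | zero => exact h1 i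
    | succ j ih =>
      intro T
      have h := hL.2 (fun w => T (pij q m i j w))
      rw [ih] at h
      rw [← h]
      congr 1
      funext w
      congr 1
      rw [pij_apply, pij_apply, pe2_apply]
      simp
      ring
  exact h2 j T

theorem mem_sl2 (r : ℕ) (hr : r < m + 1) (T : Blk q m → Bool) (w : ZMod (q r) × ZMod (q r)) :
    w ∈ sl q m r T ↔ T ⟨⟨r, hr⟩, w⟩ = true := by
  unfold sl
  rw [dif_pos hr]
  simp

theorem sl_shift (r : ℕ) (hr : r < m + 1) (T : Blk q m → Bool) (a : ZMod (q r) × ZMod (q r)) :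
    sl q m r (fun w => T (pij q m (-a.1).val (-a.2).val w)) = (sl q m r T).image (fun t => t + a) := by
  ext w
  rw [mem_sl2 m r hr, Finset.mem_image]
  have e : pij q m (-a.1).val (-a.2).val ⟨⟨r, hr⟩, w⟩ = ⟨⟨r, hr⟩, w - a⟩ := by
    rw [pij_apply]
    simp only [ZMod.natCast_val, ZMod.cast_id', id_eq]
    have e2 : ((w.1 + -a.1, w.2 + -a.2) : ZMod (q r) × ZMod (q r)) = w - a := by
      ext <;> simp [sub_eq_add_neg]
    rw [e2]
  rw [e]
  constructor
  · intro h
    exact ⟨w - a, (mem_sl2 m r hr T _).mpr h, by abel⟩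
  · rintro ⟨t, ht, rfl⟩
    rw [mem_sl2 m r hr] at ht
    have : t + a - a = t := by abel
    rw [this]
    exact ht

/-- averaging over the translations of the block `r` -/
theorem avg_block (r : ℕ) (hr : r < m + 1) (Phi : Finset (ZMod (q r) × ZMod (q r)) → ℝ)
    (L : (Blk q m → Bool) → ℝ) (hL : InvF q m L) :
    (q r : ℝ) ^ 2 * ∑ T, Phi (sl q m r T) * L T ^ 2 =
      ∑ T, (∑ a, Phi ((sl q m r T).image (fun t => t + a))) * L T ^ 2 := by
  have key : ∀ a : ZMod (q r) × ZMod (q r), ∑ T, Phi (sl q m r T) * L T ^ 2 =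
      ∑ T, Phi ((sl q m r T).image (fun t => t + a)) * L T ^ 2 := by
    intro a
    rw [← sum_cfgP (pij q m (-a.1).val (-a.2).val) (fun T => Phi (sl q m r T) * L T ^ 2)]
    refine Finset.sum_congr rfl fun T _ => ?_
    rw [hL.shift, sl_shift m r hr]
  have hc : ∑ _a : ZMod (q r) × ZMod (q r), ∑ T, Phi (sl q m r T) * L T ^ 2 =
      (q r : ℝ) ^ 2 * ∑ T, Phi (sl q m r T) * L T ^ 2 := by
    rw [Finset.sum_const, nsmul_eq_mul]
    congr 1
    rw [Finset.card_univ, Fintype.card_prod, ZMod.card]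
    push_cast
    ring
  rw [← hc]
  calc ∑ _a : ZMod (q r) × ZMod (q r), ∑ T, Phi (sl q m r T) * L T ^ 2
      = ∑ a : ZMod (q r) × ZMod (q r), ∑ T, Phi ((sl q m r T).image (fun t => t + a)) * L T ^ 2 :=
        Finset.sum_congr rfl fun a _ => key a
    _ = ∑ T, ∑ a : ZMod (q r) × ZMod (q r), Phi ((sl q m r T).image (fun t => t + a)) * L T ^ 2 :=
        Finset.sum_comm
    _ = _ := by
        refine Finset.sum_congr rfl fun T _ => ?_
        rw [Finset.sum_mul]

theorem card_image_inter {p : ℕ} [NeZero p] (C S : Finset (ZMod p × ZMod p)) (a : ZMod p × ZMod p) :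
    (S.image (fun t => t + a) ∩ C).card = cntN C S a := by
  unfold cntN
  have : S.image (fun t => t + a) ∩ C = (S.filter (fun t => t + a ∈ C)).image (fun t => t + a) := by
    ext w
    simp only [Finset.mem_inter, Finset.mem_image, Finset.mem_filter]
    constructor
    · rintro ⟨⟨t, ht, rfl⟩, hw⟩
      exact ⟨t, ⟨ht, hw⟩, rfl⟩
    · rintro ⟨t, ⟨ht, hw⟩, rfl⟩
      exact ⟨⟨t, ht, rfl⟩, hw⟩
  rw [this, Finset.card_image_of_injective _ (add_left_injective a)]

theorem card_image_shift {p : ℕ} [NeZero p] (S : Finset (ZMod p × ZMod p)) (a : ZMod p × ZMod p) :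
    (S.image (fun t => t + a)).card = S.card :=
  Finset.card_image_of_injective _ (add_left_injective a)

theorem qpos (r : ℕ) : (0 : ℝ) < (q r : ℝ) := by
  exact_mod_cast (hq r).out.pos

/-- first moment over the translations -/
theorem first_moment (r : ℕ) (hr : r < m + 1) (C : Finset (ZMod (q r) × ZMod (q r))) (n : ℕ)
    (hn : 0 < n) (hC : C.card = n) (L : (Blk q m → Bool) → ℝ) (hL : InvF q m L) :
    ∑ T, ((sl q m r T ∩ C).card : ℝ) / n * L T ^ 2 = ∑ T, th q m r T * L T ^ 2 := by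
  have hq0 := qpos (q := q) r
  have hn0 : (0 : ℝ) < n := by exact_mod_cast hn
  have h := avg_block m r hr (fun S => ((S ∩ C).card : ℝ) / n) L hL
  have h2 : ∀ T : Blk q m → Bool,
      ∑ a, (((sl q m r T).image (fun t => t + a) ∩ C).card : ℝ) / n = (sl q m r T).card := by
    intro T
    simp only [card_image_inter]
    rw [← Finset.sum_div, sum_cntN, hC]
    field_simp
  simp only [h2] at h
  have h3 : ∑ T, ((sl q m r T).card : ℝ) * L T ^ 2 = (q r : ℝ) ^ 2 * ∑ T, th q m r T * L T ^ 2 := by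
    rw [Finset.mul_sum]
    refine Finset.sum_congr rfl fun T _ => ?_
    unfold th
    field_simp
  rw [h3] at h
  exact mul_left_cancel₀ (by positivity) h

/-- second moment over the translations -/
theorem second_moment (r : ℕ) (hr : r < m + 1) (C : Finset (ZMod (q r) × ZMod (q r))) (n : ℕ)
    (e : ℝ) (he : 16 / (q r : ℝ) ≤ e)
    (hC : ∀ S : Finset (ZMod (q r) × ZMod (q r)),
      ∑ a, ((cntN C S a : ℝ) / n - (S.card : ℝ) / (q r : ℝ) ^ 2) ^ 2 ≤ 16 * S.card / q r)
    (L : (Blk q m → Bool) → ℝ) (hL : InvF q m L) :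
    ∑ T, (((sl q m r T ∩ C).card : ℝ) / n - th q m r T) ^ 2 * L T ^ 2 ≤
      e * ∑ T, th q m r T * L T ^ 2 := by
  have hq0 := qpos (q := q) r
  have h := avg_block m r hr
    (fun S => (((S ∩ C).card : ℝ) / n - (S.card : ℝ) / (q r : ℝ) ^ 2) ^ 2) L hL
  have h2 : ∀ T : Blk q m → Bool,
      ∑ a, ((((sl q m r T).image (fun t => t + a) ∩ C).card : ℝ) / n -
        (((sl q m r T).image (fun t => t + a)).card : ℝ) / (q r : ℝ) ^ 2) ^ 2 ≤
        (q r : ℝ) ^ 2 * (e * th q m r T) := by
    intro T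
    simp only [card_image_inter, card_image_shift]
    refine (hC _).trans ?_
    have h4 : 16 * ((sl q m r T).card : ℝ) / q r = (q r : ℝ) ^ 2 * (16 / (q r : ℝ) * th q m r T) := by
      unfold th
      field_simp
    rw [h4]
    apply mul_le_mul_of_nonneg_left _ (by positivity)
    apply mul_le_mul_of_nonneg_right he
    unfold th
    positivity
  have h5 : (q r : ℝ) ^ 2 * ∑ T, (((sl q m r T ∩ C).card : ℝ) / n - th q m r T) ^ 2 * L T ^ 2 ≤
      (q r : ℝ) ^ 2 * (e * ∑ T, th q m r T * L T ^ 2) := by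
    have h6 : (q r : ℝ) ^ 2 * ∑ T, (((sl q m r T ∩ C).card : ℝ) / n - th q m r T) ^ 2 * L T ^ 2 =
        ∑ T, (∑ a, ((((sl q m r T).image (fun t => t + a) ∩ C).card : ℝ) / n -
        (((sl q m r T).image (fun t => t + a)).card : ℝ) / (q r : ℝ) ^ 2) ^ 2) * L T ^ 2 := h
    rw [h6]
    calc _ ≤ ∑ T, ((q r : ℝ) ^ 2 * (e * th q m r T)) * L T ^ 2 :=
          Finset.sum_le_sum fun T _ => mul_le_mul_of_nonneg_right (h2 T) (sq_nonneg _)
      _ = _ := by
          rw [Finset.mul_sum, Finset.mul_sum]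
          exact Finset.sum_congr rfl fun T _ => by ring
  exact le_of_mul_le_mul_left h5 (by positivity)

include hp

theorem h3p (r : ℕ) (hr : r < m + 1) (L : (Blk q m → Bool) → ℝ) (hL : InvF q m L) :
    ∑ T, thp q m r T * L T ^ 2 = ∑ T, th q m r T * L T ^ 2 :=
  first_moment m r hr (Cp (q r) (q (r + 1))) (q (r + 1)) (hq (r + 1)).out.pos
    (card_Cp _ _ (hp.room r)) L hL

theorem h3m (r : ℕ) (hr : r < m + 1) (L : (Blk q m → Bool) → ℝ) (hL : InvF q m L) :
    ∑ T, thm q m r T * L T ^ 2 = ∑ T, th q m r T * L T ^ 2 :=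
  first_moment m r hr (Cm (q r)) (q r) (hq r).out.pos (card_Cm _) L hL

theorem h4p (r : ℕ) (hr : r < m + 1) (L : (Blk q m → Bool) → ℝ) (hL : InvF q m L) :
    ∑ T, (thp q m r T - th q m r T) ^ 2 * L T ^ 2 ≤ eps r ^ 3 * ∑ T, th q m r T * L T ^ 2 :=
  second_moment m r hr (Cp (q r) (q (r + 1))) (q (r + 1)) (eps r ^ 3) (hp.eps1 r)
    (fun S => sidon_Cp (q r) (q (r + 1)) (hp.ne2 r) (hp.mono r) (hp.room r) (hp.ratio r) S) L hL

theorem h4m (r : ℕ) (hr : r < m + 1) (L : (Blk q m → Bool) → ℝ) (hL : InvF q m L) :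
    ∑ T, (thm q m r T - th q m r T) ^ 2 * L T ^ 2 ≤ eps r ^ 3 * ∑ T, th q m r T * L T ^ 2 :=
  second_moment m r hr (Cm (q r)) (q r) (eps r ^ 3) (hp.eps1 r)
    (fun S => sidon_Cm (q r) (hp.ne2 r) S) L hL

omit hp in
/-- the density of the block `0` against an invariant function -/
theorem base_moment (L : (Blk q m → Bool) → ℝ) (hL : InvF q m L) :
    ∑ T, th q m 0 T * L T ^ 2 = ∑ T, (if T (bo q m) = true then L T ^ 2 else 0) := by
  have hq0 := qpos (q := q) 0
  have hr : 0 < m + 1 := Nat.succ_pos m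
  have h := avg_block m 0 hr (fun S => if (0, 0) ∈ S then (1 : ℝ) else 0) L hL
  have h2 : ∀ T : Blk q m → Bool,
      ∑ a, (if (0, 0) ∈ (sl q m 0 T).image (fun t => t + a) then (1 : ℝ) else 0) =
        (sl q m 0 T).card := by
    intro T
    rw [← Finset.sum_filter, Finset.sum_const, nsmul_eq_mul, mul_one]
    congr 1
    have : (univ.filter (fun a => ((0, 0) : ZMod (q 0) × ZMod (q 0)) ∈
        (sl q m 0 T).image (fun t => t + a))) = (sl q m 0 T).image (fun t => -t) := by
      ext a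
      simp only [Finset.mem_filter, Finset.mem_univ, true_and, Finset.mem_image]
      constructor
      · rintro ⟨t, ht, h0⟩
        refine ⟨t, ht, ?_⟩
        have h1 : t + a = 0 := h0
        exact (eq_neg_of_add_eq_zero_right h1).symm
      · rintro ⟨t, ht, rfl⟩
        exact ⟨t, ht, add_neg_cancel t⟩
    rw [this, Finset.card_image_of_injective _ neg_injective]
  simp only [h2] at h
  have h3 : ∑ T, ((sl q m 0 T).card : ℝ) * L T ^ 2 = (q 0 : ℝ) ^ 2 * ∑ T, th q m 0 T * L T ^ 2 := by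
    rw [Finset.mul_sum]
    refine Finset.sum_congr rfl fun T _ => ?_
    unfold th
    field_simp
  rw [h3] at h
  have h4 := mul_left_cancel₀ (show ((q 0 : ℝ) ^ 2) ≠ 0 by positivity) h
  rw [← h4]
  refine Finset.sum_congr rfl fun T _ => ?_
  have h5 : ((0, 0) : ZMod (q 0) × ZMod (q 0)) ∈ sl q m 0 T ↔ T (bo q m) = true :=
    mem_sl2 m 0 hr T _
  by_cases hT : T (bo q m) = true
  · rw [if_pos (h5.mpr hT), if_pos hT, one_mul]
  · rw [if_neg (fun h => hT (h5.mp h)), if_neg hT, zero_mul]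

omit hp in
theorem pe1_pow (k : ℕ) (w : Blk q m) : (pe1 q m ^ k) w = pij q m k 0 w := by
  induction k with
  | zero =>
    rw [pij_apply]
    simp
  | succ k ih =>
    rw [pow_succ', Equiv.Perm.mul_apply, ih, pij_apply, pij_apply, pe1_apply]
    simp
    ring

omit hp in
theorem pe2_pow (k : ℕ) (w : Blk q m) : (pe2 q m ^ k) w = pij q m 0 k w := by
  induction k with
  | zero =>
    rw [pij_apply]
    simp
  | succ k ih =>
    rw [pow_succ', Equiv.Perm.mul_apply, ih, pij_apply, pij_apply, pe2_apply]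
    simp
    ring

omit hp in
/-- weighted triangle inequality: `‖sqrt(w) H‖ ≤ ‖sqrt(w) L‖ + ‖H - L‖` for weights in `[0,1]` -/
theorem weighted_tri {Om : Type*} [Fintype Om] (w : Om → ℝ) (hw : ∀ x, 0 ≤ w x ∧ w x ≤ 1)
    (H L : Om → ℝ) (a b : ℝ) (ha : 0 ≤ a) (hb : 0 ≤ b) (h1 : ∑ x, w x * L x ^ 2 ≤ a ^ 2)
    (h2 : nrm (fun x => H x - L x) ≤ b) : ∑ x, w x * H x ^ 2 ≤ (a + b) ^ 2 := by
  have e : ∀ F : Om → ℝ, nrm (fun x => Real.sqrt (w x) * F x) ^ 2 = ∑ x, w x * F x ^ 2 := by
    intro F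
    rw [nrm_sq]
    refine Finset.sum_congr rfl fun x _ => ?_
    rw [mul_pow, Real.sq_sqrt (hw x).1]
  have h3 : nrm (fun x => Real.sqrt (w x) * L x) ≤ a := by
    have h := e L
    refine le_of_sq_le_sq ?_ ha
    rw [h]
    exact h1
  have h4 : nrm (fun x => Real.sqrt (w x) * H x - Real.sqrt (w x) * L x) ≤ b := by
    refine le_trans (nrm_mono fun x => ?_) h2
    rw [← mul_sub, abs_mul]
    have h5 : |Real.sqrt (w x)| ≤ 1 := by
      rw [abs_of_nonneg (Real.sqrt_nonneg _)]
      exact Real.sqrt_le_one.mpr (hw x).2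
    calc |Real.sqrt (w x)| * |H x - L x| ≤ 1 * |H x - L x| :=
          mul_le_mul_of_nonneg_right h5 (abs_nonneg _)
      _ = _ := one_mul _
  have h6 := nrm_le_add_sub (fun x => Real.sqrt (w x) * H x) (fun x => Real.sqrt (w x) * L x)
  rw [← e H]
  exact pow_le_pow_left₀ (nrm_nonneg _) (h6.trans (add_le_add h3 h4)) 2

/-- Corollary 4 -/
theorem block_hardy (H : (Blk q m → Bool) → ℝ) (e : ℝ) (he : 0 ≤ e)
    (hH1 : nrm (fun T => H (fun w => T (pe1 q m w)) - H T) ≤ e)
    (hH2 : nrm (fun T => H (fun w => T (pe2 q m w)) - H T) ≤ e)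
    (hH3 : nrm (fun T => H (fun w => T (pT1 q m w)) - H T) ≤ e)
    (hH4 : nrm (fun T => H (fun w => T (pT2 q m w)) - H T) ≤ e)
    (hH5 : nrm (fun T => H (fun w => T (tauF q m w)) - H T) ≤ e)
    (hH6 : ∑ T, (if T (bo q m) = true then H T ^ 2 else 0) ≤ e ^ 2)
    (r : Fin (m + 1)) :
    ∑ w : ZMod (q r) × ZMod (q r), ∑ T, (if T ⟨r, w⟩ = true then H T ^ 2 else 0)
      ≤ (120 * e) ^ 2 * (q r : ℝ) ^ 2 := by
  classical
  -- the common period
  set N : ℕ := ∏ i ∈ range (m + 1), q i with hN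
  have hNpos : 0 < N := Finset.prod_pos fun i _ => (hq i).out.pos
  have hdvd : ∀ r : Fin (m + 1), ((N : ℕ) : ZMod (q r)) = 0 := by
    intro r
    rw [ZMod.natCast_eq_zero_iff]
    exact Finset.dvd_prod_of_mem _ (Finset.mem_range.mpr r.2)
  set E1 := cfgA (pe1 q m) with hE1
  set E2 := cfgA (pe2 q m) with hE2
  set S1 := cfgA (pT1 q m) with hS1
  set S2 := cfgA (pT2 q m) with hS2
  have c12 : E1 * E2 = E2 * E1 := by
    rw [hE1, hE2, ← map_mul, ← map_mul]
    congr 1
  have p1 : E1 ^ N = 1 := by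
    rw [hE1, ← map_pow]
    have : pe1 q m ^ N = 1 := by
      ext w : 1
      rw [pe1_pow, pij_apply, hdvd]
      simp
    rw [this, map_one]
  have p2 : E2 ^ N = 1 := by
    rw [hE2, ← map_pow]
    have : pe2 q m ^ N = 1 := by
      ext w : 1
      rw [pe2_pow, pij_apply, hdvd]
      simp
    rw [this, map_one]
  have r11 : S1 * E1 = E1 * S1 := by
    rw [hE1, hS1, ← map_mul, ← map_mul]
    congr 1
    ext w : 1
    simp only [Equiv.Perm.mul_apply, pe1_apply, pT1_apply]
    congr 2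
    ring
  have r12 : S1 * E2 = E1 * E2 * S1 := by
    rw [hE1, hE2, hS1, ← map_mul, ← map_mul, ← map_mul]
    congr 1
    ext w : 1
    simp only [Equiv.Perm.mul_apply, pe1_apply, pe2_apply, pT1_apply]
    congr 2
    ring
  have r22 : S2 * E2 = E2 * S2 := by
    rw [hE2, hS2, ← map_mul, ← map_mul]
    congr 1
    ext w : 1
    simp only [Equiv.Perm.mul_apply, pe2_apply, pT2_apply]
    congr 2
    ring
  have r21 : S2 * E1 = E1 * E2 * S2 := by
    rw [hE1, hE2, hS2, ← map_mul, ← map_mul, ← map_mul]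
    congr 1
    ext w : 1
    simp only [Equiv.Perm.mul_apply, pe1_apply, pe2_apply, pT2_apply]
    congr 2
    ring
  set P : ((Blk q m → Bool) → ℝ) → (Blk q m → Bool) → ℝ := avg N E1 E2 with hPdef
  have hPH : nrm (fun T => H T - P H T) ≤ 8 * e := by
    refine relT N hNpos E1 E2 S1 S2 c12 p1 p2 r11 r12 r22 r21 H e ?_ ?_ ?_ ?_
    · rw [hE1, nrm_cfgA]; exact hH1
    · rw [hE2, nrm_cfgA]; exact hH2
    · rw [hS1, nrm_cfgA]; exact hH3
    · rw [hS2, nrm_cfgA]; exact hH4
  have hPinv : ∀ K, InvF q m (P K) := by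
    intro K
    constructor
    · intro T
      have h := avg_inv1 N hNpos E1 E2 c12 p1 K (fun w => T (pe1 q m w))
      rw [hE1, cfgA_cfgP] at h
      exact h.symm
    · intro T
      have h := avg_inv2 N hNpos E1 E2 p2 K (fun w => T (pe2 q m w))
      rw [hE2, cfgA_cfgP] at h
      exact h.symm
  have hPbest : ∀ K L, InvF q m L →
      nrm (fun T => K T - P K T) ≤ 2 * nrm (fun T => K T - L T) := by
    intro K L hL
    refine avg_best N hNpos E1 E2 K L ?_ ?_
    · intro T
      have h := hL.1 (E1 T)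
      rw [← h]
      congr 1
      funext w
      simp [hE1, cfgA_apply]
    · intro T
      have h := hL.2 (E2 T)
      rw [← h]
      congr 1
      funext w
      simp [hE2, cfgA_apply]
  -- the base block
  have hbase : ∑ T, th q m 0 T * H T ^ 2 ≤ (17 * e) ^ 2 := by
    have h1 : ∑ T, th q m 0 T * (P H T) ^ 2 ≤ (9 * e) ^ 2 := by
      rw [base_moment m (P H) (hPinv H)]
      have h2 := weighted_tri (fun T : Blk q m → Bool => if T (bo q m) = true then (1 : ℝ) else 0)
        (fun T => by split_ifs <;> norm_num) (P H) H e (8 * e) he (by linarith)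
        (by
          refine le_trans (le_of_eq ?_) hH6
          refine Finset.sum_congr rfl fun T _ => ?_
          split_ifs <;> simp)
        (by rw [nrm_sub_comm]; exact hPH)
      have h3 : e + 8 * e = 9 * e := by ring
      rw [h3] at h2
      refine le_trans (le_of_eq ?_) h2
      refine Finset.sum_congr rfl fun T _ => ?_
      split_ifs <;> simp
    have h2 := weighted_tri (th q m 0) (th_mem hp m 0) H (P H) (9 * e) (8 * e) (by linarith)
      (by linarith) h1 hPH
    have h3 : 9 * e + 8 * e = 17 * e := by ring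
    rw [h3] at h2
    exact h2
  have hmain := telescope (m + 1) (fun (T : Blk q m → Bool) (w : Blk q m) => T (tauF q m w))
    (fun T => by
      funext w
      show T (tauF q m (tauF q m w)) = T w
      rw [tauF_invol hp m w])
    (th q m) (thp q m) (thm q m) (ze q m) eps (InvF q m) P hp.eps_pos hp.eps_le
    (hp.eps_sum (m + 1)) (th_mem hp m) (thp_mem hp m) (thm_mem hp m)
    (fun r hr T => thm_succ hp m r hr T)
    (fun r hr T => ze_tau hp m r hr T)
    (fun r hr T => th_sub_ze hp m r hr T)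
    (fun r hr L hL => h3p hp m r hr L hL)
    (fun r hr L hL => h3m hp m r hr L hL)
    (fun r hr L hL => h4p hp m r hr L hL)
    (fun r hr L hL => h4m hp m r hr L hL)
    hPinv hPbest H (17 * e) (by linarith)
    (hPH.trans (by linarith)) (hH5.trans (by linarith)) hbase r r.2
  -- rewrite the conclusion
  have hq0 := qpos (q := q) r
  have hcount : ∑ w : ZMod (q r) × ZMod (q r), ∑ T, (if T ⟨r, w⟩ = true then H T ^ 2 else 0) =
      (q r : ℝ) ^ 2 * ∑ T, th q m r T * H T ^ 2 := by
    rw [Finset.sum_comm, Finset.mul_sum]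
    refine Finset.sum_congr rfl fun T _ => ?_
    have h1 : ∑ w : ZMod (q r) × ZMod (q r), (if T ⟨r, w⟩ = true then H T ^ 2 else 0) =
        ((sl q m r T).card : ℝ) * H T ^ 2 := by
      rw [← Finset.sum_filter, Finset.sum_const, nsmul_eq_mul]
      congr 2
      congr 1
      ext w
      rw [mem_sl2 m r r.2]
      simp
    rw [h1]
    unfold th
    field_simp
  rw [hcount]
  have h120 : (7 * (17 * e)) ^ 2 ≤ (120 * e) ^ 2 := by
    have : (7 * (17 * e)) = 119 * e := by ring
    rw [this]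
    nlinarith [sq_nonneg e]
  calc (q r : ℝ) ^ 2 * ∑ T, th q m r T * H T ^ 2
      ≤ (q r : ℝ) ^ 2 * (120 * e) ^ 2 :=
        mul_le_mul_of_nonneg_left (hmain.trans h120) (by positivity)
    _ = _ := by ring

end

end L2LP
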