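import Pool.Agent.Helper44.LP.FinalDefs

/-!
# Existence of a coarse disjoint union metric
-/

namespace L2LP

open Classical in
/-- the standard metric on the disjoint union -/
noncomputable def unionDist {V : ℕ → Type*} (G : ∀ n, SimpleGraph (V n))
    (x y : Σ n, V n) : ℝ :=
  if h : x.1 = y.1 then (G y.1).dist (h ▸ x.2) y.2
  else ((G x.1).diam : ℝ) + (G y.1).diam + x.1 + y.1

theorem unionDist_same {V : ℕ → Type*} (G : ∀ n, SimpleGraph (V n)) (n : ℕ) (x y : V n) :
    unionDist G ⟨n, x⟩ ⟨n, y⟩ = (G n).dist x y := by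
  simp [unionDist]

theorem unionDist_ne {V : ℕ → Type*} (G : ∀ n, SimpleGraph (V n)) {n k : ℕ} (h : n ≠ k)
    (x : V n) (y : V k) :
    unionDist G ⟨n, x⟩ ⟨k, y⟩ = ((G n).diam : ℝ) + (G k).diam + n + k := by
  simp [unionDist, h]

theorem exists_coarseUnion {V : ℕ → Type*} [∀ n, Finite (V n)] (G : ∀ n, SimpleGraph (V n))
    (hG : ∀ n, (G n).Connected) : ∃ d, IsCoarseUnion G d := by
  have hdm : ∀ n (x y : V n), ((G n).dist x y : ℝ) ≤ (G n).diam := by
    intro n x y
    have : Nonempty (V n) := (hG n).nonempty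
    exact_mod_cast SimpleGraph.dist_le_diam (SimpleGraph.connected_iff_ediam_ne_top.mp (hG n))
  have hd0 : ∀ n, (0 : ℝ) ≤ (G n).diam := fun n => Nat.cast_nonneg _
  have hn0 : ∀ n : ℕ, (0 : ℝ) ≤ n := fun n => Nat.cast_nonneg _
  have hs0 : ∀ n (x y : V n), (0 : ℝ) ≤ (G n).dist x y := fun n x y => Nat.cast_nonneg _
  refine ⟨unionDist G, ?_, ?_, ?_, ?_, ?_, ?_⟩
  · rintro ⟨n, x⟩
    rw [unionDist_same, SimpleGraph.dist_self, Nat.cast_zero]
  · rintro ⟨n, x⟩ ⟨k, y⟩ h
    by_cases hnk : n = k
    · subst hnk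
      rw [unionDist_same] at h
      have h1 : (G n).dist x y = 0 := by exact_mod_cast h
      rw [(hG n).dist_eq_zero_iff] at h1
      rw [h1]
    · exfalso
      rw [unionDist_ne G hnk] at h
      have h1 := hd0 n
      have h2 := hd0 k
      have h3 : (n : ℝ) + k ≤ 0 := by linarith
      have h4 : n + k ≤ 0 := by exact_mod_cast h3
      omega
  · rintro ⟨n, x⟩ ⟨k, y⟩
    by_cases hnk : n = k
    · subst hnk
      rw [unionDist_same, unionDist_same, SimpleGraph.dist_comm]
    · rw [unionDist_ne G hnk, unionDist_ne G (Ne.symm hnk)]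
      ring
  · rintro ⟨n, x⟩ ⟨k, y⟩ ⟨l, z⟩
    have e1 := hd0 n
    have e2 := hd0 k
    have e3 := hd0 l
    have f1 := hn0 n
    have f2 := hn0 k
    have f3 := hn0 l
    by_cases h1 : n = k
    · subst h1
      by_cases h2 : n = l
      · subst h2
        rw [unionDist_same, unionDist_same, unionDist_same]
        exact_mod_cast (hG n).dist_triangle
      · rw [unionDist_ne G h2, unionDist_ne G h2, unionDist_same]
        have := hs0 n x y
        linarith
    · by_cases h2 : n = l
      · subst h2
        rw [unionDist_same, unionDist_ne G h1, unionDist_ne G (Ne.symm h1)]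
        have := hdm n x z
        linarith
      · by_cases h3 : k = l
        · subst h3
          rw [unionDist_ne G h1, unionDist_ne G h1, unionDist_same]
          have := hs0 k y z
          linarith
        · rw [unionDist_ne G h1, unionDist_ne G h2, unionDist_ne G h3]
          linarith
  · intro n x y
    exact unionDist_same G n x y
  · intro n k hnk x y
    rw [unionDist_ne G hnk]

end L2LP
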