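import Pool.Agent.Helper44.LP.Defs

/-!
# Uniform data on finite groups, and general lemmas for the final statements
-/

namespace L2LP

open Filter MeasureTheory

/-- uniform data on a sequence of finite groups, as produced by the core theorem -/
structure UnifData.{u} (Ga : ℕ → Type) [∀ n, Group (Ga n)] [∀ n, Fintype (Ga n)]
    (S : ∀ n, Finset (Ga n)) (J : ℕ → Type) [∀ n, Fintype (J n)] (F : ∀ n, Ga n → J n → ℝ) : Prop where
  card : ∀ n, (S n).card ≤ 6
  gen : ∀ n, Subgroup.closure (S n : Set (Ga n)) = ⊤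
  hilb : ∀ (n : ℕ) (Hs : Type u) [NormedAddCommGroup Hs] [InnerProductSpace ℝ Hs] (f : Ga n → Hs),
        (∀ g, ∀ s ∈ S n, ‖f (g * s) - f g‖ ≤ 1) →
        ∃ g h : Ga n, n ≤ (SimpleGraph.mulCayley (S n : Set (Ga n))).dist g h ∧
          ‖f g - f h‖ ≤ 300
  lip : ∀ P : ℝ, 64 ≤ P → ∀ n g, ∀ s ∈ S n, ∑ j, |F n (g * s) j - F n g j| ^ P ≤ 2
  low : ∀ P : ℝ, 64 ≤ P → ∀ R : ℝ, ∃ rho : ℕ, ∀ n g h, ∑ j, |F n g j - F n h j| ^ P ≤ R →
          (SimpleGraph.mulCayley (S n : Set (Ga n))).dist g h ≤ rho

theorem lintegral_count_fin {iota : Type} [MeasurableSpace iota] [MeasurableSingletonClass iota]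
    (a : iota →₀ ℝ) (P : ℝ) (hP : 0 < P) :
    ∫⁻ x, ‖a x‖ₑ ^ P ∂(Measure.count : Measure iota)
      = ENNReal.ofReal (∑ i ∈ a.support, |a i| ^ P) := by
  rw [lintegral_count]
  rw [tsum_eq_sum (s := a.support)]
  · rw [ENNReal.ofReal_sum_of_nonneg (fun i _ => Real.rpow_nonneg (abs_nonneg _) _)]
    refine Finset.sum_congr rfl fun i _ => ?_
    rw [← ENNReal.ofReal_rpow_of_nonneg (abs_nonneg _) hP.le, Real.enorm_eq_ofReal_abs]
  · intro i hi
    rw [Finsupp.notMem_support_iff] at hi
    rw [hi]
    simp [hP]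

/-- finitely supported functions inside `L^p` of the counting measure -/
theorem exists_Lp_count (iota : Type) (p : ENNReal) [Fact (1 ≤ p)] (hp : p ≠ ⊤) :
    ∃ (_ : MeasurableSpace iota) (mu : Measure iota) (Phi : (iota →₀ ℝ) → Lp ℝ p mu),
      ∀ a b, ‖Phi a - Phi b‖ ^ p.toReal = ∑ i ∈ (a - b).support, |a i - b i| ^ p.toReal := by
  let mI : MeasurableSpace iota := ⊤
  have : MeasurableSingletonClass iota := ⟨fun _ => trivial⟩
  have hp1 : 1 ≤ p := Fact.out
  have hp0 : p ≠ 0 := by
    intro h; rw [h] at hp1; simp at hp1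
  have hP : 0 < p.toReal := ENNReal.toReal_pos hp0 hp
  have hnorm : ∀ a : iota →₀ ℝ, eLpNorm (fun x => a x) p (Measure.count : Measure iota)
      = ENNReal.ofReal ((∑ i ∈ a.support, |a i| ^ p.toReal) ^ (1 / p.toReal)) := by
    intro a
    rw [eLpNorm_eq_lintegral_rpow_enorm_toReal hp0 hp, lintegral_count_fin a _ hP]
    rw [ENNReal.ofReal_rpow_of_nonneg]
    · exact Finset.sum_nonneg fun i _ => Real.rpow_nonneg (abs_nonneg _) _
    · positivity
  have hmem : ∀ a : iota →₀ ℝ, MemLp (fun x => a x) p (Measure.count : Measure iota) := by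
    intro a
    refine ⟨(measurable_from_top).aestronglyMeasurable, ?_⟩
    rw [hnorm]
    exact ENNReal.ofReal_lt_top
  refine ⟨mI, Measure.count, fun a => (hmem a).toLp _, ?_⟩
  intro a b
  rw [← MemLp.toLp_sub, Lp.norm_toLp]
  have e : ((fun x => a x) - fun x => b x) = fun x => (a - b) x := by
    funext x
    simp
  have hs : 0 ≤ ∑ i ∈ (a - b).support, |(a - b) i| ^ p.toReal :=
    Finset.sum_nonneg fun i _ => Real.rpow_nonneg (abs_nonneg _) _
  rw [e, hnorm, ENNReal.toReal_ofReal (Real.rpow_nonneg hs _), ← Real.rpow_mul hs,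
    one_div_mul_cancel hP.ne', Real.rpow_one]
  rfl

/-- the Cayley graph of a generating set of a finite group is connected -/
theorem cayley_connected {G : Type*} [Group G] (S : Set G) (hS : Subgroup.closure S = ⊤) :
    (SimpleGraph.mulCayley S).Connected := by
  have hadj : ∀ (g s : G), s ∈ S → (SimpleGraph.mulCayley S).Reachable g (g * s) := by
    intro g s hs
    by_cases hg : g = g * s
    · rw [← hg]
    · apply SimpleGraph.Adj.reachable
      rw [SimpleGraph.mulCayley_adj']
      exact ⟨hg, s, hs, Or.inl rfl⟩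
  have hall : ∀ x : G, ∀ g : G, (SimpleGraph.mulCayley S).Reachable g (g * x) := by
    intro x
    have hx : x ∈ Subgroup.closure S := by rw [hS]; trivial
    induction hx using Subgroup.closure_induction with
    | mem x hx => exact fun g => hadj g x hx
    | one => intro g; rw [mul_one]
    | mul x y _ _ hx hy =>
      intro g
      rw [← mul_assoc]
      exact (hx g).trans (hy (g * x))
    | inv x _ hx =>
      intro g
      have := hx (g * x⁻¹)
      rw [inv_mul_cancel_right] at this
      exact this.symm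
  have : Nonempty G := ⟨1⟩
  refine SimpleGraph.Connected.mk ?_
  intro g h
  have := hall (g⁻¹ * h) g
  rwa [mul_inv_cancel_left] at this

/-- a map which moves by at most `1` along generators is 1-Lipschitz for the graph distance -/
theorem lip_of_gen {V E : Type*} [NormedAddCommGroup E] (G : SimpleGraph V) (hG : G.Connected)
    (f : V → E) (c : ℝ) (hf : ∀ x y, G.Adj x y → ‖f x - f y‖ ≤ c) (x y : V) :
    ‖f x - f y‖ ≤ c * G.dist x y := by
  have hw : ∀ {x y : V} (w : G.Walk x y), ‖f x - f y‖ ≤ c * w.length := by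
    intro x y w
    induction w with
    | nil => simp
    | cons h w ih =>
      rw [SimpleGraph.Walk.length_cons]
      push_cast
      have h1 := hf _ _ h
      have h2 := (norm_sub_le_norm_sub_add_norm_sub _ _ _).trans (add_le_add h1 ih)
      linarith
  obtain ⟨w, hwl⟩ := hG.exists_walk_length_eq_dist x y
  rw [← hwl]
  exact hw w

end L2LP
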