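import Pool.Agent.Helper44.LP.Words

/-!
# Permutations of a finite set with large girth
-/

namespace L2LP

section
variable (I : Type) [Fintype I] [DecidableEq I] (n : ℕ)

/-- the ball of radius `n` in the free group -/
private abbrev FB : Type := {x : FreeGroup I // x.norm ≤ n}

private theorem FB_finite : Finite (FB I n) := by
  have h : Finite {l : List (I × Bool) // l.length ≤ n} :=
    (List.finite_length_le (I × Bool) n).to_subtype
  exact Finite.of_injective
    (fun x : FB I n => (⟨x.1.toWord, x.2⟩ : {l : List (I × Bool) // l.length ≤ n}))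
    (fun x y hxy => Subtype.ext (FreeGroup.toWord_injective (congrArg Subtype.val hxy)))

variable {I n}

/-- left multiplication by a generator, where it stays in the ball -/
private def part (i : I) :
    {x : FB I n // (FreeGroup.of i * x.1).norm ≤ n} ≃
      {x : FB I n // ((FreeGroup.of i)⁻¹ * x.1).norm ≤ n} where
  toFun x := ⟨⟨FreeGroup.of i * x.1.1, x.2⟩, by
    have h : (FreeGroup.of i)⁻¹ * (FreeGroup.of i * x.1.1) = x.1.1 := by simp
    show ((FreeGroup.of i)⁻¹ * (FreeGroup.of i * x.1.1)).norm ≤ n
    rw [h]; exact x.1.2⟩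
  invFun x := ⟨⟨(FreeGroup.of i)⁻¹ * x.1.1, x.2⟩, by
    have h : FreeGroup.of i * ((FreeGroup.of i)⁻¹ * x.1.1) = x.1.1 := by simp
    show (FreeGroup.of i * ((FreeGroup.of i)⁻¹ * x.1.1)).norm ≤ n
    rw [h]; exact x.1.2⟩
  left_inv x := by
    apply Subtype.ext; apply Subtype.ext
    show (FreeGroup.of i)⁻¹ * (FreeGroup.of i * x.1.1) = x.1.1
    simp
  right_inv x := by
    apply Subtype.ext; apply Subtype.ext
    show FreeGroup.of i * ((FreeGroup.of i)⁻¹ * x.1.1) = x.1.1
    simp

end

theorem exists_girth (I : Type) [Fintype I] [DecidableEq I] (n : ℕ) :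
    ∃ (Z : Type) (_ : Fintype Z) (_ : DecidableEq Z) (t : I → Equiv.Perm Z), GirthGT t n := by
  classical
  have := FB_finite I n
  let _ : Fintype (FB I n) := Fintype.ofFinite _
  let t : I → Equiv.Perm (FB I n) := fun i => Equiv.extendSubtype (part i)
  have ht : ∀ (i : I) (x : FB I n) (h : (FreeGroup.of i * x.1).norm ≤ n),
      t i x = ⟨FreeGroup.of i * x.1, h⟩ := by
    intro i x h
    have := Equiv.extendSubtype_apply_of_mem (part i) x h
    exact this
  refine ⟨FB I n, inferInstance, inferInstance, t, ?_⟩
  have h1 : ∀ L : List (I × Bool), ∀ (hL : L.length ≤ n),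
      wordVal t L ⟨1, by simp⟩ = ⟨FreeGroup.mk L, FreeGroup.norm_mk_le.trans hL⟩ := by
    intro L
    induction L with
    | nil => intro _; simp [wordVal, FreeGroup.one_eq_mk]
    | cons p L ih =>
      intro hL
      have hL' : L.length ≤ n := by rw [List.length_cons] at hL; omega
      have h2 : wordVal t (p :: L) = letterVal t p * wordVal t L := by simp [wordVal]
      rw [h2, Equiv.Perm.mul_apply, ih hL']
      obtain ⟨i, b⟩ := p
      cases b
      · have h3 : FreeGroup.of i * FreeGroup.mk ((i, false) :: L) = FreeGroup.mk L := by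
          rw [show FreeGroup.mk ((i, false) :: L) = (FreeGroup.of i)⁻¹ * FreeGroup.mk L by
            rw [FreeGroup.of, FreeGroup.inv_mk, FreeGroup.mul_mk]; rfl]
          simp
        simp only [letterVal, Bool.false_eq_true, if_false]
        rw [Equiv.Perm.inv_eq_iff_eq, ht i ⟨FreeGroup.mk ((i, false) :: L), FreeGroup.norm_mk_le.trans hL⟩
          (by show (FreeGroup.of i * FreeGroup.mk ((i, false) :: L)).norm ≤ n
              rw [h3]; exact FreeGroup.norm_mk_le.trans hL')]
        exact Subtype.ext h3.symm
      · have h3 : FreeGroup.of i * FreeGroup.mk L = FreeGroup.mk ((i, true) :: L) := by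
          rw [FreeGroup.of, FreeGroup.mul_mk]; rfl
        simp only [letterVal, if_true]
        rw [ht i ⟨FreeGroup.mk L, FreeGroup.norm_mk_le.trans hL'⟩
          (by show (FreeGroup.of i * FreeGroup.mk L).norm ≤ n
              rw [h3]; exact FreeGroup.norm_mk_le.trans hL)]
        exact Subtype.ext h3
  intro L hne hL hred h
  have h2 := h1 L hL
  rw [h] at h2
  have h3 : FreeGroup.mk L = 1 := (congrArg Subtype.val h2).symm
  have h4 : FreeGroup.IsReduced L := by
    unfold Red at hred
    unfold FreeGroup.IsReduced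
    refine hred.imp ?_
    intro a b hab h5
    by_contra h6
    exact hab ⟨h5, h6⟩
  rw [FreeGroup.one_eq_mk] at h3
  obtain ⟨c, h5, h6⟩ := FreeGroup.Red.exact.1 h3
  rw [h4.red_iff_eq] at h5
  rw [FreeGroup.Red.nil_iff] at h6
  exact hne (h5.symm.trans h6)

end L2LP
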