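import Pool.Agent.Helper44.LP.Block

/-!
# Existence of the sequence of primes
-/

namespace L2LP

open Finset

/-- integer 16-th root -/
def lam (p : ℕ) : ℕ := Nat.sqrt (Nat.sqrt (Nat.sqrt (Nat.sqrt p)))

theorem lam_pow_le (p : ℕ) : lam p ^ 16 ≤ p := by
  unfold lam
  have h1 := Nat.sqrt_le' p
  have h2 := Nat.sqrt_le' (Nat.sqrt p)
  have h3 := Nat.sqrt_le' (Nat.sqrt (Nat.sqrt p))
  have h4 := Nat.sqrt_le' (Nat.sqrt (Nat.sqrt (Nat.sqrt p)))
  set a := Nat.sqrt p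
  set b := Nat.sqrt a
  set c := Nat.sqrt b
  set d := Nat.sqrt c
  calc d ^ 16 = (d ^ 2) ^ 8 := by ring
    _ ≤ c ^ 8 := Nat.pow_le_pow_left h4 8
    _ = (c ^ 2) ^ 4 := by ring
    _ ≤ b ^ 4 := Nat.pow_le_pow_left h3 4
    _ = (b ^ 2) ^ 2 := by ring
    _ ≤ a ^ 2 := Nat.pow_le_pow_left h2 2
    _ ≤ p := h1

theorem lt_lam_succ_pow (p : ℕ) : p < (lam p + 1) ^ 16 := by
  unfold lam
  have h1 := Nat.lt_succ_sqrt' p
  have h2 := Nat.lt_succ_sqrt' (Nat.sqrt p)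
  have h3 := Nat.lt_succ_sqrt' (Nat.sqrt (Nat.sqrt p))
  have h4 := Nat.lt_succ_sqrt' (Nat.sqrt (Nat.sqrt (Nat.sqrt p)))
  set a := Nat.sqrt p
  set b := Nat.sqrt a
  set c := Nat.sqrt b
  set d := Nat.sqrt c
  have h2' : a + 1 ≤ (b + 1) ^ 2 := h2
  have h3' : b + 1 ≤ (c + 1) ^ 2 := h3
  have h4' : c + 1 ≤ (d + 1) ^ 2 := h4
  calc p < (a + 1) ^ 2 := h1
    _ ≤ ((b + 1) ^ 2) ^ 2 := Nat.pow_le_pow_left h2' 2
    _ = (b + 1) ^ 4 := by ring
    _ ≤ ((c + 1) ^ 2) ^ 4 := Nat.pow_le_pow_left h3' 4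
    _ = (c + 1) ^ 8 := by ring
    _ ≤ ((d + 1) ^ 2) ^ 8 := Nat.pow_le_pow_left h4' 8
    _ = (d + 1) ^ 16 := by ring

theorem le_lam_of_pow_le {k p : ℕ} (h : k ^ 16 ≤ p) : k ≤ lam p := by
  have h2 := lt_lam_succ_pow p
  have h3 : k ^ 16 < (lam p + 1) ^ 16 := lt_of_le_of_lt h h2
  have := lt_of_pow_lt_pow_left₀ 16 (by omega) h3
  omega

theorem exists_nxt (p : ℕ) : ∃ p' : ℕ, 0 < p → (p'.Prime ∧ p * (Nat.sqrt p + 1) < p' ∧
    p' ≤ 2 * (p * (Nat.sqrt p + 1))) := by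
  by_cases hp : 0 < p
  · have hn : p * (Nat.sqrt p + 1) ≠ 0 := by positivity
    obtain ⟨p', h1, h2, h3⟩ := Nat.exists_prime_lt_and_le_two_mul _ hn
    exact ⟨p', fun _ => ⟨h1, h2, h3⟩⟩
  · exact ⟨0, fun h => absurd h hp⟩

/-- the next prime -/
noncomputable def nxt (p : ℕ) : ℕ := (exists_nxt p).choose

theorem nxt_spec {p : ℕ} (hp : 0 < p) : (nxt p).Prime ∧ p * (Nat.sqrt p + 1) < nxt p ∧
    nxt p ≤ 2 * (p * (Nat.sqrt p + 1)) := (exists_nxt p).choose_spec hp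

/-- one step: state (prime, position in stage, number of completed stages) -/
noncomputable def stp (x : ℕ × ℕ × ℕ) : ℕ × ℕ × ℕ :=
  if x.2.1 + 1 < lam x.1 ^ 2 then (x.1, x.2.1 + 1, x.2.2) else (nxt x.1, 0, x.2.2 + 1)

noncomputable def stt (p0 : ℕ) : ℕ → ℕ × ℕ × ℕ
  | 0 => (p0, 0, 0)
  | r + 1 => stp (stt p0 r)

section
variable {p0 : ℕ} (hp0 : p0.Prime) (hbig : 60000 ^ 16 ≤ p0)

include hbig in
theorem lam_big : ∀ p, p0 ≤ p → 60000 ≤ lam p := fun _ hp => le_lam_of_pow_le (hbig.trans hp)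

include hp0 hbig in
theorem stt_inv (r : ℕ) : (stt p0 r).1.Prime ∧ p0 ≤ (stt p0 r).1 ∧
    (stt p0 r).2.1 < lam (stt p0 r).1 ^ 2 := by
  induction r with
  | zero =>
    refine ⟨hp0, le_refl _, ?_⟩
    have := lam_big hbig p0 le_rfl
    show 0 < lam p0 ^ 2
    positivity
  | succ r ih =>
    obtain ⟨h1, h2, h3⟩ := ih
    show (stp (stt p0 r)).1.Prime ∧ p0 ≤ (stp (stt p0 r)).1 ∧
      (stp (stt p0 r)).2.1 < lam (stp (stt p0 r)).1 ^ 2
    unfold stp
    split_ifs with h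
    · exact ⟨h1, h2, h⟩
    · obtain ⟨g1, g2, g3⟩ := nxt_spec h1.pos
      have g4 : p0 ≤ nxt (stt p0 r).1 := by
        have : (stt p0 r).1 ≤ (stt p0 r).1 * (Nat.sqrt (stt p0 r).1 + 1) :=
          Nat.le_mul_of_pos_right _ (by omega)
        omega
      refine ⟨g1, g4, ?_⟩
      have := lam_big hbig _ g4
      show 0 < lam (nxt (stt p0 r).1) ^ 2
      positivity

/-- the prime of level r -/
noncomputable def qq (p0 r : ℕ) : ℕ := (stt p0 r).1

noncomputable def ee (p0 r : ℕ) : ℝ := 1 / (lam (qq p0 r) : ℝ) ^ 3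

noncomputable def gg (p0 r : ℕ) : ℝ :=
  (stt p0 r).2.2 + (stt p0 r).2.1 / (lam (stt p0 r).1 : ℝ) ^ 2

include hp0 hbig in
theorem qq_succ (r : ℕ) : qq p0 (r + 1) = qq p0 r ∨
    (qq p0 r * (Nat.sqrt (qq p0 r) + 1) < qq p0 (r + 1) ∧
      qq p0 (r + 1) ≤ 2 * (qq p0 r * (Nat.sqrt (qq p0 r) + 1))) := by
  obtain ⟨h1, h2, h3⟩ := stt_inv hp0 hbig r
  have e : qq p0 (r + 1) = (stp (stt p0 r)).1 := rfl
  rw [e]
  unfold stp
  split_ifs with h
  · left; rfl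
  · right
    obtain ⟨g1, g2, g3⟩ := nxt_spec h1.pos
    exact ⟨g2, g3⟩

include hp0 hbig in
theorem gg_succ (r : ℕ) : gg p0 (r + 1) = gg p0 r + 1 / (lam (qq p0 r) : ℝ) ^ 2 := by
  obtain ⟨h1, h2, h3⟩ := stt_inv hp0 hbig r
  have hl := lam_big hbig _ h2
  have hl' : (0 : ℝ) < lam (stt p0 r).1 := by
    have : 0 < lam (stt p0 r).1 := by omega
    exact_mod_cast this
  unfold gg qq
  have e : stt p0 (r + 1) = stp (stt p0 r) := rfl
  rw [e]
  unfold stp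
  split_ifs with h
  · push_cast
    field_simp
    ring
  · have hi : (stt p0 r).2.1 + 1 = lam (stt p0 r).1 ^ 2 := by omega
    have hi' : ((stt p0 r).2.1 : ℝ) + 1 = (lam (stt p0 r).1 : ℝ) ^ 2 := by exact_mod_cast hi
    have h5 : ((stt p0 r).2.1 : ℝ) / (lam (stt p0 r).1 : ℝ) ^ 2 + 1 / (lam (stt p0 r).1 : ℝ) ^ 2 = 1 := by
      rw [← add_div, hi', div_self (by positivity)]
    have h6 : (((0 : ℕ) : ℝ)) / (lam (nxt (stt p0 r).1) : ℝ) ^ 2 = 0 := by simp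
    rw [h6]
    push_cast
    linarith

/-- potential -/
noncomputable def pot (p0 r : ℕ) : ℝ :=
  ((lam (stt p0 r).1 : ℝ) ^ 2 - (stt p0 r).2.1) / (lam (stt p0 r).1 : ℝ) ^ 3
    + 2 / (lam (stt p0 r).1 : ℝ)

include hp0 hbig in
theorem pot_step (r : ℕ) : pot p0 (r + 1) + ee p0 r ≤ pot p0 r := by
  obtain ⟨h1, h2, h3⟩ := stt_inv hp0 hbig r
  have hl := lam_big hbig _ h2
  have hl' : (60000 : ℝ) ≤ lam (stt p0 r).1 := by exact_mod_cast hl
  have hlpos : (0 : ℝ) < lam (stt p0 r).1 := by linarith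
  unfold pot ee qq
  have e : stt p0 (r + 1) = stp (stt p0 r) := rfl
  rw [e]
  unfold stp
  split_ifs with h
  · push_cast
    apply le_of_eq
    field_simp
    ring
  · have hi : (stt p0 r).2.1 + 1 = lam (stt p0 r).1 ^ 2 := by omega
    have hi' : ((stt p0 r).2.1 : ℝ) + 1 = (lam (stt p0 r).1 : ℝ) ^ 2 := by exact_mod_cast hi
    obtain ⟨g1, g2, g3⟩ := nxt_spec h1.pos
    have hlam2 : 2 * lam (stt p0 r).1 ≤ lam (nxt (stt p0 r).1) := by
      apply le_lam_of_pow_le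
      have k1 := lam_pow_le (stt p0 r).1
      have k2 : lam (stt p0 r).1 ^ 8 ≤ Nat.sqrt (stt p0 r).1 := by
        rw [Nat.le_sqrt']
        calc (lam (stt p0 r).1 ^ 8) ^ 2 = lam (stt p0 r).1 ^ 16 := by ring
          _ ≤ _ := k1
      have k3 : 2 ^ 16 ≤ lam (stt p0 r).1 ^ 8 := by
        calc 2 ^ 16 ≤ 60000 ^ 8 := by norm_num
          _ ≤ _ := Nat.pow_le_pow_left hl 8
      calc (2 * lam (stt p0 r).1) ^ 16 = lam (stt p0 r).1 ^ 16 * 2 ^ 16 := by ring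
        _ ≤ (stt p0 r).1 * (Nat.sqrt (stt p0 r).1 + 1) := Nat.mul_le_mul k1 (by omega)
        _ ≤ _ := g2.le
    have hlam2' : 2 * (lam (stt p0 r).1 : ℝ) ≤ lam (nxt (stt p0 r).1) := by exact_mod_cast hlam2
    set x : ℝ := (lam (stt p0 r).1 : ℝ) with hx
    set y : ℝ := (lam (nxt (stt p0 r).1) : ℝ) with hy
    have hypos : 0 < y := by linarith
    have e1 : (y ^ 2 - ((0 : ℕ) : ℝ)) / y ^ 3 + 2 / y = 3 / y := by
      push_cast
      field_simp
      ring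
    have e2 : (x ^ 2 - ((stt p0 r).2.1 : ℝ)) / x ^ 3 + 2 / x = 1 / x ^ 3 + 2 / x := by
      congr 2
      linarith
    rw [e1, e2]
    have e3 : 3 / y ≤ 2 / x := by
      rw [div_le_div_iff₀ hypos hlpos]
      linarith
    linarith

include hp0 hbig in
theorem pot_nonneg (r : ℕ) : 0 ≤ pot p0 r := by
  obtain ⟨h1, h2, h3⟩ := stt_inv hp0 hbig r
  have hl := lam_big hbig _ h2
  have h3' : ((stt p0 r).2.1 : ℝ) ≤ (lam (stt p0 r).1 : ℝ) ^ 2 := by exact_mod_cast h3.le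
  unfold pot
  have : 0 ≤ (lam (stt p0 r).1 : ℝ) ^ 2 - (stt p0 r).2.1 := by linarith
  positivity

include hp0 hbig in
theorem ee_sum (m : ℕ) : ∑ r ∈ range m, ee p0 r ≤ 1 / 20000 := by
  have h : ∀ m, ∑ r ∈ range m, ee p0 r ≤ pot p0 0 - pot p0 m := by
    intro m
    induction m with
    | zero => simp
    | succ m ih =>
      rw [Finset.sum_range_succ]
      have := pot_step hp0 hbig m
      linarith
  have h1 := h m
  have h2 := pot_nonneg hp0 hbig m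
  have h3 : pot p0 0 ≤ 1 / 20000 := by
    have hl := lam_big hbig p0 le_rfl
    have hl' : (60000 : ℝ) ≤ lam p0 := by exact_mod_cast hl
    have hpos : (0 : ℝ) < lam p0 := by linarith
    have e : pot p0 0 = 3 / (lam p0 : ℝ) := by
      unfold pot
      show ((lam p0 : ℝ) ^ 2 - ((0 : ℕ) : ℝ)) / (lam p0 : ℝ) ^ 3 + 2 / (lam p0 : ℝ) = _
      push_cast
      field_simp
      ring
    rw [e, div_le_div_iff₀ hpos (by norm_num)]
    linarith
  linarith

include hp0 hbig in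
theorem stage (r : ℕ) (hr : (stt p0 r).2.1 = 0) :
    ∀ j, j < lam (stt p0 r).1 ^ 2 → stt p0 (r + j) = ((stt p0 r).1, j, (stt p0 r).2.2) := by
  intro j
  induction j with
  | zero =>
    intro _
    rw [add_zero]
    ext
    · rfl
    · exact hr
    · rfl
  | succ j ih =>
    intro hj
    have h := ih (by omega)
    have e : stt p0 (r + (j + 1)) = stp (stt p0 (r + j)) := rfl
    rw [e, h]
    unfold stp
    simp only
    rw [if_pos hj]

include hp0 hbig in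
theorem stage_end (k : ℕ) : ∃ r, (stt p0 r).2.1 = 0 ∧ (stt p0 r).2.2 = k := by
  induction k with
  | zero => exact ⟨0, rfl, rfl⟩
  | succ k ih =>
    obtain ⟨r, h1, h2⟩ := ih
    obtain ⟨g1, g2, g3⟩ := stt_inv hp0 hbig r
    have hl := lam_big hbig _ g2
    have hl2 : 0 < lam (stt p0 r).1 ^ 2 := by positivity
    obtain ⟨n, hn⟩ : ∃ n, lam (stt p0 r).1 ^ 2 = n + 1 := Nat.exists_eq_succ_of_ne_zero hl2.ne'
    have h := stage hp0 hbig r h1 n (by rw [hn]; exact Nat.lt_succ_self n)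
    have e : stt p0 (r + n + 1) = stp (stt p0 (r + n)) := rfl
    have hneg : ¬ (n + 1 < lam (stt p0 r).1 ^ 2) := by rw [hn]; exact lt_irrefl _
    refine ⟨r + n + 1, ?_, ?_⟩
    · rw [e, h]
      unfold stp
      rw [if_neg hneg]
    · rw [e, h]
      unfold stp
      rw [if_neg hneg]
      show (stt p0 r).2.2 + 1 = k + 1
      rw [h2]

include hp0 hbig in
theorem gg_mono : Monotone (gg p0) := by
  apply monotone_nat_of_le_succ
  intro r
  rw [gg_succ hp0 hbig]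
  have : (0 : ℝ) ≤ 1 / (lam (qq p0 r) : ℝ) ^ 2 := by positivity
  linarith

include hp0 hbig in
theorem gg_tendsto : Filter.Tendsto (gg p0) Filter.atTop Filter.atTop := by
  apply Filter.tendsto_atTop_atTop_of_monotone (gg_mono hp0 hbig)
  intro b
  obtain ⟨k, hk⟩ := exists_nat_ge b
  obtain ⟨r, h1, h2⟩ := stage_end hp0 hbig k
  refine ⟨r, ?_⟩
  unfold gg
  rw [h1, h2]
  push_cast
  have : (0 : ℝ) / (lam (stt p0 r).1 : ℝ) ^ 2 = 0 := by simp
  rw [this]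
  linarith

include hp0 hbig in
theorem sqrt_big (r : ℕ) : lam (qq p0 r) ^ 8 ≤ Nat.sqrt (qq p0 r) := by
  rw [Nat.le_sqrt']
  calc (lam (qq p0 r) ^ 8) ^ 2 = lam (qq p0 r) ^ 16 := by ring
    _ ≤ _ := lam_pow_le _

include hp0 hbig in
theorem qq_succ_le (r : ℕ) : (qq p0 (r + 1) : ℝ) ≤ 4 * (qq p0 r) * (Nat.sqrt (qq p0 r)) := by
  obtain ⟨h1, h2, h3⟩ := stt_inv hp0 hbig r
  have hl := lam_big hbig _ h2
  have hs := sqrt_big hp0 hbig r
  have hs1 : 1 ≤ Nat.sqrt (qq p0 r) := by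
    refine le_trans ?_ hs
    have : 0 < lam (qq p0 r) := by
      show 0 < lam (stt p0 r).1
      omega
    exact Nat.one_le_pow _ _ this
  have h : qq p0 (r + 1) ≤ 4 * (qq p0 r) * (Nat.sqrt (qq p0 r)) := by
    rcases qq_succ hp0 hbig r with h | ⟨_, h⟩
    · rw [h]
      nlinarith
    · refine h.trans ?_
      nlinarith
  exact_mod_cast h

include hp0 hbig in
theorem params_qq : Params (qq p0) (ee p0) := by
  have inv := stt_inv hp0 hbig
  have hprime : ∀ r, (qq p0 r).Prime := fun r => (inv r).1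
  have hge : ∀ r, p0 ≤ qq p0 r := fun r => (inv r).2.1
  have hl : ∀ r, 60000 ≤ lam (qq p0 r) := fun r => lam_big hbig _ (hge r)
  have hlR : ∀ r, (60000 : ℝ) ≤ lam (qq p0 r) := fun r => by exact_mod_cast hl r
  have hs : ∀ r, 60000 ^ 8 ≤ Nat.sqrt (qq p0 r) := fun r =>
    (Nat.pow_le_pow_left (hl r) 8).trans (sqrt_big hp0 hbig r)
  have hs4 : ∀ r, 4 ≤ Nat.sqrt (qq p0 r) := fun r => le_trans (by norm_num) (hs r)
  refine ⟨?_, ?_, ?_, ?_, ?_, ?_, ?_, ?_, ee_sum hp0 hbig⟩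
  · intro r h
    have := hs4 r
    rw [h] at this
    have h2 := Nat.sqrt_le_self 2
    omega
  · intro r
    rcases qq_succ hp0 hbig r with h | ⟨h, _⟩
    · exact h.ge
    · have : qq p0 r ≤ qq p0 r * (Nat.sqrt (qq p0 r) + 1) := Nat.le_mul_of_pos_right _ (by omega)
      omega
  · intro r
    have h4 := hs4 r
    have hsq := Nat.sqrt_le' (qq p0 r)
    have hpos := (hprime r).pos
    rcases qq_succ hp0 hbig r with h | ⟨_, h⟩
    · rw [h, Nat.div_self hpos]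
      nlinarith
    · have h5 : qq p0 (r + 1) / qq p0 r ≤ 2 * (Nat.sqrt (qq p0 r) + 1) := by
        apply Nat.div_le_of_le_mul
        calc qq p0 (r + 1) ≤ 2 * (qq p0 r * (Nat.sqrt (qq p0 r) + 1)) := h
          _ = qq p0 r * (2 * (Nat.sqrt (qq p0 r) + 1)) := by ring
      nlinarith
  · intro r
    have hpos := (hprime r).pos
    rcases qq_succ hp0 hbig r with h | ⟨h, _⟩
    · left; exact h
    · right
      have h5 : Nat.sqrt (qq p0 r) + 1 ≤ qq p0 (r + 1) / qq p0 r := by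
        rw [Nat.le_div_iff_mul_le hpos]
        calc (Nat.sqrt (qq p0 r) + 1) * qq p0 r = qq p0 r * (Nat.sqrt (qq p0 r) + 1) := by ring
          _ ≤ _ := h.le
      calc qq p0 r ≤ (Nat.sqrt (qq p0 r) + 1) ^ 2 := (Nat.lt_succ_sqrt' _).le
        _ ≤ _ := Nat.pow_le_pow_left h5 2
  · intro r
    have := hlR r
    unfold ee
    positivity
  · intro r
    have := hlR r
    unfold ee
    rw [div_le_one (by positivity)]
    exact one_le_pow₀ (by linarith)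
  · intro r
    have h1 := hlR r
    have h2 : ((lam (qq p0 r) : ℝ)) ^ 16 ≤ qq p0 r := by exact_mod_cast lam_pow_le (qq p0 r)
    have hq : (0 : ℝ) < qq p0 r := by exact_mod_cast (hprime r).pos
    unfold ee
    set x : ℝ := (lam (qq p0 r) : ℝ)
    have hx : 0 < x := by linarith
    have e : (1 / x ^ 3) ^ 3 = 1 / x ^ 9 := by rw [div_pow, one_pow, ← pow_mul]
    rw [e, div_le_div_iff₀ hq (by positivity)]
    have h7 : (16 : ℝ) ≤ x ^ 7 := by
      calc (16 : ℝ) ≤ x := by linarith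
        _ = x ^ 1 := (pow_one x).symm
        _ ≤ x ^ 7 := pow_le_pow_right₀ (by linarith) (by norm_num)
    calc 16 * x ^ 9 ≤ x ^ 7 * x ^ 9 := mul_le_mul_of_nonneg_right h7 (by positivity)
      _ = x ^ 16 := by ring
      _ ≤ 1 * (qq p0 r : ℝ) := by linarith
  · intro r
    have h1 := hlR r
    have hq : (0 : ℝ) < qq p0 r := by exact_mod_cast (hprime r).pos
    have h3 := qq_succ_le hp0 hbig r
    have h4 : ((lam (qq p0 r) : ℝ)) ^ 8 ≤ Nat.sqrt (qq p0 r) := by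
      exact_mod_cast sqrt_big hp0 hbig r
    have h5 : ((Nat.sqrt (qq p0 r) : ℝ)) ^ 2 ≤ qq p0 r := by exact_mod_cast Nat.sqrt_le' (qq p0 r)
    unfold ee
    set x : ℝ := (lam (qq p0 r) : ℝ)
    set s : ℝ := (Nat.sqrt (qq p0 r) : ℝ)
    set Q : ℝ := (qq p0 r : ℝ)
    have hx : 0 < x := by linarith
    have hx8 : 0 < x ^ 8 := by positivity
    have hs0 : 0 < s := by linarith
    have h6 : 8 * x ^ 3 ≤ x ^ 8 := by
      have : (8 : ℝ) ≤ x ^ 5 := by
        calc (8 : ℝ) ≤ x := by linarith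
          _ = x ^ 1 := (pow_one x).symm
          _ ≤ x ^ 5 := pow_le_pow_right₀ (by linarith) (by norm_num)
      calc 8 * x ^ 3 ≤ x ^ 5 * x ^ 3 := mul_le_mul_of_nonneg_right this (by positivity)
        _ = x ^ 8 := by ring
    rw [div_le_div_iff₀ (by positivity) (by positivity)]
    calc 2 * (qq p0 (r + 1) : ℝ) * x ^ 3 ≤ 2 * (4 * Q * s) * x ^ 3 := by
          apply mul_le_mul_of_nonneg_right _ (by positivity)
          linarith
      _ = (8 * x ^ 3) * (Q * s) := by ring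
      _ ≤ s * (Q * s) := mul_le_mul_of_nonneg_right (by linarith) (by positivity)
      _ = Q * s ^ 2 := by ring
      _ ≤ Q * Q := mul_le_mul_of_nonneg_left h5 hq.le
      _ = 1 * Q ^ 2 := by ring

include hp0 hbig in
theorem cost_qq (P : ℝ) (hP : 64 ≤ P) (m : ℕ) :
    2 * ∑ r ∈ range m, (qq p0 (r + 1) : ℝ) * |gg p0 (r + 1) - gg p0 r| ^ P ≤ 1 := by
  have hterm : ∀ r, (qq p0 (r + 1) : ℝ) * |gg p0 (r + 1) - gg p0 r| ^ P ≤ ee p0 r := by
    intro r
    obtain ⟨g1, g2, g3⟩ := stt_inv hp0 hbig r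
    have hl : (60000 : ℝ) ≤ lam (qq p0 r) := by exact_mod_cast lam_big hbig _ g2
    have e : gg p0 (r + 1) - gg p0 r = 1 / (lam (qq p0 r) : ℝ) ^ 2 := by
      rw [gg_succ hp0 hbig]; ring
    rw [e]
    have h3 := qq_succ_le hp0 hbig r
    have hq : (0 : ℝ) < qq p0 r := by
      have : 0 < qq p0 r := g1.pos
      exact_mod_cast this
    have h4 : (qq p0 r : ℝ) ≤ ((lam (qq p0 r) : ℝ) + 1) ^ 16 := by
      exact_mod_cast (lt_lam_succ_pow (qq p0 r)).le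
    have h5 : (Nat.sqrt (qq p0 r) : ℝ) ≤ qq p0 r := by exact_mod_cast Nat.sqrt_le_self _
    unfold ee
    set x : ℝ := (lam (qq p0 r) : ℝ)
    set Q : ℝ := (qq p0 r : ℝ)
    have hx : 0 < x := by linarith
    have hQ : Q ≤ (2 * x) ^ 16 :=
      h4.trans (pow_le_pow_left₀ (by positivity) (by linarith) 16)
    have hQ2 : (qq p0 (r + 1) : ℝ) ≤ 4 * ((2 * x) ^ 16) ^ 2 := by
      calc (qq p0 (r + 1) : ℝ) ≤ 4 * Q * (Nat.sqrt (qq p0 r) : ℝ) := h3
        _ ≤ 4 * Q * Q := mul_le_mul_of_nonneg_left h5 (by positivity)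
        _ = 4 * Q ^ 2 := by ring
        _ ≤ 4 * ((2 * x) ^ 16) ^ 2 :=
            mul_le_mul_of_nonneg_left (pow_le_pow_left₀ hq.le hQ 2) (by norm_num)
    have hd0 : 0 < 1 / x ^ 2 := by positivity
    have hd1 : 1 / x ^ 2 ≤ 1 := by
      rw [div_le_one (by positivity)]
      exact one_le_pow₀ (by linarith)
    have hpow : |1 / x ^ 2| ^ P ≤ (1 / x ^ 2) ^ (64 : ℕ) := by
      have e2 : (1 / x ^ 2) ^ (64 : ℕ) = (1 / x ^ 2) ^ ((64 : ℕ) : ℝ) := (Real.rpow_natCast _ _).symm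
      rw [abs_of_pos hd0, e2]
      exact Real.rpow_le_rpow_of_exponent_ge hd0 hd1 (by push_cast; linarith)
    calc (qq p0 (r + 1) : ℝ) * |1 / x ^ 2| ^ P
        ≤ (4 * ((2 * x) ^ 16) ^ 2) * (1 / x ^ 2) ^ (64 : ℕ) :=
          mul_le_mul hQ2 hpow (by positivity) (by positivity)
      _ = (4 * 2 ^ 32) * x ^ 32 / x ^ 128 := by
          rw [one_div, inv_pow, ← pow_mul, ← pow_mul, mul_pow, div_eq_mul_inv]
          ring
      _ ≤ 1 / x ^ 3 := by
          rw [div_le_div_iff₀ (by positivity) (by positivity)]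
          have h6 : (4 * 2 ^ 32 : ℝ) ≤ x ^ 93 := by
            calc (4 * 2 ^ 32 : ℝ) ≤ 60000 ^ 93 := by norm_num
              _ ≤ x ^ 93 := pow_le_pow_left₀ (by norm_num) hl 93
          calc 4 * 2 ^ 32 * x ^ 32 * x ^ 3 = (4 * 2 ^ 32) * x ^ 35 := by ring
            _ ≤ x ^ 93 * x ^ 35 := mul_le_mul_of_nonneg_right h6 (by positivity)
            _ = 1 * x ^ 128 := by ring
  have h1 : ∑ r ∈ range m, (qq p0 (r + 1) : ℝ) * |gg p0 (r + 1) - gg p0 r| ^ P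
      ≤ ∑ r ∈ range m, ee p0 r := Finset.sum_le_sum fun r _ => hterm r
  have h2 := ee_sum hp0 hbig m
  linarith

end

/-- There are odd primes `q_r`, thresholds `eps_r` and a level function `gl` with all required properties. -/
theorem exists_params :
    ∃ (q : ℕ → ℕ) (eps gl : ℕ → ℝ), (∀ r, (q r).Prime) ∧ Params q eps ∧
      gl 0 = 0 ∧ Monotone gl ∧ Filter.Tendsto gl Filter.atTop Filter.atTop ∧
      ∀ P : ℝ, 64 ≤ P → ∀ m, 2 * ∑ r ∈ range m, (q (r + 1) : ℝ) * |gl (r + 1) - gl r| ^ P ≤ 1 := by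
  obtain ⟨p0, hbig, hp0⟩ := Nat.exists_infinite_primes (60000 ^ 16)
  refine ⟨qq p0, ee p0, gg p0, fun r => (stt_inv hp0 hbig r).1, params_qq hp0 hbig, ?_,
    gg_mono hp0 hbig, gg_tendsto hp0 hbig, fun P hP m => cost_qq hp0 hbig P hP m⟩
  unfold gg
  show ((0 : ℕ) : ℝ) + ((0 : ℕ) : ℝ) / _ = 0
  simp

end L2LP
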