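import Pool.Agent.Helper44.LP.HilbertSide
import Pool.Agent.Helper44.LP.Girth
import Pool.Agent.Helper44.LP.ParamsEx
import Pool.Agent.Helper44.LP.FinalDefs

/-!
# Core theorem: the uniform family of finite groups
-/

namespace L2LP

open Finset

universe u

section words

variable {G : Type*} [Group G] {J : Type*} (s : J → G)

/-- a word of length `k` from `g` to `h` gives distance at most `k` -/
theorem dist_le_word (hc : (SimpleGraph.mulCayley (Set.range s)).Connected) (L : List (J × Bool)) :
    ∀ g : G, (SimpleGraph.mulCayley (Set.range s)).dist g (g * wordVal s L) ≤ L.length := by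
  induction L with
  | nil => intro g; simp [wordVal_nil]
  | cons p L ih =>
    intro g
    rw [wordVal_cons, ← mul_assoc]
    have h1 := ih (g * letterVal s p)
    have h2 : (SimpleGraph.mulCayley (Set.range s)).dist g (g * letterVal s p) ≤ 1 := by
      by_cases hg : g = g * letterVal s p
      · rw [← hg, SimpleGraph.dist_self]; omega
      · have hadj : (SimpleGraph.mulCayley (Set.range s)).Adj g (g * letterVal s p) := by
          rw [SimpleGraph.mulCayley_adj']
          refine ⟨hg, s p.1, ⟨p.1, rfl⟩, ?_⟩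
          unfold letterVal
          split_ifs with hb
          · left; rfl
          · right; group
        rw [SimpleGraph.dist_eq_one_iff_adj.mpr hadj]
    have h3 := hc.dist_triangle (u := g) (v := g * letterVal s p)
      (w := g * letterVal s p * wordVal s L)
    rw [List.length_cons]
    omega

/-- a walk gives a word -/
theorem word_of_walk {g h : G} (w : (SimpleGraph.mulCayley (Set.range s)).Walk g h) :
    ∃ L : List (J × Bool), L.length = w.length ∧ g * wordVal s L = h := by
  induction w with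
  | nil => exact ⟨[], rfl, by simp [wordVal_nil]⟩
  | cons hadj w ih =>
    obtain ⟨L, hL, hv⟩ := ih
    rw [SimpleGraph.mulCayley_adj'] at hadj
    obtain ⟨_, x, ⟨j, rfl⟩, h1⟩ := hadj
    rcases h1 with h1 | h1
    · refine ⟨(j, true) :: L, by simp [hL], ?_⟩
      rw [wordVal_cons, ← mul_assoc]
      simp only [letterVal, if_true]
      rw [h1, hv]
    · refine ⟨(j, false) :: L, by simp [hL], ?_⟩
      rw [wordVal_cons, ← mul_assoc]
      simp only [letterVal]
      rw [h1]
      simpa using hv

end words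

section family

variable {q : ℕ → ℕ} [hq : ∀ r, Fact (q r).Prime] {eps : ℕ → ℝ} (hp : Params q eps) (m : ℕ)

theorem card_good (r0 : ℕ) :
    (univ.filter (fun w : Blk q m => (w.1 : ℕ) < r0)).card ≤ ∑ i ∈ range r0, (q i) ^ 2 := by
  classical
  have h1 : (univ.filter (fun w : Blk q m => (w.1 : ℕ) < r0))
      = (univ.filter (fun r : Fin (m + 1) => (r : ℕ) < r0)).sigma
          (fun r => (univ : Finset (ZMod (q r) × ZMod (q r)))) := by
    ext w
    simp
  rw [h1, Finset.card_sigma]
  have h2 : ∀ r : Fin (m + 1), (univ : Finset (ZMod (q r) × ZMod (q r))).card = (q r) ^ 2 := by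
    intro r
    rw [Finset.card_univ, Fintype.card_prod, ZMod.card]
    ring
  simp only [h2]
  have h3 : ∑ r ∈ univ.filter (fun r : Fin (m + 1) => (r : ℕ) < r0), (q (r : ℕ)) ^ 2
      = ∑ i ∈ Finset.image (fun r : Fin (m + 1) => (r : ℕ))
        (univ.filter (fun r : Fin (m + 1) => (r : ℕ) < r0)), (q i) ^ 2 := by
    rw [Finset.sum_image]
    intro a _ b _ hab
    exact Fin.ext hab
  rw [h3]
  apply Finset.sum_le_sum_of_subset
  intro i hi
  simp only [Finset.mem_image, Finset.mem_filter, Finset.mem_univ, true_and] at hi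
  obtain ⟨a, ha, rfl⟩ := hi
  exact Finset.mem_range.mpr ha

end family

theorem dist_le_card {V : Type*} [Fintype V] (G : SimpleGraph V) (hG : G.Connected) (x y : V) :
    G.dist x y ≤ Fintype.card V := by
  classical
  obtain ⟨w⟩ := hG.preconnected x y
  have h1 := SimpleGraph.dist_le (w.toPath : G.Walk x y)
  have h2 := (w.toPath).2.length_lt
  omega

theorem core :
    ∃ (Ga : ℕ → Type) (_ : ∀ n, Group (Ga n)) (_ : ∀ n, Fintype (Ga n))
      (S : ∀ n, Finset (Ga n)) (J : ℕ → Type) (_ : ∀ n, Fintype (J n)) (F : ∀ n, Ga n → J n → ℝ),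
      UnifData.{u} Ga S J F := by
  classical
  obtain ⟨q, eps, gl, hprime, hp, hgl0, hglm, hglt, hcost⟩ := exists_params
  have hq : ∀ r, Fact (q r).Prime := fun r => ⟨hprime r⟩
  -- girth data
  choose Z hZ1 hZ2 t ht using fun n => exists_girth (Fin 5) n
  let GG : ∀ n, Subgroup (WG (Blk q n) (Z n) (Fin 5)) := fun n =>
    Subgroup.closure (Set.range (gen (bo q n) (sPerm hp n) (t n)))
  let Ga : ℕ → Type := fun n => GG n
  let iG : ∀ n, Group (Ga n) := fun n => inferInstanceAs (Group (GG n))
  let iF : ∀ n, Fintype (Ga n) := fun n => Fintype.ofFinite (GG n)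
  let gn : ∀ n, Option (Fin 5) → Ga n := fun n j =>
    (⟨gen (bo q n) (sPerm hp n) (t n) j, Subgroup.subset_closure ⟨j, rfl⟩⟩ : GG n)
  let S : ∀ n, Finset (Ga n) := fun n => univ.image (gn n)
  have hS : ∀ n, (S n : Set (Ga n)) = Set.range (gn n) := by
    intro n
    simp [S]
  let J : ℕ → Type := fun n => (Blk q n) ⊕ ((Equiv.Perm (Blk q n) × Equiv.Perm (Z n)) × Fin 5)
  let iJ : ∀ n, Fintype (J n) := fun n => inferInstanceAs
    (Fintype ((Blk q n) ⊕ ((Equiv.Perm (Blk q n) × Equiv.Perm (Z n)) × Fin 5)))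
  let F : ∀ n, Ga n → J n → ℝ := fun n g => FF (fun w => gl w.1) (g : GG n).1
  have hclos : ∀ n, Subgroup.closure (S n : Set (Ga n)) = ⊤ := by
    intro n
    rw [hS]
    have h : (Set.range (gn n)) = ((↑) : GG n → WG (Blk q n) (Z n) (Fin 5)) ⁻¹'
        (Set.range (gen (bo q n) (sPerm hp n) (t n))) := by
      ext x
      constructor
      · rintro ⟨j, rfl⟩
        exact ⟨j, rfl⟩
      · rintro ⟨j, hj⟩
        exact ⟨j, Subtype.ext hj⟩
    rw [h]
    exact Subgroup.closure_closure_coe_preimage
  have hconn : ∀ n, (SimpleGraph.mulCayley (Set.range (gn n))).Connected := by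
    intro n
    apply cayley_connected
    rw [← hS]
    exact hclos n
  -- words in Ga and in WG
  have hword : ∀ n (L : List (Option (Fin 5) × Bool)),
      ((wordVal (gn n) L : GG n) : WG (Blk q n) (Z n) (Fin 5))
        = wordVal (gen (bo q n) (sPerm hp n) (t n)) L := by
    intro n L
    induction L with
    | nil => rfl
    | cons p L ih =>
      rw [wordVal_cons, wordVal_cons]
      have h1 : ((letterVal (gn n) p : GG n) : WG (Blk q n) (Z n) (Fin 5))
          = letterVal (gen (bo q n) (sPerm hp n) (t n)) p := by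
        unfold letterVal
        split_ifs <;> rfl
      rw [← h1, ← ih]
      rfl
  have hG1 : ∀ P : ℝ, 64 ≤ P → ∀ n, ∀ i : Fin 5,
      ∑ w : Blk q n, |gl ((sPerm hp n i)⁻¹ w).1 - gl w.1| ^ P ≤ 1 := by
    intro P hP n i
    exact (weight_cost hp n gl P (by linarith) i).trans (hcost P hP n)
  refine ⟨Ga, iG, iF, S, J, iJ, F, ?_, hclos, ?_, ?_, ?_⟩
  · intro n
    refine Finset.card_image_le.trans ?_
    simp
  · intro n Hs _ _ f hf
    obtain ⟨g, g', w, h1, h2⟩ := hilbert_side hp n (t n) (GG n) rfl f (by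
      intro g g' j hj
      have : g' = g * gn n j := Subtype.ext hj
      rw [this]
      exact hf g (gn n j) (Finset.mem_image_of_mem _ (Finset.mem_univ _)))
    refine ⟨g, g', ?_, by rw [norm_sub_rev]; exact h2⟩
    rw [hS]
    obtain ⟨wk, hwk⟩ := (hconn n).exists_walk_length_eq_dist g g'
    obtain ⟨L, hL1, hL2⟩ := word_of_walk (gn n) wk
    rw [← hwk, ← hL1]
    have h3 : wordVal (gen (bo q n) (sPerm hp n) (t n)) L
        = lampE (Pi.single (⟨Fin.last n, w⟩ : Blk q n) 1) := by
      rw [← hword n L]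
      have h4 : ((g' : GG n) : WG (Blk q n) (Z n) (Fin 5))
          = (g : GG n) * ((wordVal (gn n) L : GG n) : WG (Blk q n) (Z n) (Fin 5)) := by
        rw [← hL2]; rfl
      rw [h4] at h1
      exact mul_left_cancel h1
    have h5 := level_dist hp n (t n) (⟨Fin.last n, w⟩ : Blk q n) L h3
    simpa using h5
  · intro P hP n g s hs
    rw [Finset.mem_image] at hs
    obtain ⟨j, _, rfl⟩ := hs
    exact FF_lip (bo q n) (sPerm hp n) (t n) (fun w => gl w.1) P (by linarith) hgl0
      (hG1 P hP n) (g : GG n).1 j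
  · intro P hP R
    set R' : ℝ := max R 0 with hR'
    have hR'0 : 0 ≤ R' := le_max_right _ _
    obtain ⟨r0, hr0⟩ := Filter.tendsto_atTop_atTop.mp hglt (R' + 1 + R' + 1)
    set N0 : ℕ := ∑ i ∈ range r0, (q i) ^ 2 with hN0
    set d : ℕ := ∑ i ∈ range r0, (2 * q i + 1) with hd
    set n0 : ℕ := ⌈R'⌉₊ with hn0
    refine ⟨(⌈R'⌉₊ + N0 * (2 * d + 1)) + ∑ n ∈ range n0, Fintype.card (Ga n), ?_⟩
    intro n g h hgh
    rw [hS]
    by_cases hn : n < n0
    · have h1 := dist_le_card _ (hconn n) g h
      have h2 : Fintype.card (Ga n) ≤ ∑ n ∈ range n0, Fintype.card (Ga n) :=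
        Finset.single_le_sum (f := fun n => Fintype.card (Ga n)) (fun _ _ => Nat.zero_le _)
          (Finset.mem_range.mpr hn)
      omega
    · have hRn : R' ≤ n := by
        have h1 : R' ≤ (n0 : ℝ) := Nat.le_ceil _
        have h2 : (n0 : ℝ) ≤ n := by exact_mod_cast not_lt.mp hn
        linarith
      have hglnn : ∀ r, 0 ≤ gl r := fun r => by rw [← hgl0]; exact hglm (Nat.zero_le r)
      obtain ⟨L, hL1, hL2⟩ := FF_lower (bo q n) (sPerm hp n) (t n) (fun w => gl w.1) P (by linarith)
        (fun w => hglnn _) hgl0 (hG1 P hP n) n (ht n) R' hR'0 hRn d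
        (univ.filter (fun w : Blk q n => (w.1 : ℕ) < r0))
        (by
          intro w hw
          rw [Finset.mem_filter]
          refine ⟨Finset.mem_univ _, ?_⟩
          by_contra hcon
          have := hr0 w.1 (not_lt.mp hcon)
          linarith)
        (by
          intro w hw
          rw [Finset.mem_filter] at hw
          obtain ⟨L, hL, hL'⟩ := reach hp n w
          refine ⟨L, hL.trans ?_, hL'⟩
          apply Finset.sum_le_sum_of_subset
          exact Finset.range_mono hw.2)
        (g : GG n).1 (h : GG n).1 (g : GG n).2 (h : GG n).2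
        (hgh.trans (le_max_left _ _))
      have h3 : (g : Ga n) * wordVal (gn n) L = h := by
        have : wordVal (gn n) L = g⁻¹ * h := by
          apply Subtype.ext
          rw [hword n L, hL2]
          rfl
        rw [this]; group
      have h4 := dist_le_word (gn n) (hconn n) L g
      rw [h3] at h4
      have h5 : (L.length : ℝ) ≤ ((⌈R'⌉₊ + N0 * (2 * d + 1) : ℕ) : ℝ) := by
        refine hL1.trans ?_
        push_cast
        have h6 : R' ≤ (⌈R'⌉₊ : ℝ) := Nat.le_ceil _
        have h7 : ((univ.filter (fun w : Blk q n => (w.1 : ℕ) < r0)).card : ℝ) ≤ (N0 : ℝ) := by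
          exact_mod_cast card_good n r0
        have h8 : (0 : ℝ) ≤ 2 * (d : ℝ) + 1 := by positivity
        have := mul_le_mul_of_nonneg_right h7 h8
        linarith
      have h9 : L.length ≤ ⌈R'⌉₊ + N0 * (2 * d + 1) := by exact_mod_cast h5
      omega

end L2LP
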