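import Pool.Agent.Helper44.LP.Words

/-!
# The group `(Z/2)^X x (Z/2)^E x| Q`, the homology cover and Lemma 6
-/

namespace L2LP

open Finset

/-- `(c, k, y)`: lamps on `X`, edge parities, position in `Q = Perm X x Perm Z` -/
@[ext] structure WG (X Z I : Type*) where
  c : X → ZMod 2
  k : (Equiv.Perm X × Equiv.Perm Z) × I → ZMod 2
  y : Equiv.Perm X × Equiv.Perm Z

namespace WG

variable {X Z I : Type*}

instance : Mul (WG X Z I) :=
  ⟨fun a b => ⟨fun w => a.c w + b.c (a.y.1⁻¹ w), fun e => a.k e + b.k (a.y⁻¹ * e.1, e.2), a.y * b.y⟩⟩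

instance : One (WG X Z I) := ⟨⟨0, 0, 1⟩⟩

instance : Inv (WG X Z I) :=
  ⟨fun a => ⟨fun w => - a.c (a.y.1 w), fun e => - a.k (a.y * e.1, e.2), a.y⁻¹⟩⟩

theorem mul_c (a b : WG X Z I) (w : X) : (a * b).c w = a.c w + b.c (a.y.1⁻¹ w) := rfl
theorem mul_k (a b : WG X Z I) (e : (Equiv.Perm X × Equiv.Perm Z) × I) :
    (a * b).k e = a.k e + b.k (a.y⁻¹ * e.1, e.2) := rfl
theorem mul_y (a b : WG X Z I) : (a * b).y = a.y * b.y := rfl
theorem one_c (w : X) : (1 : WG X Z I).c w = 0 := rfl
theorem one_k (e : (Equiv.Perm X × Equiv.Perm Z) × I) : (1 : WG X Z I).k e = 0 := rfl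
theorem one_y : (1 : WG X Z I).y = 1 := rfl
theorem inv_c (a : WG X Z I) (w : X) : (a⁻¹).c w = - a.c (a.y.1 w) := rfl
theorem inv_k (a : WG X Z I) (e : (Equiv.Perm X × Equiv.Perm Z) × I) :
    (a⁻¹).k e = - a.k (a.y * e.1, e.2) := rfl
theorem inv_y (a : WG X Z I) : (a⁻¹).y = a.y⁻¹ := rfl

instance : Group (WG X Z I) where
  mul_assoc a b c := by
    ext x
    · simp [mul_c, mul_y, mul_inv_rev, add_assoc]
    · simp [mul_k, mul_y, mul_inv_rev, add_assoc, mul_assoc]
    · simp [mul_y, mul_assoc]
    · simp [mul_y, mul_assoc]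
  one_mul a := by
    ext x
    · simp [mul_c, one_c, one_y]
    · simp [mul_k, one_k, one_y]
    · simp [mul_y, one_y]
    · simp [mul_y, one_y]
  mul_one a := by
    ext x
    · simp [mul_c, one_c]
    · simp [mul_k, one_k]
    · simp [mul_y, one_y]
    · simp [mul_y, one_y]
  inv_mul_cancel a := by
    ext x
    · simp [mul_c, inv_c, one_c, inv_y, CharTwo.add_self_eq_zero]
    · simp [mul_k, inv_k, one_k, inv_y, CharTwo.add_self_eq_zero]
    · simp [mul_y, inv_y, one_y]
    · simp [mul_y, inv_y, one_y]

instance [Finite X] [Finite Z] [Finite I] : Finite (WG X Z I) := by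
  refine Finite.of_injective (fun g : WG X Z I => ((g.c, g.k, g.y) : (X → ZMod 2) ×
    ((Equiv.Perm X × Equiv.Perm Z) × I → ZMod 2) × (Equiv.Perm X × Equiv.Perm Z))) ?_
  intro a b h
  simp only [Prod.mk.injEq] at h
  exact WG.ext h.1 h.2.1 h.2.2

end WG

section
variable {X Z I : Type*} [DecidableEq X] [DecidableEq Z] [DecidableEq I]

/-- lamp configuration as a group element -/
def lampE (c : X → ZMod 2) : WG X Z I := ⟨c, 0, 1⟩

/-- moving generator: crosses the edge `(1,i)` and moves by `s i`, `t i` -/
def mvG [Fintype X] [Fintype Z] (s : I → Equiv.Perm X) (t : I → Equiv.Perm Z) (i : I) : WG X Z I :=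
  ⟨0, Pi.single (1, i) 1, (s i, t i)⟩

/-- all generators: the toggle (`none`) and the moves (`some i`) -/
def gen [Fintype X] [Fintype Z] (o : X) (s : I → Equiv.Perm X) (t : I → Equiv.Perm Z) :
    Option I → WG X Z I
  | none => lampE (Pi.single o 1)
  | some i => mvG s t i

end

section path

variable {Q I : Type*} [Group Q] [Fintype I] [DecidableEq Q] [DecidableEq I]

/-- parity chain of the path which starts at `u` and reads the word `L` -/
def kw (sg : I → Q) : List (I × Bool) → Q → (Q × I → ZMod 2)
  | [], _ => 0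
  | (i, true) :: L, u => Pi.single (u, i) 1 + kw sg L (u * sg i)
  | (i, false) :: L, u => Pi.single (u * (sg i)⁻¹, i) 1 + kw sg L (u * (sg i)⁻¹)

/-- mod 2 boundary -/
def bd (sg : I → Q) (k : Q × I → ZMod 2) (z : Q) : ZMod 2 :=
  ∑ i, k (z, i) + ∑ i, k (z * (sg i)⁻¹, i)

theorem bd_add (sg : I → Q) (k l : Q × I → ZMod 2) : bd sg (k + l) = bd sg k + bd sg l := by
  funext z
  simp only [bd, Pi.add_apply, Finset.sum_add_distrib]
  ring

theorem bd_zero (sg : I → Q) : bd sg 0 = 0 := by
  funext z
  simp [bd]

theorem bd_single (sg : I → Q) (z : Q) (i : I) :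
    bd sg (Pi.single (z, i) 1) = Pi.single z 1 + Pi.single (z * sg i) 1 := by
  funext x
  simp only [bd, Pi.add_apply]
  congr 1
  · by_cases h : x = z
    · subst h
      rw [Finset.sum_eq_single i]
      · simp
      · intro j _ hj
        rw [Pi.single_eq_of_ne]
        intro h; exact hj (congrArg Prod.snd h)
      · intro h; exact absurd (Finset.mem_univ i) h
    · rw [Pi.single_eq_of_ne h]
      apply Finset.sum_eq_zero
      intro j _
      rw [Pi.single_eq_of_ne]
      intro h'; exact h (congrArg Prod.fst h')
  · by_cases h : x = z * sg i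
    · subst h
      rw [Finset.sum_eq_single i]
      · simp
      · intro j _ hj
        rw [Pi.single_eq_of_ne]
        intro h; exact hj (congrArg Prod.snd h)
      · intro h; exact absurd (Finset.mem_univ i) h
    · rw [Pi.single_eq_of_ne h]
      apply Finset.sum_eq_zero
      intro j _
      rw [Pi.single_eq_of_ne]
      intro h'
      have h2 : j = i := congrArg Prod.snd h'
      have h1 : x * (sg j)⁻¹ = z := congrArg Prod.fst h'
      subst h2
      exact h (by rw [← h1]; group)

variable [Fintype Q]

/-- size of the support -/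
def csz (k : Q × I → ZMod 2) : ℕ := (univ.filter (fun e => k e ≠ 0)).card

theorem zmod2_cases (a : ZMod 2) : a = 0 ∨ a = 1 := by
  revert a; decide

theorem csz_single_add_le (e : Q × I) (k : Q × I → ZMod 2) :
    csz (Pi.single e 1 + k) ≤ csz k + 1 := by
  unfold csz
  have : univ.filter (fun x => (Pi.single e 1 + k : Q × I → ZMod 2) x ≠ 0) ⊆
      insert e (univ.filter (fun x => k x ≠ 0)) := by
    intro x hx
    simp only [Finset.mem_filter, Finset.mem_univ, true_and, Finset.mem_insert] at hx ⊢
    by_cases h : x = e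
    · exact Or.inl h
    · right
      simpa [Pi.single_eq_of_ne h] using hx
  exact (Finset.card_le_card this).trans (Finset.card_insert_le _ _)

theorem csz_remove (e : Q × I) (k : Q × I → ZMod 2) (he : k e ≠ 0) :
    csz (Pi.single e 1 + k) + 1 = csz k := by
  unfold csz
  have h1 : k e = 1 := (zmod2_cases _).resolve_left he
  have : univ.filter (fun x => k x ≠ 0) =
      insert e (univ.filter (fun x => (Pi.single e 1 + k : Q × I → ZMod 2) x ≠ 0)) := by
    ext x
    simp only [Finset.mem_filter, Finset.mem_univ, true_and, Finset.mem_insert]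
    by_cases h : x = e
    · subst h; simp [he]
    · simp [Pi.single_eq_of_ne h, h]
  rw [this, Finset.card_insert_of_notMem]
  simp only [Finset.mem_filter, Finset.mem_univ, true_and, not_not, Pi.add_apply,
    Pi.single_eq_same, h1]
  decide

theorem single_add_single (e : Q × I) (k : Q × I → ZMod 2) :
    Pi.single e 1 + (Pi.single e 1 + k) = k := by
  rw [← add_assoc]
  have : (Pi.single e 1 + Pi.single e 1 : Q × I → ZMod 2) = 0 := by
    funext x
    exact CharTwo.add_self_eq_zero _
  rw [this, zero_add]

theorem csz_kw_le (sg : I → Q) (L : List (I × Bool)) : ∀ u, csz (kw sg L u) ≤ L.length := by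
  induction L with
  | nil => intro u; simp [kw, csz]
  | cons a L ih =>
    intro u
    obtain ⟨i, b⟩ := a
    cases b
    · exact (csz_single_add_le _ _).trans (by simpa using ih _)
    · exact (csz_single_add_le _ _).trans (by simpa using ih _)

theorem red_of_csz (sg : I → Q) (L : List (I × Bool)) :
    ∀ u, csz (kw sg L u) = L.length → Red L := by
  induction L with
  | nil => intro u _; exact List.isChain_nil
  | cons a L ih =>
    intro u hu
    have hstep : ∃ v, csz (kw sg L v) = L.length ∧ kw sg (a :: L) u = kw sg (a :: L) u := by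
      obtain ⟨i, b⟩ := a
      cases b
      · refine ⟨u * (sg i)⁻¹, le_antisymm (csz_kw_le sg L _) ?_, rfl⟩
        have h1 := csz_single_add_le (u * (sg i)⁻¹, i) (kw sg L (u * (sg i)⁻¹))
        have h2 : csz (Pi.single (u * (sg i)⁻¹, i) 1 + kw sg L (u * (sg i)⁻¹)) = L.length + 1 := hu
        omega
      · refine ⟨u * sg i, le_antisymm (csz_kw_le sg L _) ?_, rfl⟩
        have h1 := csz_single_add_le (u, i) (kw sg L (u * sg i))
        have h2 : csz (Pi.single (u, i) 1 + kw sg L (u * sg i)) = L.length + 1 := hu
        omega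
    obtain ⟨v, hv, -⟩ := hstep
    have hL := ih v hv
    cases L with
    | nil => exact List.isChain_singleton _
    | cons b L =>
      refine List.isChain_cons_cons.mpr ⟨?_, hL⟩
      rintro ⟨h1, h2⟩
      obtain ⟨i, b1⟩ := a
      obtain ⟨j, b2⟩ := b
      simp only at h1 h2
      subst h1
      have hkey : kw sg ((i, b1) :: (i, b2) :: L) u = kw sg L u := by
        cases b1 <;> cases b2
        · exact absurd rfl h2
        · simp only [kw]
          rw [show u * (sg i)⁻¹ * sg i = u by group]
          exact single_add_single _ _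
        · simp only [kw]
          rw [show u * sg i * (sg i)⁻¹ = u by group]
          exact single_add_single _ _
        · exact absurd rfl h2
      rw [hkey] at hu
      have := csz_kw_le sg L u
      simp only [List.length_cons] at hu
      omega

theorem wordVal_cons {G J : Type*} [Group G] (s : J → G) (a : J × Bool) (L : List (J × Bool)) :
    wordVal s (a :: L) = letterVal s a * wordVal s L := by
  simp [wordVal]

theorem wordVal_nil {G J : Type*} [Group G] (s : J → G) :
    wordVal s ([] : List (J × Bool)) = 1 := by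
  simp [wordVal]

/-- the path claim of Lemma 6 -/
theorem path_claim (sg : I → Q) (n : ℕ) (hg : GirthGT sg n) :
    ∀ (m : ℕ) (k : Q × I → ZMod 2) (u y : Q), csz k = m → m ≤ n →
      bd sg k = Pi.single u 1 + Pi.single y 1 →
      ∃ L : List (I × Bool), L.length = m ∧ u * wordVal sg L = y ∧ kw sg L u = k := by
  intro m
  induction m with
  | zero =>
    intro k u y hk _ hb
    have hk0 : k = 0 := by
      funext e
      by_contra h
      have : e ∈ univ.filter (fun e => k e ≠ 0) := by simpa using h
      rw [Finset.card_eq_zero.mp hk] at this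
      simp at this
    subst hk0
    refine ⟨[], rfl, ?_, rfl⟩
    rw [wordVal_nil, mul_one]
    by_contra huy
    have := congrFun hb u
    rw [bd_zero] at this
    simp [Pi.single_eq_of_ne huy] at this
  | succ m ih =>
    intro k u y hk hmn hb
    -- removing an edge
    have hrem : ∀ (z : Q) (i : I), k (z, i) ≠ 0 →
        csz (Pi.single (z, i) 1 + k) = m ∧
        bd sg (Pi.single (z, i) 1 + k) =
          (Pi.single z 1 + Pi.single (z * sg i) 1) + (Pi.single u 1 + Pi.single y 1) := by
      intro z i hzi
      refine ⟨?_, ?_⟩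
      · have := csz_remove (z, i) k hzi
        omega
      · rw [bd_add, bd_single, hb]
    have h2 : ∀ a : Q → ZMod 2, a + a = 0 := fun a => funext fun x => CharTwo.add_self_eq_zero _
    by_cases huy : u = y
    · subst huy
      have hne : ∃ e, k e ≠ 0 := by
        by_contra h
        push Not at h
        have : csz k = 0 := by
          unfold csz
          rw [Finset.card_eq_zero, Finset.filter_eq_empty_iff]
          intro x _; simp [h x]
        omega
      obtain ⟨⟨z, i⟩, he⟩ := hne
      obtain ⟨hc, hbd⟩ := hrem z i he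
      rw [h2, add_zero] at hbd
      obtain ⟨L, hL1, hL2, hL3⟩ := ih _ (z * sg i) z hc (by omega) (by rw [hbd, add_comm])
      exfalso
      have hkw : kw sg ((i, true) :: L) z = k := by
        show Pi.single (z, i) 1 + kw sg L (z * sg i) = k
        rw [hL3]; exact single_add_single _ _
      have hlen : ((i, true) :: L).length = m + 1 := by simp [hL1]
      refine hg ((i, true) :: L) (by simp) (by rw [hlen]; exact hmn)
        (red_of_csz sg _ z (by rw [hkw, hk, hlen])) ?_
      rw [wordVal_cons]
      have : z * sg i * wordVal sg L = z := hL2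
      have h3 : sg i * wordVal sg L = 1 := by
        have := congrArg (fun x => z⁻¹ * x) this
        simpa [mul_assoc] using this
      simpa [letterVal] using h3
    · have hbu : bd sg k u = 1 := by
        rw [hb]; simp [Pi.single_eq_of_ne huy]
      have hex : (∃ i, k (u, i) ≠ 0) ∨ (∃ i, k (u * (sg i)⁻¹, i) ≠ 0) := by
        by_contra h
        push Not at h
        obtain ⟨ha, hb'⟩ := h
        rw [bd, Finset.sum_eq_zero (fun i _ => ha i), Finset.sum_eq_zero (fun i _ => hb' i)] at hbu
        simp at hbu
      rcases hex with ⟨i, hi⟩ | ⟨i, hi⟩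
      · obtain ⟨hc, hbd⟩ := hrem u i hi
        have hbd2 : bd sg (Pi.single (u, i) 1 + k) = Pi.single (u * sg i) 1 + Pi.single y 1 := by
          rw [hbd]
          calc (Pi.single u 1 + Pi.single (u * sg i) 1) + (Pi.single u 1 + Pi.single y 1)
              = (Pi.single u 1 + Pi.single u 1) + (Pi.single (u * sg i) 1 + Pi.single y 1) := by
                abel
            _ = _ := by rw [h2, zero_add]
        obtain ⟨L, hL1, hL2, hL3⟩ := ih _ (u * sg i) y hc (by omega) hbd2
        refine ⟨(i, true) :: L, by simp [hL1], ?_, ?_⟩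
        · rw [wordVal_cons, ← hL2]; simp [letterVal, mul_assoc]
        · show Pi.single (u, i) 1 + kw sg L (u * sg i) = k
          rw [hL3]; exact single_add_single _ _
      · obtain ⟨hc, hbd⟩ := hrem (u * (sg i)⁻¹) i hi
        have hbd2 : bd sg (Pi.single (u * (sg i)⁻¹, i) 1 + k) =
            Pi.single (u * (sg i)⁻¹) 1 + Pi.single y 1 := by
          rw [hbd, show u * (sg i)⁻¹ * sg i = u by group]
          calc (Pi.single (u * (sg i)⁻¹) 1 + Pi.single u 1) + (Pi.single u 1 + Pi.single y 1)
              = (Pi.single u 1 + Pi.single u 1) +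
                (Pi.single (u * (sg i)⁻¹) 1 + Pi.single y 1) := by
                abel
            _ = _ := by rw [h2, zero_add]
        obtain ⟨L, hL1, hL2, hL3⟩ := ih _ (u * (sg i)⁻¹) y hc (by omega) hbd2
        refine ⟨(i, false) :: L, by simp [hL1], ?_, ?_⟩
        · rw [wordVal_cons, ← hL2]; simp [letterVal, mul_assoc]
        · show Pi.single (u * (sg i)⁻¹, i) 1 + kw sg L (u * (sg i)⁻¹) = k
          rw [hL3]; exact single_add_single _ _

end path

section connect

variable {X Z I : Type*} [Fintype X] [Fintype Z] [Fintype I] [DecidableEq X] [DecidableEq Z]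
    [DecidableEq I]

/-- the two permutations of a letter together -/
def sgm (s : I → Equiv.Perm X) (t : I → Equiv.Perm Z) (i : I) : Equiv.Perm X × Equiv.Perm Z :=
  (s i, t i)

theorem wordVal_sgm_snd (s : I → Equiv.Perm X) (t : I → Equiv.Perm Z) (L : List (I × Bool)) :
    (wordVal (sgm s t) L).2 = wordVal t L := by
  induction L with
  | nil => simp [wordVal]
  | cons a L ih =>
    rw [wordVal_cons, wordVal_cons, Prod.snd_mul, ih]
    congr 1
    unfold letterVal sgm
    split <;> rfl

theorem girth_sgm (s : I → Equiv.Perm X) (t : I → Equiv.Perm Z) (n : ℕ) (h : GirthGT t n) :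
    GirthGT (sgm s t) n := by
  intro L h1 h2 h3 h4
  refine h L h1 h2 h3 ?_
  rw [← wordVal_sgm_snd s t, h4]
  rfl

theorem wordVal_mvG (s : I → Equiv.Perm X) (t : I → Equiv.Perm Z) (L : List (I × Bool)) :
    (∀ w, (wordVal (mvG s t) L).c w = 0) ∧ (wordVal (mvG s t) L).y = wordVal (sgm s t) L ∧
      ∀ u e, (wordVal (mvG s t) L).k (u⁻¹ * e.1, e.2) = kw (sgm s t) L u e := by
  induction L with
  | nil =>
    rw [wordVal_nil, wordVal_nil]
    exact ⟨fun w => rfl, rfl, fun u e => rfl⟩
  | cons a L ih =>
    obtain ⟨ih1, ih2, ih3⟩ := ih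
    rw [wordVal_cons, wordVal_cons]
    obtain ⟨i, b⟩ := a
    cases b
    · have hl : letterVal (mvG s t) (i, false) = (mvG s t i)⁻¹ := by simp [letterVal]
      have hl' : letterVal (sgm s t) (i, false) = (sgm s t i)⁻¹ := by simp [letterVal]
      rw [hl, hl']
      refine ⟨?_, ?_, ?_⟩
      · intro w
        rw [WG.mul_c, WG.inv_c, ih1]
        simp [mvG]
      · rw [WG.mul_y, WG.inv_y, ih2]; rfl
      · intro u e
        rw [WG.mul_k, WG.inv_k, WG.inv_y]
        show - (Pi.single (1, i) 1 : (Equiv.Perm X × Equiv.Perm Z) × I → ZMod 2)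
            (sgm s t i * (u⁻¹ * e.1), e.2) + (wordVal (mvG s t) L).k
            ((sgm s t i)⁻¹⁻¹ * (u⁻¹ * e.1), e.2) = (Pi.single (u * (sgm s t i)⁻¹, i) 1 +
              kw (sgm s t) L (u * (sgm s t i)⁻¹) : (Equiv.Perm X × Equiv.Perm Z) × I → ZMod 2) e
        rw [Pi.add_apply, ← ih3]
        congr 1
        · rw [ZMod.neg_eq_self_mod_two]
          by_cases h : e = (u * (sgm s t i)⁻¹, i)
          · subst h
            simp
          · rw [Pi.single_eq_of_ne h, Pi.single_eq_of_ne]
            intro h'
            apply h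
            have ha := congrArg Prod.fst h'
            have hb := congrArg Prod.snd h'
            simp only at ha hb
            refine Prod.ext ?_ hb
            have : e.1 = u * (sgm s t i)⁻¹ * (sgm s t i * (u⁻¹ * e.1)) := by group
            rw [this, ha, mul_one]
    · have hl : letterVal (mvG s t) (i, true) = mvG s t i := by simp [letterVal]
      have hl' : letterVal (sgm s t) (i, true) = sgm s t i := by simp [letterVal]
      rw [hl, hl']
      refine ⟨?_, ?_, ?_⟩
      · intro w
        rw [WG.mul_c, ih1]
        simp [mvG]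
      · rw [WG.mul_y, ih2]; rfl
      · intro u e
        rw [WG.mul_k]
        show (Pi.single (1, i) 1 : (Equiv.Perm X × Equiv.Perm Z) × I → ZMod 2)
            (u⁻¹ * e.1, e.2) + (wordVal (mvG s t) L).k
            ((sgm s t i)⁻¹ * (u⁻¹ * e.1), e.2) = (Pi.single (u, i) 1 +
              kw (sgm s t) L (u * (sgm s t i)) : (Equiv.Perm X × Equiv.Perm Z) × I → ZMod 2) e
        rw [Pi.add_apply, ← ih3]
        congr 1
        · by_cases h : e = (u, i)
          · subst h
            simp
          · rw [Pi.single_eq_of_ne h, Pi.single_eq_of_ne]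
            intro h'
            apply h
            have ha := congrArg Prod.fst h'
            have hb := congrArg Prod.snd h'
            simp only at ha hb
            refine Prod.ext ?_ hb
            have : e.1 = u * (u⁻¹ * e.1) := by group
            rw [this, ha, mul_one]

theorem bd_shift (s : I → Equiv.Perm X) (t : I → Equiv.Perm Z) (y : Equiv.Perm X × Equiv.Perm Z)
    (k : (Equiv.Perm X × Equiv.Perm Z) × I → ZMod 2) (z : Equiv.Perm X × Equiv.Perm Z) :
    bd (sgm s t) (fun e => k (y⁻¹ * e.1, e.2)) z = bd (sgm s t) k (y⁻¹ * z) := by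
  simp only [bd, mul_assoc]

/-- boundary of the edge chain of a group element -/
theorem bd_mem (o : X) (s : I → Equiv.Perm X) (t : I → Equiv.Perm Z) (g : WG X Z I)
    (hgm : g ∈ Subgroup.closure (Set.range (gen o s t))) :
    bd (sgm s t) g.k = Pi.single 1 1 + Pi.single g.y 1 := by
  have h2 : ∀ a : (Equiv.Perm X × Equiv.Perm Z) → ZMod 2, a + a = 0 :=
    fun a => funext fun x => CharTwo.add_self_eq_zero _
  have hsh : ∀ (y z : Equiv.Perm X × Equiv.Perm Z) (a : Equiv.Perm X × Equiv.Perm Z),
      (Pi.single a 1 : (Equiv.Perm X × Equiv.Perm Z) → ZMod 2) (y⁻¹ * z) =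
        (Pi.single (y * a) 1 : (Equiv.Perm X × Equiv.Perm Z) → ZMod 2) z := by
    intro y z a
    by_cases h : z = y * a
    · subst h; simp
    · rw [Pi.single_eq_of_ne h, Pi.single_eq_of_ne]
      intro h'; exact h (by rw [← h']; group)
  induction hgm using Subgroup.closure_induction with
  | mem x hx =>
    obtain ⟨j, rfl⟩ := hx
    cases j with
    | none =>
      show bd (sgm s t) 0 = Pi.single 1 1 + Pi.single 1 1
      rw [bd_zero, h2]
    | some i =>
      show bd (sgm s t) (Pi.single (1, i) 1) = Pi.single 1 1 + Pi.single (s i, t i) 1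
      rw [bd_single, one_mul]
      rfl
  | one =>
    show bd (sgm s t) 0 = Pi.single 1 1 + Pi.single 1 1
    rw [bd_zero, h2]
  | mul a b _ _ iha ihb =>
    have hk : (a * b).k = a.k + (fun e => b.k (a.y⁻¹ * e.1, e.2)) := rfl
    rw [hk, bd_add, iha]
    have : bd (sgm s t) (fun e => b.k (a.y⁻¹ * e.1, e.2)) =
        Pi.single a.y 1 + Pi.single (a.y * b.y) 1 := by
      funext z
      rw [bd_shift, ihb, Pi.add_apply, hsh, hsh, mul_one]
      rfl
    rw [this, WG.mul_y]
    have h4 : ∀ x y z : (Equiv.Perm X × Equiv.Perm Z) → ZMod 2, (x + y) + (y + z) = x + z := by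
      intro x y z
      have : (x + y) + (y + z) = (y + y) + (x + z) := by abel
      rw [this, h2, zero_add]
    exact h4 _ _ _
  | inv a _ iha =>
    have hk : (a⁻¹).k = (fun e => a.k (a.y⁻¹⁻¹ * e.1, e.2)) := by
      funext e
      rw [WG.inv_k, inv_inv, ZMod.neg_eq_self_mod_two]
    rw [hk]
    funext z
    rw [bd_shift, iha, Pi.add_apply, hsh, hsh, WG.inv_y, mul_one, inv_mul_cancel, Pi.add_apply,
      add_comm]

end connect

/-- Lemma 6 -/
theorem cover_word {X Z I : Type*} [Fintype X] [Fintype Z] [Fintype I] [DecidableEq X] [DecidableEq Z]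
    [DecidableEq I] (o : X) (s : I → Equiv.Perm X) (t : I → Equiv.Perm Z) (n : ℕ)
    (hg : GirthGT t n) (g : WG X Z I) (hgm : g ∈ Subgroup.closure (Set.range (gen o s t)))
    (hk : (univ.filter (fun e => g.k e ≠ 0)).card ≤ n) :
    ∃ L : List (I × Bool), L.length ≤ n ∧ L.length = (univ.filter (fun e => g.k e ≠ 0)).card ∧
      wordVal (mvG s t) L = ⟨0, g.k, g.y⟩ := by
  obtain ⟨L, hL1, hL2, hL3⟩ := path_claim (sgm s t) n (girth_sgm s t n hg) _ g.k 1 g.y rfl hk
    (bd_mem o s t g hgm)
  have hL1' : L.length = (univ.filter (fun e => g.k e ≠ 0)).card := hL1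
  refine ⟨L, hL1'.trans_le hk, hL1', ?_⟩
  obtain ⟨h1, h2, h3⟩ := wordVal_mvG s t L
  apply WG.ext
  · funext w; exact h1 w
  · funext e
    have := h3 1 e
    rw [hL3] at this
    simpa using this
  · rw [h2, ← hL2, one_mul]

/-- every lamp configuration belongs to the group if `X` is one orbit -/
theorem lampE_mem {X Z I : Type*} [Fintype X] [Fintype Z] [Fintype I] [DecidableEq X] [DecidableEq Z]
    [DecidableEq I] (o : X) (s : I → Equiv.Perm X) (t : I → Equiv.Perm Z)
    (horb : ∀ w : X, ∃ L : List (I × Bool), wordVal s L o = w) (c : X → ZMod 2) :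
    (lampE c : WG X Z I) ∈ Subgroup.closure (Set.range (gen o s t)) := by
  have hadd : ∀ c c' : X → ZMod 2, (lampE (c + c') : WG X Z I) = lampE c * lampE c' := by
    intro c c'
    apply WG.ext
    · funext w; rfl
    · funext e; show (0 : ZMod 2) = 0 + 0; rw [add_zero]
    · show (1 : Equiv.Perm X × Equiv.Perm Z) = 1 * 1; rw [one_mul]
  have hfst : ∀ L : List (I × Bool), (wordVal (sgm s t) L).1 = wordVal s L := by
    intro L
    induction L with
    | nil => simp [wordVal]
    | cons a L ih =>
      rw [wordVal_cons, wordVal_cons, Prod.fst_mul, ih]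
      congr 1
      unfold letterVal sgm
      split <;> rfl
  have hword : ∀ L : List (I × Bool),
      wordVal (mvG s t) L ∈ Subgroup.closure (Set.range (gen o s t)) := by
    intro L
    induction L with
    | nil => rw [wordVal_nil]; exact Subgroup.one_mem _
    | cons a L ih =>
      rw [wordVal_cons]
      refine Subgroup.mul_mem _ ?_ ih
      have hmem : mvG s t a.1 ∈ Subgroup.closure (Set.range (gen o s t)) :=
        Subgroup.subset_closure ⟨some a.1, rfl⟩
      unfold letterVal
      split
      · exact hmem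
      · exact Subgroup.inv_mem _ hmem
  have hsingle : ∀ w : X, (lampE (Pi.single w 1) : WG X Z I) ∈
      Subgroup.closure (Set.range (gen o s t)) := by
    intro w
    obtain ⟨L, hL⟩ := horb w
    have h0 : (lampE (Pi.single o 1) : WG X Z I) ∈ Subgroup.closure (Set.range (gen o s t)) :=
      Subgroup.subset_closure ⟨none, rfl⟩
    have hconj : (lampE (Pi.single w 1) : WG X Z I) =
        wordVal (mvG s t) L * lampE (Pi.single o 1) * (wordVal (mvG s t) L)⁻¹ := by
      obtain ⟨h1, h2, h3⟩ := wordVal_mvG s t L
      rw [eq_mul_inv_iff_mul_eq]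
      have hy1 : ((wordVal (mvG s t) L).y).1 o = w := by rw [h2, hfst]; exact hL
      apply WG.ext
      · funext x
        rw [WG.mul_c, WG.mul_c, h1, h1, add_zero, zero_add]
        show (Pi.single w 1 : X → ZMod 2) x = (Pi.single o 1 : X → ZMod 2)
          (((wordVal (mvG s t) L).y).1⁻¹ x)
        by_cases h : x = w
        · subst h
          rw [← hy1]
          simp
        · rw [Pi.single_eq_of_ne h, Pi.single_eq_of_ne]
          intro h'
          apply h
          rw [← hy1, ← h']
          simp
      · funext e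
        rw [WG.mul_k, WG.mul_k]
        show (0 : ZMod 2) + (wordVal (mvG s t) L).k
          ((1 : Equiv.Perm X × Equiv.Perm Z)⁻¹ * e.1, e.2) = (wordVal (mvG s t) L).k e + 0
        rw [inv_one, one_mul, zero_add, add_zero]
      · rw [WG.mul_y, WG.mul_y]
        show 1 * (wordVal (mvG s t) L).y = (wordVal (mvG s t) L).y * 1
        rw [one_mul, mul_one]
    rw [hconj]
    exact Subgroup.mul_mem _ (Subgroup.mul_mem _ (hword L) h0) (Subgroup.inv_mem _ (hword L))
  have hsum : ∀ A : Finset X, (lampE (fun w => if w ∈ A then c w else 0) : WG X Z I) ∈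
      Subgroup.closure (Set.range (gen o s t)) := by
    intro A
    induction A using Finset.induction_on with
    | empty =>
      have : (lampE (fun w => if w ∈ (∅ : Finset X) then c w else 0) : WG X Z I) = 1 := by
        apply WG.ext
        · funext w; simp [lampE, WG.one_c]
        · funext e; rfl
        · rfl
      rw [this]
      exact Subgroup.one_mem _
    | insert a A ha ih =>
      have : (fun w => if w ∈ insert a A then c w else 0) =
          (Pi.single a (c a) : X → ZMod 2) + (fun w => if w ∈ A then c w else 0) := by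
        funext w
        by_cases h : w = a
        · subst h; simp [ha]
        · simp [h, Pi.single_eq_of_ne h]
      rw [this, hadd]
      refine Subgroup.mul_mem _ ?_ ih
      rcases zmod2_cases (c a) with h | h
      · rw [h, Pi.single_zero]
        have : (lampE 0 : WG X Z I) = 1 := rfl
        rw [this]
        exact Subgroup.one_mem _
      · rw [h]; exact hsingle a
  have := hsum Finset.univ
  simpa using this

end L2LP
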