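import Mathlib

/-!
# Definitions used in the final statements: coarse embeddings and coarse disjoint unions
-/

namespace L2LP

open Filter

/-- `f` is a coarse embedding of the set `X` with distance function `d` into the normed space `E`:
there are non-decreasing functions `rm`, `rp` from `[0, ∞)` to `[0, ∞)` with `rm t → ∞` as `t → ∞`
such that `rm (d x y) ≤ ‖f x - f y‖ ≤ rp (d x y)` for all `x`, `y`. -/
def CoarseEmb {X E : Type*} [NormedAddCommGroup E] (d : X → X → ℝ) (f : X → E) : Prop :=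
  ∃ rm rp : ℝ → ℝ, MonotoneOn rm (Set.Ici 0) ∧ MonotoneOn rp (Set.Ici 0) ∧
    (∀ t, 0 ≤ t → 0 ≤ rm t) ∧ (∀ t, 0 ≤ t → 0 ≤ rp t) ∧ Tendsto rm atTop atTop ∧
    ∀ x y, rm (d x y) ≤ ‖f x - f y‖ ∧ ‖f x - f y‖ ≤ rp (d x y)

/-- `d` is a metric on the disjoint union of the vertex sets of the graphs `G n` which makes it their
coarse disjoint union: it is the shortest-path metric on each `G n`, and
`d (G n, G k) ≥ diam (G n) + diam (G k) + n + k` for `n ≠ k`. -/
structure IsCoarseUnion {V : ℕ → Type*} (G : ∀ n, SimpleGraph (V n))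
    (d : (Σ n, V n) → (Σ n, V n) → ℝ) : Prop where
  self : ∀ x, d x x = 0
  eq_of : ∀ x y, d x y = 0 → x = y
  symm : ∀ x y, d x y = d y x
  tri : ∀ x y z, d x z ≤ d x y + d y z
  restrict : ∀ n (x y : V n), d ⟨n, x⟩ ⟨n, y⟩ = (G n).dist x y
  far : ∀ n k, n ≠ k → ∀ (x : V n) (y : V k),
    ((G n).diam : ℝ) + (G k).diam + n + k ≤ d ⟨n, x⟩ ⟨k, y⟩

end L2LP
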