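import Pool.Agent.Helper44.LP.FinalDefs

/-!
# From control functions to coarse embeddings
-/

namespace L2LP

open Filter MeasureTheory

theorem coarse_of_control {X E : Type*} [NormedAddCommGroup E] (d : X → X → ℝ) (f : X → E)
    (hA : ∀ R : ℝ, ∃ rho : ℝ, ∀ x y, ‖f x - f y‖ ≤ R → d x y ≤ rho)
    (hB : ∀ R : ℝ, ∃ rho : ℝ, ∀ x y, d x y ≤ R → ‖f x - f y‖ ≤ rho) : CoarseEmb d f := by
  classical
  let Sm : ℝ → Set ℝ := fun t => {r | ∃ x y, t ≤ d x y ∧ r = ‖f x - f y‖} ∪ {max t 0}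
  let Sp : ℝ → Set ℝ := fun t => {r | ∃ x y, d x y ≤ t ∧ r = ‖f x - f y‖} ∪ {0}
  have hSm0 : ∀ t, ∀ r ∈ Sm t, 0 ≤ r := by
    rintro t r (⟨x, y, _, rfl⟩ | h)
    · exact norm_nonneg _
    · rw [Set.mem_singleton_iff] at h
      rw [h]; exact le_max_right _ _
  have hSmbd : ∀ t, BddBelow (Sm t) := fun t => ⟨0, fun r hr => hSm0 t r hr⟩
  have hSmne : ∀ t, (Sm t).Nonempty := fun t => ⟨max t 0, Or.inr rfl⟩
  have hSpbd : ∀ t, BddAbove (Sp t) := by
    intro t
    obtain ⟨rho, hrho⟩ := hB t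
    refine ⟨max rho 0, ?_⟩
    rintro r (⟨x, y, h, rfl⟩ | h)
    · exact (hrho x y h).trans (le_max_left _ _)
    · rw [Set.mem_singleton_iff] at h
      rw [h]; exact le_max_right _ _
  have hSpne : ∀ t, (Sp t).Nonempty := fun t => ⟨0, Or.inr rfl⟩
  refine ⟨fun t => sInf (Sm t), fun t => sSup (Sp t), ?_, ?_, ?_, ?_, ?_, ?_⟩
  · intro a _ b _ hab
    apply le_csInf (hSmne b)
    rintro r (⟨x, y, h, rfl⟩ | h)
    · exact csInf_le (hSmbd a) (Or.inl ⟨x, y, hab.trans h, rfl⟩)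
    · rw [Set.mem_singleton_iff] at h
      rw [h]
      exact (csInf_le (hSmbd a) (Or.inr rfl)).trans (max_le_max_right 0 hab)
  · intro a _ b _ hab
    apply csSup_le_csSup (hSpbd b) (hSpne a)
    rintro r (⟨x, y, h, rfl⟩ | h)
    · exact Or.inl ⟨x, y, h.trans hab, rfl⟩
    · exact Or.inr h
  · intro t _
    exact le_csInf (hSmne t) (hSm0 t)
  · intro t _
    exact le_csSup (hSpbd t) (Or.inr rfl)
  · rw [tendsto_atTop_atTop]
    intro R
    obtain ⟨rho, hrho⟩ := hA R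
    refine ⟨max (rho + 1) R, fun t ht => ?_⟩
    apply le_csInf (hSmne t)
    rintro r (⟨x, y, h, rfl⟩ | h)
    · by_contra hcon
      push Not at hcon
      have h1 := hrho x y hcon.le
      have h2 : rho + 1 ≤ t := (le_max_left _ _).trans ht
      linarith
    · rw [Set.mem_singleton_iff] at h
      rw [h]
      exact ((le_max_right _ _).trans ht).trans (le_max_left _ _)
  · intro x y
    exact ⟨csInf_le (hSmbd _) (Or.inl ⟨x, y, le_rfl, rfl⟩),
      le_csSup (hSpbd _) (Or.inl ⟨x, y, le_rfl, rfl⟩)⟩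

end L2LP

namespace L2LP

open Filter MeasureTheory

section phi

variable {iota : Type} {p : ENNReal} [Fact (1 ≤ p)] {mI : MeasurableSpace iota} {mu : Measure iota}
  {Phi : (iota →₀ ℝ) → Lp ℝ p mu}
  (hPhi : ∀ a b, ‖Phi a - Phi b‖ ^ p.toReal = ∑ i ∈ (a - b).support, |a i - b i| ^ p.toReal)
  (hP : 0 < p.toReal)

include hPhi hP

theorem phi_sum_le {J : Type*} [Fintype J] (e : J → iota) (he : Function.Injective e)
    (a b : iota →₀ ℝ) : ∑ j, |a (e j) - b (e j)| ^ p.toReal ≤ ‖Phi a - Phi b‖ ^ p.toReal := by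
  classical
  rw [hPhi]
  have h1 : ∑ j, |a (e j) - b (e j)| ^ p.toReal
      = ∑ i ∈ Finset.univ.image e, |a i - b i| ^ p.toReal := by
    rw [Finset.sum_image]
    intro x _ y _ hxy
    exact he hxy
  rw [h1]
  have h2 : ∑ i ∈ Finset.univ.image e, |a i - b i| ^ p.toReal
      = ∑ i ∈ (Finset.univ.image e).filter (fun i => a i - b i ≠ 0), |a i - b i| ^ p.toReal := by
    rw [Finset.sum_filter]
    refine Finset.sum_congr rfl fun i _ => ?_
    split_ifs with h
    · rfl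
    · push Not at h
      rw [h, abs_zero, Real.zero_rpow hP.ne']
  rw [h2]
  apply Finset.sum_le_sum_of_subset_of_nonneg
  · intro i hi
    rw [Finset.mem_filter] at hi
    rw [Finsupp.mem_support_iff, Finsupp.sub_apply]
    exact hi.2
  · intro i _ _
    exact Real.rpow_nonneg (abs_nonneg _) _

theorem phi_coord_le (i : iota) (a b : iota →₀ ℝ) : |a i - b i| ≤ ‖Phi a - Phi b‖ := by
  have h := phi_sum_le hPhi hP (fun _ : Unit => i) (fun _ _ _ => Subsingleton.elim _ _) a b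
  simp only [Finset.univ_unique, Finset.sum_const, Finset.card_singleton, one_smul] at h
  exact (Real.rpow_le_rpow_iff (abs_nonneg _) (norm_nonneg _) hP).mp h

theorem phi_eq {J : Type*} [Fintype J] (e : J → iota) (he : Function.Injective e)
    (a b : iota →₀ ℝ) (hab : ∀ i, a i ≠ b i → ∃ j, e j = i) :
    ‖Phi a - Phi b‖ ^ p.toReal = ∑ j, |a (e j) - b (e j)| ^ p.toReal := by
  classical
  apply le_antisymm _ (phi_sum_le hPhi hP e he a b)
  rw [hPhi]
  have h1 : ∑ j, |a (e j) - b (e j)| ^ p.toReal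
      = ∑ i ∈ Finset.univ.image e, |a i - b i| ^ p.toReal := by
    rw [Finset.sum_image]
    intro x _ y _ hxy
    exact he hxy
  rw [h1]
  apply Finset.sum_le_sum_of_subset_of_nonneg
  · intro i hi
    rw [Finsupp.mem_support_iff, Finsupp.sub_apply] at hi
    obtain ⟨j, hj⟩ := hab i (fun h => hi (by rw [h]; ring))
    rw [Finset.mem_image]
    exact ⟨j, Finset.mem_univ _, hj⟩
  · intro i _ _
    exact Real.rpow_nonneg (abs_nonneg _) _

end phi

/-- from a bound of the `P`-th powers to a bound of the norm -/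
theorem le_of_rpow_le {x c P : ℝ} (hx : 0 ≤ x) (hc : 0 ≤ c) (hP : 0 < P) (h : x ^ P ≤ c ^ P) :
    x ≤ c := (Real.rpow_le_rpow_iff hx hc hP).mp h

end L2LP
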