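import Pool.Agent.Helper44.LP.Basic

/-!
# Spectral decomposition for a representation of `(Z/2)^X` (Lemma 5, first part)
-/

namespace L2LP

open Finset

/-- the nontrivial character of `Z/2` -/
noncomputable def sg2 (a : ZMod 2) : ℝ := if a = 0 then 1 else -1

theorem sg2_zero : sg2 0 = 1 := by simp [sg2]

theorem sg2_one : sg2 1 = -1 := by
  have : (1 : ZMod 2) ≠ 0 := by decide
  simp [sg2, this]

theorem zmod2_cases (a : ZMod 2) : a = 0 ∨ a = 1 := by
  revert a; decide

theorem sg2_add (a b : ZMod 2) : sg2 (a + b) = sg2 a * sg2 b := by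
  have h11 : (1 : ZMod 2) + 1 = 0 := by decide
  rcases zmod2_cases a with rfl | rfl <;> rcases zmod2_cases b with rfl | rfl
  · simp [sg2_zero]
  · simp [sg2_zero]
  · simp [sg2_zero]
  · rw [h11, sg2_zero, sg2_one]; norm_num

section chi
variable {X : Type*} [Fintype X]

/-- the character of `(Z/2)^X` attached to the configuration `T` -/
noncomputable def chi (T : X → Bool) (c : X → ZMod 2) : ℝ :=
  ∏ w, (if T w = true then sg2 (c w) else 1)

theorem chi_add (T : X → Bool) (c c' : X → ZMod 2) : chi T (c + c') = chi T c * chi T c' := by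
  unfold chi
  rw [← Finset.prod_mul_distrib]
  refine Finset.prod_congr rfl fun w _ => ?_
  by_cases h : T w = true
  · simp only [h, if_true, Pi.add_apply, sg2_add]
  · simp only [h, if_false, one_mul, Bool.false_eq_true]

omit [Fintype X] in
theorem add_self_zmod2 (c : X → ZMod 2) : c + c = 0 := by
  funext w
  simp only [Pi.add_apply, Pi.zero_apply]
  rcases zmod2_cases (c w) with h | h <;> rw [h] <;> decide

theorem chi_zero (T : X → Bool) : chi T 0 = 1 := by
  unfold chi
  refine Finset.prod_eq_one fun w _ => ?_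
  simp [sg2_zero]

theorem chi_sq (T : X → Bool) (c : X → ZMod 2) : chi T c * chi T c = 1 := by
  rw [← chi_add, add_self_zmod2, chi_zero]

variable [DecidableEq X]

theorem chi_single (T : X → Bool) (w : X) :
    chi T (Pi.single w 1) = if T w = true then -1 else 1 := by
  unfold chi
  rw [Finset.prod_eq_single w]
  · simp only [Pi.single_eq_same, sg2_one]
  · intro b _ hb
    simp only [Pi.single_eq_of_ne hb, sg2_zero, ite_self]
  · intro h
    exact absurd (Finset.mem_univ w) h

theorem sum_chi (c : X → ZMod 2) :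
    ∑ T : X → Bool, chi T c = if c = 0 then (2 : ℝ) ^ Fintype.card X else 0 := by
  have h1 : ∑ T : X → Bool, chi T c =
      ∏ w : X, ∑ b : Bool, (if b = true then sg2 (c w) else (1 : ℝ)) := by
    rw [Finset.prod_univ_sum]
    simp only [Fintype.piFinset_univ]
    rfl
  have h2 : ∀ w : X, ∑ b : Bool, (if b = true then sg2 (c w) else (1 : ℝ)) = sg2 (c w) + 1 := by
    intro w
    simp
  rw [h1]
  simp only [h2]
  by_cases hc : c = 0
  · subst hc
    simp only [Pi.zero_apply, sg2_zero, if_true]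
    rw [Finset.prod_const, Finset.card_univ]
    norm_num
  · rw [if_neg hc]
    have : ∃ w, c w ≠ 0 := by
      by_contra h
      exact hc (funext fun w => by_contra fun hw => h ⟨w, hw⟩)
    obtain ⟨w, hw⟩ := this
    refine Finset.prod_eq_zero (Finset.mem_univ w) ?_
    have : c w = 1 := (zmod2_cases (c w)).resolve_left hw
    rw [this, sg2_one]
    norm_num

omit [DecidableEq X] in
theorem chi_perm (T : X → Bool) (s : Equiv.Perm X) (c : X → ZMod 2) :
    chi (fun w => T (s w)) c = chi T (fun w => c (s.symm w)) := by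
  unfold chi
  rw [← Equiv.prod_comp s (fun w => if T w = true then sg2 (c (s.symm w)) else 1)]
  refine Finset.prod_congr rfl fun w _ => ?_
  simp

end chi

section spec
variable {X : Type*} [Fintype X] [DecidableEq X] {Hs : Type*} [NormedAddCommGroup Hs]
    [InnerProductSpace ℝ Hs]

/-- the isotypic projection -/
noncomputable def isoP (R : (X → ZMod 2) → Hs →ₗ[ℝ] Hs) (T : X → Bool) : Hs →ₗ[ℝ] Hs :=
  ((2 : ℝ) ^ Fintype.card X)⁻¹ • ∑ c, chi T c • R c

theorem isoP_apply (R : (X → ZMod 2) → Hs →ₗ[ℝ] Hs) (T : X → Bool) (u : Hs) :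
    isoP R T u = ((2 : ℝ) ^ Fintype.card X)⁻¹ • ∑ c, chi T c • R c u := by
  simp [isoP, LinearMap.sum_apply]

theorem R_isoP (R : (X → ZMod 2) → Hs →ₗ[ℝ] Hs) (hRadd : ∀ c c', R (c + c') = R c ∘ₗ R c')
    (T : X → Bool) (c' : X → ZMod 2) (u : Hs) :
    R c' (isoP R T u) = chi T c' • isoP R T u := by
  rw [isoP_apply, map_smul, map_sum, smul_comm (chi T c')]
  congr 1
  rw [Finset.smul_sum]
  rw [← Equiv.sum_comp (Equiv.addLeft c') (fun c => chi T c' • chi T c • R c u)]
  refine Finset.sum_congr rfl fun c _ => ?_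
  simp only [Equiv.coe_addLeft]
  rw [chi_add, hRadd, smul_smul, ← mul_assoc, chi_sq, one_mul, map_smul]
  rfl

theorem isoP_R (R : (X → ZMod 2) → Hs →ₗ[ℝ] Hs) (hRadd : ∀ c c', R (c + c') = R c ∘ₗ R c')
    (T : X → Bool) (c' : X → ZMod 2) (u : Hs) :
    isoP R T (R c' u) = chi T c' • isoP R T u := by
  rw [isoP_apply, isoP_apply, smul_comm (chi T c')]
  congr 1
  rw [Finset.smul_sum]
  rw [← Equiv.sum_comp (Equiv.addRight c') (fun c => chi T c' • chi T c • R c u)]
  refine Finset.sum_congr rfl fun c _ => ?_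
  simp only [Equiv.coe_addRight]
  rw [chi_add, hRadd, smul_smul, mul_comm (chi T c) (chi T c'), ← mul_assoc, chi_sq, one_mul]
  rfl

theorem sum_isoP (R : (X → ZMod 2) → Hs →ₗ[ℝ] Hs) (hR0 : R 0 = LinearMap.id) (u : Hs) :
    ∑ T, isoP R T u = u := by
  have h1 : ∑ T, isoP R T u =
      ((2 : ℝ) ^ Fintype.card X)⁻¹ • ∑ c, (∑ T : X → Bool, chi T c) • R c u := by
    simp only [isoP_apply]
    rw [← Finset.smul_sum, Finset.sum_comm]
    simp only [Finset.sum_smul]
  rw [h1]
  simp only [sum_chi, ite_smul, zero_smul]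
  rw [Finset.sum_ite_eq' Finset.univ 0]
  simp only [Finset.mem_univ, if_true, hR0, LinearMap.id_apply]
  rw [smul_smul, inv_mul_cancel₀ (by positivity), one_smul]

theorem isoP_orth (R : (X → ZMod 2) → Hs →ₗ[ℝ] Hs)
    (hRadd : ∀ c c', R (c + c') = R c ∘ₗ R c') (hRiso : ∀ c v, ‖R c v‖ = ‖v‖)
    (T T' : X → Bool) (hT : T ≠ T') (u : Hs) :
    inner ℝ (isoP R T u) (isoP R T' u) = (0 : ℝ) := by
  have : ∃ w, T w ≠ T' w := by
    by_contra h
    exact hT (funext fun w => by_contra fun hw => h ⟨w, hw⟩)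
  obtain ⟨w, hw⟩ := this
  have h1 := LinearIsometry.inner_map_map (𝕜 := ℝ)
    (⟨R (Pi.single w 1), hRiso _⟩ : Hs →ₗᵢ[ℝ] Hs) (isoP R T u) (isoP R T' u)
  have h2 : (⟨R (Pi.single w 1), hRiso _⟩ : Hs →ₗᵢ[ℝ] Hs) (isoP R T u) =
      chi T (Pi.single w 1) • isoP R T u := R_isoP R hRadd T _ u
  have h3 : (⟨R (Pi.single w 1), hRiso _⟩ : Hs →ₗᵢ[ℝ] Hs) (isoP R T' u) =
      chi T' (Pi.single w 1) • isoP R T' u := R_isoP R hRadd T' _ u
  rw [h2, h3, inner_smul_left, inner_smul_right, chi_single, chi_single] at h1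
  cases hTw : T w <;> cases hTw' : T' w
  · exact absurd (hTw.trans hTw'.symm) hw
  · rw [hTw, hTw'] at h1
    simp at h1
    linarith
  · rw [hTw, hTw'] at h1
    simp at h1
    linarith
  · exact absurd (hTw.trans hTw'.symm) hw

theorem parseval_isoP (R : (X → ZMod 2) → Hs →ₗ[ℝ] Hs) (hR0 : R 0 = LinearMap.id)
    (hRadd : ∀ c c', R (c + c') = R c ∘ₗ R c') (hRiso : ∀ c v, ‖R c v‖ = ‖v‖) (u : Hs) :
    ‖u‖ ^ 2 = ∑ T, ‖isoP R T u‖ ^ 2 := by
  have h1 : ‖u‖ ^ 2 = inner ℝ (∑ T, isoP R T u) (∑ T, isoP R T u) := by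
    rw [sum_isoP R hR0, real_inner_self_eq_norm_sq]
  rw [h1, sum_inner]
  refine Finset.sum_congr rfl fun T _ => ?_
  rw [inner_sum, Finset.sum_eq_single T]
  · rw [real_inner_self_eq_norm_sq]
  · intro T' _ hT'
    exact isoP_orth R hRadd hRiso T T' hT'.symm u
  · intro h
    exact absurd (Finset.mem_univ T) h

theorem sg_isoP (R : (X → ZMod 2) → Hs →ₗ[ℝ] Hs) (sg : Hs →ₗ[ℝ] Hs) (s : Equiv.Perm X)
    (hsg : ∀ c u, sg (R c u) = R (fun w => c (s.symm w)) (sg u)) (T : X → Bool) (u : Hs) :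
    sg (isoP R (fun w => T (s w)) u) = isoP R T (sg u) := by
  rw [isoP_apply, isoP_apply, map_smul, map_sum]
  congr 1
  simp only [map_smul, hsg, chi_perm]
  exact Equiv.sum_comp (Equiv.arrowCongr s (Equiv.refl (ZMod 2)))
    (fun c => chi T c • R c (sg u))

end spec

/-- For a representation `R` of `(Z/2)^X` by linear isometries on a real inner product space and a vector `v`
there is a function `h` on configurations (`h T` is the norm of the `T`-isotypic component of `v`) such that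
 (i) almost invariance of `v` under an isometry `sg` which permutes the coordinates of `R` by `s`
     gives almost invariance of `h`;
 (ii) the displacement of `v` under the coordinate `w` is read off from `h`. -/
theorem spectral {X : Type*} [Fintype X] [DecidableEq X] {Hs : Type*} [NormedAddCommGroup Hs]
    [InnerProductSpace ℝ Hs] (R : (X → ZMod 2) → Hs →ₗ[ℝ] Hs)
    (hR0 : R 0 = LinearMap.id) (hRadd : ∀ c c', R (c + c') = R c ∘ₗ R c')
    (hRiso : ∀ c v, ‖R c v‖ = ‖v‖) (v : Hs) :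
    ∃ h : (X → Bool) → ℝ, (∀ T, 0 ≤ h T) ∧
      (∀ (sg : Hs →ₗ[ℝ] Hs) (s : Equiv.Perm X), (∀ u, ‖sg u‖ = ‖u‖) →
        (∀ c u, sg (R c u) = R (fun w => c (s.symm w)) (sg u)) →
        nrm (fun T => h (fun w => T (s w)) - h T) ≤ ‖sg v - v‖) ∧
      (∀ w, ‖R (Pi.single w 1) v - v‖ ^ 2 = 4 * ∑ T, (if T w = true then h T ^ 2 else 0)) := by
  refine ⟨fun T => ‖isoP R T v‖, fun T => norm_nonneg _, ?_, ?_⟩
  · intro sg s hiso hsg
    refine nrm_le_of_sq_le (norm_nonneg _) ?_
    rw [parseval_isoP R hR0 hRadd hRiso (sg v - v)]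
    refine Finset.sum_le_sum fun T _ => ?_
    have h1 : ‖isoP R (fun w => T (s w)) v‖ = ‖isoP R T (sg v)‖ := by
      rw [← hiso, sg_isoP R sg s hsg]
    show (‖isoP R (fun w => T (s w)) v‖ - ‖isoP R T v‖) ^ 2 ≤ _
    rw [h1, map_sub]
    refine sq_le_sq' ?_ ?_
    · have := abs_norm_sub_norm_le (isoP R T (sg v)) (isoP R T v)
      have h2 := (abs_le.1 this).1
      linarith
    · have := abs_norm_sub_norm_le (isoP R T (sg v)) (isoP R T v)
      exact (abs_le.1 this).2
  · intro w
    rw [parseval_isoP R hR0 hRadd hRiso, Finset.mul_sum]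
    refine Finset.sum_congr rfl fun T _ => ?_
    rw [map_sub, isoP_R R hRadd, chi_single]
    cases hTw : T w
    · simp
    · simp only [if_true]
      have : (-1 : ℝ) • isoP R T v - isoP R T v = (-2 : ℝ) • isoP R T v := by
        rw [neg_smul, one_smul, neg_smul, two_smul]
        abel
      rw [this, norm_smul, mul_pow]
      norm_num

end L2LP
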