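import Pool.Agent.Helper44.LP.LPside
import Pool.Agent.Helper44.LP.Spectral
import Pool.Agent.Helper44.LP.BlockL2

/-!
# Obstruction for maps into inner product spaces
-/

namespace L2LP

open Finset

section translations

variable {Ga : Type*} [Group Ga] [Fintype Ga] {Hs : Type*} [NormedAddCommGroup Hs]
  [InnerProductSpace ℝ Hs]

/-- right translation on the l2 space of `Hs`-valued functions -/
noncomputable def RT (g0 : Ga) : PiLp 2 (fun _ : Ga => Hs) →ₗ[ℝ] PiLp 2 (fun _ : Ga => Hs) :=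
  (LinearIsometryEquiv.piLpCongrLeft 2 ℝ Hs (Equiv.mulRight g0).symm).toLinearEquiv.toLinearMap

theorem RT_apply (g0 : Ga) (F : PiLp 2 (fun _ : Ga => Hs)) (g : Ga) : RT g0 F g = F (g * g0) := by
  unfold RT
  simp [LinearIsometryEquiv.piLpCongrLeft_apply]

theorem RT_norm (g0 : Ga) (F : PiLp 2 (fun _ : Ga => Hs)) : ‖RT g0 F‖ = ‖F‖ := by
  unfold RT
  exact LinearIsometryEquiv.norm_map _ _

theorem RT_disp (g0 : Ga) (f : Ga → Hs) :
    ‖RT g0 (WithLp.toLp 2 f) - WithLp.toLp 2 f‖ ^ 2 = ∑ g, ‖f (g * g0) - f g‖ ^ 2 := by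
  rw [PiLp.norm_sq_eq_of_L2]
  refine Finset.sum_congr rfl fun g _ => ?_
  rw [PiLp.sub_apply, RT_apply]

end translations

section
variable {q : ℕ → ℕ} [hq : ∀ r, Fact (q r).Prime] {eps : ℕ → ℝ} (hp : Params q eps) (m : ℕ)

theorem lampE_add {X Z I : Type*} (c c' : X → ZMod 2) :
    (lampE (c + c') : WG X Z I) = lampE c * lampE c' := by
  ext x
  · simp [lampE, WG.mul_c]
  · simp [lampE, WG.mul_k]
  · simp [lampE, WG.mul_y]
  · simp [lampE, WG.mul_y]

theorem mvG_lampE {X Z I : Type*} [Fintype X] [Fintype Z] [DecidableEq X] [DecidableEq Z]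
    [DecidableEq I] (s : I → Equiv.Perm X) (t : I → Equiv.Perm Z) (j : I) (c : X → ZMod 2) :
    mvG s t j * lampE c = lampE (fun w => c ((s j).symm w)) * mvG s t j := by
  ext x
  · simp [lampE, mvG, WG.mul_c]
  · simp [lampE, mvG, WG.mul_k]
  · simp [lampE, mvG, WG.mul_y]
  · simp [lampE, mvG, WG.mul_y]

/-- Every 1-Lipschitz map from the group into an inner product space has two points at word distance at
least `m` (namely `g` and `g * lampE w`, `w` of level `m`) with images at distance at most `300`. -/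
theorem hilbert_side {Z : Type} [Fintype Z] [DecidableEq Z] (t : Fin 5 → Equiv.Perm Z)
    (Ga : Subgroup (WG (Blk q m) Z (Fin 5)))
    (hGa : Ga = Subgroup.closure (Set.range (gen (bo q m) (sPerm hp m) t)))
    {Hs : Type*} [NormedAddCommGroup Hs] [InnerProductSpace ℝ Hs] (f : Ga → Hs)
    (hf : ∀ (g g' : Ga) (j : Option (Fin 5)),
      (g' : WG (Blk q m) Z (Fin 5)) = (g : WG (Blk q m) Z (Fin 5)) *
        gen (bo q m) (sPerm hp m) t j → ‖f g' - f g‖ ≤ 1) :
    ∃ (g g' : Ga) (w : ZMod (q m) × ZMod (q m)),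
      (g' : WG (Blk q m) Z (Fin 5)) = (g : WG (Blk q m) Z (Fin 5)) *
        lampE (Pi.single (⟨Fin.last m, w⟩ : Blk q m) 1) ∧
      ‖f g' - f g‖ ≤ 300 := by
  classical
  have : Fintype Ga := Fintype.ofFinite _
  -- elements of the group
  have hla : ∀ c : Blk q m → ZMod 2, (lampE c : WG (Blk q m) Z (Fin 5)) ∈ Ga := by
    intro c
    rw [hGa]
    apply lampE_mem
    intro w
    obtain ⟨L, _, hL⟩ := reach hp m w
    exact ⟨L, hL⟩
  have hgen : ∀ j, gen (bo q m) (sPerm hp m) t j ∈ Ga := by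
    intro j
    rw [hGa]
    exact Subgroup.subset_closure ⟨j, rfl⟩
  let la : (Blk q m → ZMod 2) → Ga := fun c => ⟨lampE c, hla c⟩
  let gn : Option (Fin 5) → Ga := fun j => ⟨gen (bo q m) (sPerm hp m) t j, hgen j⟩
  let R : (Blk q m → ZMod 2) → PiLp 2 (fun _ : Ga => Hs) →ₗ[ℝ] PiLp 2 (fun _ : Ga => Hs) :=
    fun c => RT (la c)
  have hla0 : la 0 = 1 := by
    apply Subtype.ext
    show (lampE 0 : WG (Blk q m) Z (Fin 5)) = 1
    rfl
  have hlaadd : ∀ c c', la (c + c') = la c * la c' := by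
    intro c c'
    apply Subtype.ext
    show (lampE (c + c') : WG (Blk q m) Z (Fin 5)) = lampE c * lampE c'
    exact lampE_add c c'
  have hR0 : R 0 = LinearMap.id := by
    apply LinearMap.ext
    intro F
    ext g
    show RT (la 0) F g = F g
    rw [RT_apply, hla0, mul_one]
  have hRadd : ∀ c c', R (c + c') = R c ∘ₗ R c' := by
    intro c c'
    apply LinearMap.ext
    intro F
    ext g
    show RT (la (c + c')) F g = RT (la c) (RT (la c') F) g
    rw [RT_apply, RT_apply, RT_apply, hlaadd, mul_assoc]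
  have hRiso : ∀ c v, ‖R c v‖ = ‖v‖ := fun c v => RT_norm _ _
  let v : PiLp 2 (fun _ : Ga => Hs) := WithLp.toLp 2 f
  obtain ⟨h, h0, hi, hii⟩ := spectral R hR0 hRadd hRiso v
  -- energies
  set e : ℝ := Real.sqrt (Fintype.card Ga) with he
  have he0 : 0 ≤ e := Real.sqrt_nonneg _
  have he2 : e ^ 2 = Fintype.card Ga := Real.sq_sqrt (by positivity)
  have hdisp : ∀ j, ‖RT (gn j) v - v‖ ^ 2 ≤ e ^ 2 := by
    intro j
    rw [RT_disp, he2]
    calc ∑ g, ‖f (g * gn j) - f g‖ ^ 2 ≤ ∑ _g : Ga, (1 : ℝ) := by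
          apply Finset.sum_le_sum
          intro g _
          have := hf g (g * gn j) j rfl
          exact pow_le_one₀ (norm_nonneg _) this
      _ = Fintype.card Ga := by simp
  have hdisp' : ∀ j, ‖RT (gn j) v - v‖ ≤ e := fun j =>
    (pow_le_pow_iff_left₀ (norm_nonneg _) he0 two_ne_zero).mp (hdisp j)
  have hmove : ∀ i : Fin 5, nrm (fun T => h (fun w => T (sPerm hp m i w)) - h T) ≤ e := by
    intro i
    refine (hi (RT (gn (some i))) (sPerm hp m i) (fun u => RT_norm _ _) ?_).trans (hdisp' (some i))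
    intro c u
    ext g
    show RT (gn (some i)) (RT (la c) u) g
      = RT (la (fun w => c ((sPerm hp m i).symm w))) (RT (gn (some i)) u) g
    have key : gn (some i) * la c = la (fun w => c ((sPerm hp m i).symm w)) * gn (some i) := by
      apply Subtype.ext
      exact mvG_lampE (sPerm hp m) t i c
    rw [RT_apply, RT_apply, RT_apply, RT_apply, mul_assoc, mul_assoc, key]
  have htog : ∑ T, (if T (bo q m) = true then h T ^ 2 else 0) ≤ e ^ 2 := by
    have h1 := hii (bo q m)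
    have h2 := hdisp none
    have h3 : RT (gn none) v = R (Pi.single (bo q m) 1) v := rfl
    rw [h3, h1] at h2
    have h4 : 0 ≤ ∑ T, (if T (bo q m) = true then h T ^ 2 else 0) := by
      apply Finset.sum_nonneg
      intro T _
      split_ifs
      · positivity
      · exact le_refl _
    linarith
  have hard := block_hardy hp m h e he0 (hmove 0) (hmove 1) (hmove 2) (hmove 3) (hmove 4) htog
    (Fin.last m)
  -- sum over w and g
  have hcard : 0 < (Fintype.card Ga : ℝ) := by exact_mod_cast Fintype.card_pos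
  have hqpos : 0 < (q m : ℝ) := by exact_mod_cast (hq m).out.pos
  by_contra hcon
  push Not at hcon
  have hbig : ∀ (g : Ga) (w : ZMod (q m) × ZMod (q m)),
      (300 : ℝ) ^ 2 ≤ ‖f (g * la (Pi.single (⟨Fin.last m, w⟩ : Blk q m) 1)) - f g‖ ^ 2 := by
    intro g w
    have := hcon g (g * la (Pi.single (⟨Fin.last m, w⟩ : Blk q m) 1)) w rfl
    exact pow_le_pow_left₀ (by norm_num) this.le 2
  have hsumw : ∑ w : ZMod (q m) × ZMod (q m), (300 : ℝ) ^ 2 * Fintype.card Ga
      ≤ ∑ w : ZMod (q m) × ZMod (q m),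
        4 * ∑ T, (if T (⟨Fin.last m, w⟩ : Blk q m) = true then h T ^ 2 else 0) := by
    apply Finset.sum_le_sum
    intro w _
    rw [← hii]
    show _ ≤ ‖RT (la (Pi.single (⟨Fin.last m, w⟩ : Blk q m) 1)) v - v‖ ^ 2
    rw [RT_disp]
    calc (300 : ℝ) ^ 2 * Fintype.card Ga = ∑ _g : Ga, (300 : ℝ) ^ 2 := by
          simp [mul_comm]
      _ ≤ _ := Finset.sum_le_sum fun g _ => hbig g w
  have hcw : (Fintype.card (ZMod (q m) × ZMod (q m)) : ℝ) = (q m : ℝ) ^ 2 := by
    rw [Fintype.card_prod, ZMod.card]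
    push_cast
    ring
  have hleft : ∑ _w : ZMod (q m) × ZMod (q m), (300 : ℝ) ^ 2 * Fintype.card Ga
      = (q m : ℝ) ^ 2 * ((300 : ℝ) ^ 2 * Fintype.card Ga) := by
    rw [Finset.sum_const, Finset.card_univ, nsmul_eq_mul, hcw]
  have hard2 : ∑ w : ZMod (q m) × ZMod (q m),
      ∑ T, (if T (⟨Fin.last m, w⟩ : Blk q m) = true then h T ^ 2 else 0)
      ≤ (120 * e) ^ 2 * (q m : ℝ) ^ 2 := hard
  have hright : ∑ w : ZMod (q m) × ZMod (q m),
        4 * ∑ T, (if T (⟨Fin.last m, w⟩ : Blk q m) = true then h T ^ 2 else 0)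
      ≤ 4 * ((120 * e) ^ 2 * (q m : ℝ) ^ 2) := by
    rw [← Finset.mul_sum]
    exact mul_le_mul_of_nonneg_left hard2 (by norm_num)
  have hfin := hsumw.trans hright
  rw [hleft, mul_pow, he2] at hfin
  have hpos : 0 < (q m : ℝ) ^ 2 * (Fintype.card Ga : ℝ) := by positivity
  nlinarith

end

end L2LP
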