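import Pool.Agent.Helper44.LP.Cover
import Pool.Agent.Helper44.LP.Block

/-!
# The `L^P` embedding of the groups (Lemma 7), part B: the block space
-/

namespace L2LP

open Finset

/-- the five permutations of the block space, indexed by `Fin 5` -/
noncomputable def sPerm {q : ℕ → ℕ} [∀ r, Fact (q r).Prime] {eps : ℕ → ℝ} (hp : Params q eps)
    (m : ℕ) : Fin 5 → Equiv.Perm (Blk q m) :=
  ![pe1 q m, pe2 q m, pT1 q m, pT2 q m,
    Function.Involutive.toPerm (tauF q m) (tauF_invol hp m)]

section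
variable {q : ℕ → ℕ} [hq : ∀ r, Fact (q r).Prime] {eps : ℕ → ℝ} (hp : Params q eps) (m : ℕ)

private theorem sPerm_zero (w : Blk q m) : sPerm hp m 0 w = ⟨w.1, (w.2.1 + 1, w.2.2)⟩ := rfl

private theorem sPerm_one (w : Blk q m) : sPerm hp m 1 w = ⟨w.1, (w.2.1, w.2.2 + 1)⟩ := rfl

private theorem sPerm_four (w : Blk q m) : sPerm hp m 4 w = tauF q m w := rfl

/-- translations in the first direction -/
private theorem go1 (n : ℕ) (L : List (Fin 5 × Bool)) (r : Fin (m + 1)) (x y : ZMod (q r))
    (h : wordVal (sPerm hp m) L (bo q m) = ⟨r, (x, y)⟩) :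
    ∃ L' : List (Fin 5 × Bool), L'.length = L.length + n ∧
      wordVal (sPerm hp m) L' (bo q m) = ⟨r, (x + n, y)⟩ := by
  induction n with
  | zero => exact ⟨L, rfl, by rw [h, Nat.cast_zero, add_zero]⟩
  | succ n ih =>
    obtain ⟨L', h1, h2⟩ := ih
    refine ⟨(0, true) :: L', by rw [List.length_cons, h1]; omega, ?_⟩
    have h3 : wordVal (sPerm hp m) ((0, true) :: L') = sPerm hp m 0 * wordVal (sPerm hp m) L' := by
      simp [wordVal, letterVal]
    rw [h3, Equiv.Perm.mul_apply, h2, sPerm_zero]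
    push_cast
    rw [← add_assoc]

/-- translations in the second direction -/
private theorem go2 (n : ℕ) (L : List (Fin 5 × Bool)) (r : Fin (m + 1)) (x y : ZMod (q r))
    (h : wordVal (sPerm hp m) L (bo q m) = ⟨r, (x, y)⟩) :
    ∃ L' : List (Fin 5 × Bool), L'.length = L.length + n ∧
      wordVal (sPerm hp m) L' (bo q m) = ⟨r, (x, y + n)⟩ := by
  induction n with
  | zero => exact ⟨L, rfl, by rw [h, Nat.cast_zero, add_zero]⟩
  | succ n ih =>
    obtain ⟨L', h1, h2⟩ := ih
    refine ⟨(1, true) :: L', by rw [List.length_cons, h1]; omega, ?_⟩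
    have h3 : wordVal (sPerm hp m) ((1, true) :: L') = sPerm hp m 1 * wordVal (sPerm hp m) L' := by
      simp [wordVal, letterVal]
    rw [h3, Equiv.Perm.mul_apply, h2, sPerm_one]
    push_cast
    rw [← add_assoc]

/-- every point of a block is reached from every other one by translations -/
private theorem go (L : List (Fin 5 × Bool)) (r : Fin (m + 1)) (x y x' y' : ZMod (q r))
    (h : wordVal (sPerm hp m) L (bo q m) = ⟨r, (x, y)⟩) :
    ∃ L' : List (Fin 5 × Bool), L'.length ≤ L.length + 2 * q r ∧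
      wordVal (sPerm hp m) L' (bo q m) = ⟨r, (x', y')⟩ := by
  obtain ⟨L1, h1, h2⟩ := go1 hp m (x' - x).val L r x y h
  obtain ⟨L2, h3, h4⟩ := go2 hp m (y' - y).val L1 r _ y h2
  have e1 := ZMod.val_lt (x' - x)
  have e2 := ZMod.val_lt (y' - y)
  refine ⟨L2, by omega, ?_⟩
  rw [h4, ZMod.natCast_zmod_val, ZMod.natCast_zmod_val, add_sub_cancel, add_sub_cancel]

private theorem reach_aux (n : ℕ) : ∀ (hn : n < m + 1) (x y : ZMod (q n)),
    ∃ L : List (Fin 5 × Bool), L.length ≤ ∑ i ∈ range (n + 1), (2 * q i + 1) ∧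
      wordVal (sPerm hp m) L (bo q m) = (⟨⟨n, hn⟩, (x, y)⟩ : Blk q m) := by
  induction n with
  | zero =>
    intro hn x y
    obtain ⟨L, h1, h2⟩ := go hp m [] ⟨0, hn⟩ 0 0 x y rfl
    refine ⟨L, ?_, h2⟩
    simp only [List.length_nil, zero_add] at h1
    rw [zero_add, sum_range_one]
    omega
  | succ n ih =>
    intro hn x y
    have hpos : 0 < q (n + 1) := (hq (n + 1)).out.pos
    let d : Mt q m := ⟨⟨n, by omega⟩, ⟨0, hpos⟩⟩
    obtain ⟨L, h1, h2⟩ := ih (by omega) (pt (q n) 0).1 (pt (q n) 0).2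
    have h3 : wordVal (sPerm hp m) ((4, true) :: L) (bo q m)
        = (⟨⟨n + 1, hn⟩, (((0 : ℕ) : ZMod (q (n + 1))), ((0 : ℕ) : ZMod (q (n + 1))) ^ 2)⟩ : Blk q m) := by
      have h4 : wordVal (sPerm hp m) ((4, true) :: L) = sPerm hp m 4 * wordVal (sPerm hp m) L := by
        simp [wordVal, letterVal]
      rw [h4, Equiv.Perm.mul_apply, h2, sPerm_four]
      exact tauF_upP hp m d
    obtain ⟨L', h5, h6⟩ := go hp m _ ⟨n + 1, hn⟩ _ _ x y h3
    refine ⟨L', ?_, h6⟩
    rw [sum_range_succ]
    rw [List.length_cons] at h5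
    simp only at h5
    omega

/-- every point of level `r` is reached from `o` by a word of length `sum_{i<=r} (2 q_i + 1)` -/
theorem reach (w : Blk q m) :
    ∃ L : List (Fin 5 × Bool), L.length ≤ ∑ i ∈ range (w.1 + 1), (2 * q i + 1) ∧
      wordVal (sPerm hp m) L (bo q m) = w :=
  reach_aux hp m w.1 w.1.2 w.2.1 w.2.2

/-- the weight function coming from a function of the level -/
theorem weight_cost (gl : ℕ → ℝ) (P : ℝ) (hP : 1 ≤ P) (i : Fin 5) :
    ∑ w : Blk q m, |gl ((sPerm hp m i)⁻¹ w).1 - gl w.1| ^ P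
      ≤ 2 * ∑ r ∈ range m, (q (r + 1) : ℝ) * |gl (r + 1) - gl r| ^ P := by
  classical
  have hP0 : P ≠ 0 := by linarith
  have hR : 0 ≤ 2 * ∑ r ∈ range m, (q (r + 1) : ℝ) * |gl (r + 1) - gl r| ^ P := by
    have : 0 ≤ ∑ r ∈ range m, (q (r + 1) : ℝ) * |gl (r + 1) - gl r| ^ P :=
      sum_nonneg fun r _ => mul_nonneg (Nat.cast_nonneg _) (Real.rpow_nonneg (abs_nonneg _) _)
    linarith
  by_cases hi : i = 4
  · subst hi
    have hinv : ∀ w, (sPerm hp m 4)⁻¹ w = tauF q m w := by
      intro w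
      rw [Equiv.Perm.inv_eq_iff_eq, sPerm_four, tauF_invol hp m w]
    set f : Blk q m → ℝ := fun w => |gl (tauF q m w).1 - gl w.1| ^ P with hf
    have hfn : ∀ w, 0 ≤ f w := fun w => Real.rpow_nonneg (abs_nonneg _) _
    have h0 : ∑ w : Blk q m, |gl ((sPerm hp m 4)⁻¹ w).1 - gl w.1| ^ P = ∑ w, f w :=
      sum_congr rfl fun w _ => by rw [hinv w]
    rw [h0]
    have hup : ∀ d : Mt q m, f (upP q m d) = |gl (d.1 + 1) - gl d.1| ^ P := by
      intro d
      simp only [hf]
      rw [tauF_upP hp m d]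
      rfl
    have hlo : ∀ d : Mt q m, f (loP q m d) = |gl (d.1 + 1) - gl d.1| ^ P := by
      intro d
      simp only [hf]
      rw [tauF_loP hp m d, abs_sub_comm]
      rfl
    have hout : ∀ w, w ∉ univ.image (upP q m) ∪ univ.image (loP q m) → f w = 0 := by
      intro w hw
      rw [mem_union, mem_image, mem_image] at hw
      push Not at hw
      simp only [hf]
      rw [tauF_of_ne hp m w (fun d => hw.1 d (mem_univ _)) (fun d => hw.2 d (mem_univ _)), sub_self,
        abs_zero, Real.zero_rpow hP0]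
    have h1 : ∑ w, f w = ∑ w ∈ univ.image (upP q m) ∪ univ.image (loP q m), f w :=
      (sum_subset (subset_univ _) fun w _ hw => hout w hw).symm
    have h2 : ∑ w ∈ univ.image (upP q m) ∪ univ.image (loP q m), f w
        ≤ ∑ w ∈ univ.image (upP q m), f w + ∑ w ∈ univ.image (loP q m), f w := by
      rw [← sum_union_inter]
      have : 0 ≤ ∑ w ∈ univ.image (upP q m) ∩ univ.image (loP q m), f w :=
        sum_nonneg fun w _ => hfn w
      linarith
    have h3 : ∑ w ∈ univ.image (upP q m), f w = ∑ d : Mt q m, |gl (d.1 + 1) - gl d.1| ^ P := by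
      rw [sum_image fun a _ b _ h => upP_injective hp m h]
      exact sum_congr rfl fun d _ => hup d
    have h4 : ∑ w ∈ univ.image (loP q m), f w = ∑ d : Mt q m, |gl (d.1 + 1) - gl d.1| ^ P := by
      rw [sum_image fun a _ b _ h => loP_injective hp m h]
      exact sum_congr rfl fun d _ => hlo d
    have h5 : ∑ d : Mt q m, |gl (d.1 + 1) - gl d.1| ^ P
        = ∑ r ∈ range m, (q (r + 1) : ℝ) * |gl (r + 1) - gl r| ^ P := by
      rw [Fintype.sum_sigma, Finset.sum_range (fun r => (q (r + 1) : ℝ) * |gl (r + 1) - gl r| ^ P)]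
      refine sum_congr rfl fun r _ => ?_
      change ∑ _y : Fin (q (r + 1)), |gl (r + 1) - gl r| ^ P = _
      rw [sum_const, card_univ, Fintype.card_fin, nsmul_eq_mul]
    rw [h1]
    rw [h3, h4, h5] at h2
    linarith
  · have hlev : ∀ w : Blk q m, (((sPerm hp m i)⁻¹ w).1 : Fin (m + 1)) = w.1 := by
      intro w
      have h1 : ∀ v : Blk q m, (sPerm hp m i v).1 = v.1 := by
        intro v
        fin_cases i
        · rfl
        · rfl
        · rfl
        · rfl
        · exact absurd rfl hi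
      have h2 := h1 ((sPerm hp m i)⁻¹ w)
      rw [← h2]
      simp
    refine le_trans (le_of_eq ?_) hR
    refine sum_eq_zero fun w _ => ?_
    rw [hlev w, sub_self, abs_zero, Real.zero_rpow hP0]

include hp in
private theorem level_tau (w : Blk q m) :
    ((tauF q m w).1 : ℕ) ≤ (w.1 : ℕ) + 1 ∧ (w.1 : ℕ) ≤ ((tauF q m w).1 : ℕ) + 1 := by
  by_cases h1 : ∃ d, upP q m d = w
  · obtain ⟨d, rfl⟩ := h1
    rw [tauF_upP hp m d]
    simp only [upP, loP, Fin.val_castSucc, Fin.val_succ]
    omega
  · by_cases h2 : ∃ d, loP q m d = w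
    · obtain ⟨d, rfl⟩ := h2
      rw [tauF_loP hp m d]
      simp only [upP, loP, Fin.val_castSucc, Fin.val_succ]
      omega
    · push Not at h1 h2
      rw [tauF_of_ne hp m w h1 h2]
      omega

private theorem level_s (i : Fin 5) (w : Blk q m) :
    ((sPerm hp m i w).1 : ℕ) ≤ (w.1 : ℕ) + 1 ∧ (w.1 : ℕ) ≤ ((sPerm hp m i w).1 : ℕ) + 1 := by
  fin_cases i
  · exact ⟨Nat.le_succ _, Nat.le_succ _⟩
  · exact ⟨Nat.le_succ _, Nat.le_succ _⟩
  · exact ⟨Nat.le_succ _, Nat.le_succ _⟩
  · exact ⟨Nat.le_succ _, Nat.le_succ _⟩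
  · exact level_tau hp m w

private theorem level_letter (p : Fin 5 × Bool) (w : Blk q m) :
    (w.1 : ℕ) ≤ ((((letterVal (sPerm hp m) p))⁻¹ w).1 : ℕ) + 1 := by
  unfold letterVal
  cases p.2
  · simp only [Bool.false_eq_true, if_false, inv_inv]
    exact (level_s hp m p.1 w).2
  · simp only [if_true]
    have h := (level_s hp m p.1 ((sPerm hp m p.1)⁻¹ w)).1
    have e : sPerm hp m p.1 ((sPerm hp m p.1)⁻¹ w) = w := by simp
    rw [e] at h
    exact h

/-- toggling a far lamp is expensive -/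
private theorem level_word {Z : Type*} [Fintype Z] [DecidableEq Z] (t : Fin 5 → Equiv.Perm Z)
    (L : List (Option (Fin 5) × Bool)) : ∀ w : Blk q m,
    (wordVal (gen (bo q m) (sPerm hp m) t) L).c w ≠ 0 → (w.1 : ℕ) ≤ L.length := by
  induction L with
  | nil =>
    intro w hw
    exact absurd (by simp [wordVal, WG.one_c]) hw
  | cons p L ih =>
    intro w hw
    have h1 : wordVal (gen (bo q m) (sPerm hp m) t) (p :: L)
        = letterVal (gen (bo q m) (sPerm hp m) t) p * wordVal (gen (bo q m) (sPerm hp m) t) L := by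
      simp [wordVal]
    rw [h1, WG.mul_c] at hw
    rw [List.length_cons]
    obtain ⟨j, b⟩ := p
    cases j with
    | none =>
      have h2 : (letterVal (gen (bo q m) (sPerm hp m) t) (none, b)).y.1⁻¹ w = w := by
        cases b
        · simp [letterVal, gen, lampE, WG.inv_y]
        · simp [letterVal, gen, lampE]
      by_cases h3 : w = bo q m
      · rw [h3]; exact Nat.zero_le _
      · have h4 : (letterVal (gen (bo q m) (sPerm hp m) t) (none, b)).c w = 0 := by
          cases b
          · simp [letterVal, gen, lampE, WG.inv_c, h3]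
          · simp [letterVal, gen, lampE, h3]
        rw [h2, h4, zero_add] at hw
        exact (ih w hw).trans (Nat.le_succ _)
    | some i =>
      have h2 : (letterVal (gen (bo q m) (sPerm hp m) t) (some i, b)).y.1
          = letterVal (sPerm hp m) (i, b) := by
        cases b
        · simp [letterVal, gen, mvG, WG.inv_y]
        · simp [letterVal, gen, mvG]
      have h4 : (letterVal (gen (bo q m) (sPerm hp m) t) (some i, b)).c w = 0 := by
        cases b
        · simp [letterVal, gen, mvG, WG.inv_c]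
        · simp [letterVal, gen, mvG]
      rw [h2, h4, zero_add] at hw
      have h5 := ih _ hw
      have h6 := level_letter hp m (i, b) w
      omega

/-- toggling a far lamp is expensive -/
theorem level_dist {Z : Type*} [Fintype Z] [DecidableEq Z] (t : Fin 5 → Equiv.Perm Z)
    (w : Blk q m) (L : List (Option (Fin 5) × Bool))
    (hL : wordVal (gen (bo q m) (sPerm hp m) t) L = lampE (Pi.single w 1)) :
    (w.1 : ℕ) ≤ L.length := by
  apply level_word hp m t L w
  rw [hL]
  simp [lampE]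

end

end L2LP
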