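import Pool.Agent.Helper44.LP.LPsideA
import Pool.Agent.Helper44.LP.LPsideB

/-!
# The `L^P` side (Lemma 7): see the two imported files
-/
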