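import Pool.Agent.Helper44.LP.Cover

/-!
# The `L^P` embedding of the groups (Lemma 7), part A: general facts
-/

namespace L2LP

open Finset

/-- the map into `ell^P(X ⊕ E)`; `G` is the weight function on `X` -/
noncomputable def FF {X Z I : Type*} (G : X → ℝ) (g : WG X Z I) :
    X ⊕ ((Equiv.Perm X × Equiv.Perm Z) × I) → ℝ
  | Sum.inl w => if g.c w = 0 then 0 else G (g.y.1⁻¹ w)
  | Sum.inr e => if g.k e = 0 then 0 else 1

section words

variable {H I J : Type*} [Group H]

private theorem wv_nil (s : I → H) : wordVal s [] = 1 := by simp [wordVal]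

private theorem wv_cons (s : I → H) (p : I × Bool) (L : List (I × Bool)) :
    wordVal s (p :: L) = letterVal s p * wordVal s L := by simp [wordVal]

private theorem wv_append (s : I → H) (L L' : List (I × Bool)) :
    wordVal s (L ++ L') = wordVal s L * wordVal s L' := by simp [wordVal]

/-- the inverse word -/
private def invW (L : List (I × Bool)) : List (I × Bool) := (L.map (fun p => (p.1, !p.2))).reverse

private theorem invW_length (L : List (I × Bool)) : (invW L).length = L.length := by
  simp [invW]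

private theorem wv_invW (s : I → H) (L : List (I × Bool)) :
    wordVal s (invW L) = (wordVal s L)⁻¹ := by
  induction L with
  | nil => simp [invW, wordVal]
  | cons p L ih =>
    have h1 : invW (p :: L) = invW L ++ [(p.1, !p.2)] := by simp [invW]
    have h2 : letterVal s (p.1, !p.2) = (letterVal s p)⁻¹ := by
      unfold letterVal
      cases p.2 <;> simp
    rw [h1, wv_append, ih, wv_cons, wv_cons, wv_nil, h2]
    simp

private theorem wv_map (f : I → J) (s : J → H) (L : List (I × Bool)) :
    wordVal s (L.map (fun p => (f p.1, p.2))) = wordVal (fun i => s (f i)) L := by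
  induction L with
  | nil => simp [wordVal]
  | cons p L ih =>
    rw [List.map_cons, wv_cons, wv_cons, ih]
    rfl

end words

section

variable {X Z I : Type*} [Fintype X] [Fintype Z] [DecidableEq X] [DecidableEq Z] [DecidableEq I]

private theorem wv_gen (o : X) (s : I → Equiv.Perm X) (t : I → Equiv.Perm Z)
    (L : List (I × Bool)) :
    wordVal (gen o s t) (L.map (fun p => (some p.1, p.2))) = wordVal (mvG s t) L :=
  wv_map some (gen o s t) L

private theorem mvG_word_c (s : I → Equiv.Perm X) (t : I → Equiv.Perm Z) (L : List (I × Bool)) :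
    (wordVal (mvG s t) L).c = 0 := by
  induction L with
  | nil => rw [wv_nil]; rfl
  | cons p L ih =>
    rw [wv_cons]
    funext w
    rw [WG.mul_c, ih]
    unfold letterVal
    cases p.2
    · simp [WG.inv_c, mvG]
    · simp [mvG]

private theorem mvG_word_y (s : I → Equiv.Perm X) (t : I → Equiv.Perm Z) (L : List (I × Bool)) :
    (wordVal (mvG s t) L).y.1 = wordVal s L := by
  induction L with
  | nil => rw [wv_nil, wv_nil]; rfl
  | cons p L ih =>
    rw [wv_cons, wv_cons, WG.mul_y, Prod.fst_mul, ih]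
    congr 1
    unfold letterVal
    cases p.2
    · simp [WG.inv_y, mvG]
    · simp [mvG]

end

/-- Lipschitz estimate for the toggle and the moves -/
theorem FF_lip {X Z I : Type*} [Fintype X] [Fintype Z] [Fintype I] [DecidableEq X] [DecidableEq Z]
    [DecidableEq I] (o : X) (s : I → Equiv.Perm X) (t : I → Equiv.Perm Z) (G : X → ℝ) (P : ℝ)
    (hP : 1 ≤ P) (hGo : G o = 0)
    (hG : ∀ i, ∑ w, |G ((s i)⁻¹ w) - G w| ^ P ≤ 1) (g : WG X Z I) (j : Option I) :
    ∑ a, |FF G (g * gen o s t j) a - FF G g a| ^ P ≤ 2 := by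
  have hP0 : P ≠ 0 := by linarith
  rw [Fintype.sum_sum_type]
  cases j with
  | none =>
    have h1 : ∀ w : X, |FF G (g * gen o s t none) (Sum.inl w) - FF G g (Sum.inl w)| ^ P = 0 := by
      intro w
      have h2 : (g * gen o s t none).y.1⁻¹ w = g.y.1⁻¹ w := by
        simp [WG.mul_y, gen, lampE]
      have h3 : (g * gen o s t none).c w = g.c w + (Pi.single o 1 : X → ZMod 2) (g.y.1⁻¹ w) := rfl
      have h4 : FF G (g * gen o s t none) (Sum.inl w) - FF G g (Sum.inl w) = 0 := by
        simp only [FF]
        rw [h2, h3]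
        by_cases h : g.y.1⁻¹ w = o
        · rw [h, hGo]; simp
        · rw [Pi.single_eq_of_ne h, add_zero, sub_self]
      rw [h4, abs_zero, Real.zero_rpow hP0]
    have h2 : ∀ e : (Equiv.Perm X × Equiv.Perm Z) × I,
        |FF G (g * gen o s t none) (Sum.inr e) - FF G g (Sum.inr e)| ^ P = 0 := by
      intro e
      have h3 : (g * gen o s t none).k e = g.k e := by
        simp [WG.mul_k, gen, lampE]
      have h4 : FF G (g * gen o s t none) (Sum.inr e) - FF G g (Sum.inr e) = 0 := by
        simp only [FF]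
        rw [h3, sub_self]
      rw [h4, abs_zero, Real.zero_rpow hP0]
    rw [sum_eq_zero fun w _ => h1 w, sum_eq_zero fun e _ => h2 e]
    norm_num
  | some i =>
    have h1 : ∑ w : X, |FF G (g * gen o s t (some i)) (Sum.inl w) - FF G g (Sum.inl w)| ^ P ≤ 1 := by
      refine le_trans ?_ (hG i)
      rw [← Equiv.sum_comp (g.y.1⁻¹) (fun w => |G ((s i)⁻¹ w) - G w| ^ P)]
      refine sum_le_sum fun w _ => ?_
      have h2 : (g * gen o s t (some i)).y.1⁻¹ w = (s i)⁻¹ (g.y.1⁻¹ w) := by
        simp [WG.mul_y, gen, mvG, mul_inv_rev]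
      have h3 : (g * gen o s t (some i)).c w = g.c w := by
        simp [WG.mul_c, gen, mvG]
      simp only [FF]
      rw [h2, h3]
      by_cases h : g.c w = 0
      · rw [if_pos h, if_pos h, sub_self, abs_zero, Real.zero_rpow hP0]
        exact Real.rpow_nonneg (abs_nonneg _) _
      · rw [if_neg h, if_neg h]
    have h2 : ∑ e : (Equiv.Perm X × Equiv.Perm Z) × I,
        |FF G (g * gen o s t (some i)) (Sum.inr e) - FF G g (Sum.inr e)| ^ P ≤ 1 := by
      rw [Finset.sum_eq_single (g.y, i)]
      · simp only [FF]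
        split_ifs <;> simp [Real.zero_rpow hP0]
      · intro e _ he
        have h3 : (g * gen o s t (some i)).k e = g.k e := by
          rw [WG.mul_k]
          have : ((g.y⁻¹ * e.1, e.2) : (Equiv.Perm X × Equiv.Perm Z) × I) ≠ (1, i) := by
            intro h
            apply he
            rw [Prod.mk.injEq] at h
            ext1
            · exact (inv_mul_eq_one.1 h.1).symm
            · exact h.2
          simp only [gen, mvG]
          rw [Pi.single_eq_of_ne this, add_zero]
        simp only [FF]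
        rw [h3, sub_self, abs_zero, Real.zero_rpow hP0]
      · intro h; exact absurd (mem_univ _) h
    linarith

/-- the word length of a lamp at `w` -/
theorem lamp_word {X Z I : Type*} [Fintype X] [Fintype Z] [Fintype I] [DecidableEq X] [DecidableEq Z]
    [DecidableEq I] (o : X) (s : I → Equiv.Perm X) (t : I → Equiv.Perm Z) (w : X) (d : ℕ)
    (hw : ∃ L : List (I × Bool), L.length ≤ d ∧ wordVal s L o = w) :
    ∃ L : List (Option I × Bool), L.length ≤ 2 * d + 1 ∧
      wordVal (gen o s t) L = lampE (Pi.single w 1) := by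
  obtain ⟨L, hL, hw⟩ := hw
  refine ⟨L.map (fun p => (some p.1, p.2)) ++ ((none, true) :: invW (L.map (fun p => (some p.1, p.2)))),
    ?_, ?_⟩
  · rw [List.length_append, List.length_cons, invW_length, List.length_map]
    omega
  · rw [wv_append, wv_cons, wv_invW, wv_gen]
    have hc := mvG_word_c s t L
    have hy := mvG_word_y s t L
    set u := wordVal (mvG s t) L with hu
    have h0 : letterVal (gen o s t) (none, true) = lampE (Pi.single o 1) := by
      simp [letterVal, gen]
    rw [h0]
    have hcw : ∀ x, u.c x = 0 := fun x => by rw [hc]; rfl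
    refine WG.ext ?_ ?_ ?_
    · funext x
      rw [WG.mul_c, WG.mul_c, WG.inv_c, hcw, hcw]
      simp only [lampE, neg_zero, add_zero, zero_add]
      rw [hy]
      by_cases hx : x = w
      · subst hx
        rw [Pi.single_eq_same]
        have : (wordVal s L)⁻¹ x = o := by
          rw [← hw]; simp
        rw [this, Pi.single_eq_same]
      · rw [Pi.single_eq_of_ne hx, Pi.single_eq_of_ne]
        intro h
        apply hx
        rw [← hw, ← h]
        simp
    · funext e
      rw [WG.mul_k, WG.mul_k, WG.inv_k]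
      simp only [lampE, Pi.zero_apply, zero_add, inv_one, one_mul, mul_inv_cancel_left]
      rw [add_neg_cancel]
    · rw [WG.mul_y, WG.mul_y, WG.inv_y]
      simp [lampE]

/-- lamp configurations multiply by adding -/
private theorem lampE_add {X Z I : Type*} (c c' : X → ZMod 2) :
    (lampE (fun w => c w + c' w) : WG X Z I) = lampE c * lampE c' := by
  refine WG.ext ?_ ?_ ?_
  · funext w
    rw [WG.mul_c]
    simp [lampE]
  · funext e
    rw [WG.mul_k]
    simp [lampE]
  · rw [WG.mul_y]
    simp [lampE]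

/-- the word length of a lamp configuration supported on `A` -/
private theorem lamps_word {X Z I : Type*} [Fintype X] [Fintype Z] [Fintype I] [DecidableEq X]
    [DecidableEq Z] [DecidableEq I] (o : X) (s : I → Equiv.Perm X) (t : I → Equiv.Perm Z) (d : ℕ)
    (A : Finset X) (hA : ∀ w ∈ A, ∃ L : List (I × Bool), L.length ≤ d ∧ wordVal s L o = w) :
    ∃ L : List (Option I × Bool), L.length ≤ A.card * (2 * d + 1) ∧
      wordVal (gen o s t) L = lampE (fun w => if w ∈ A then 1 else 0) := by
  induction A using Finset.induction_on with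
  | empty =>
    refine ⟨[], by simp, ?_⟩
    rw [wv_nil]
    refine WG.ext ?_ ?_ ?_
    · funext w; simp [lampE, WG.one_c]
    · funext w; simp [lampE, WG.one_k]
    · simp [lampE, WG.one_y]
  | insert w A hw ih =>
    obtain ⟨L1, h1, h2⟩ := ih (fun x hx => hA x (mem_insert_of_mem hx))
    obtain ⟨L2, h3, h4⟩ := lamp_word o s t w d (hA w (mem_insert_self _ _))
    refine ⟨L2 ++ L1, ?_, ?_⟩
    · rw [List.length_append, card_insert_of_notMem hw]
      have : (A.card + 1) * (2 * d + 1) = A.card * (2 * d + 1) + (2 * d + 1) := by ring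
      omega
    · rw [wv_append, h2, h4, ← lampE_add]
      congr 1
      funext x
      by_cases hx : x = w
      · subst hx
        simp [hw]
      · rw [Pi.single_eq_of_ne hx]
        simp [hx]

/-- moving along a word changes the weight by at most its length -/
private theorem weight_word {X I : Type*} [Fintype X] (s : I → Equiv.Perm X) (G : X → ℝ)
    (h : ∀ i w, |G ((s i)⁻¹ w) - G w| ≤ 1) (L : List (I × Bool)) (w : X) :
    G w ≤ G ((wordVal s L)⁻¹ w) + L.length := by
  induction L generalizing w with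
  | nil => rw [wv_nil]; simp
  | cons p L ih =>
    rw [wv_cons, mul_inv_rev, Equiv.Perm.mul_apply, List.length_cons]
    have h1 := ih ((letterVal s p)⁻¹ w)
    have h2 : |G ((letterVal s p)⁻¹ w) - G w| ≤ 1 := by
      unfold letterVal
      cases p.2
      · have := h p.1 (s p.1 w)
        simp only [Bool.false_eq_true, if_false, inv_inv]
        have e : (s p.1)⁻¹ (s p.1 w) = w := by simp
        rw [e] at this
        rw [abs_sub_comm]
        exact this
      · simpa using h p.1 w
    rw [abs_le] at h2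
    push_cast
    linarith [h2.1]

private theorem le_of_rpow_le {x R P : ℝ} (hR : 0 ≤ R) (hP : 1 ≤ P)
    (h : x ^ P ≤ R) : x ≤ R + 1 := by
  by_cases h1 : x ≤ 1
  · linarith
  · push Not at h1
    have : x ≤ x ^ P := by
      nth_rewrite 1 [← Real.rpow_one x]
      exact Real.rpow_le_rpow_of_exponent_le h1.le hP
    linarith

/-- Lower bound: general form. `good` is a finite set of points of `X` containing all points with
`G w ≤ ρ`; each of them is reached from `o` by a word of length at most `d`. -/
theorem FF_lower {X Z I : Type*} [Fintype X] [Fintype Z] [Fintype I] [DecidableEq X] [DecidableEq Z]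
    [DecidableEq I] (o : X) (s : I → Equiv.Perm X) (t : I → Equiv.Perm Z) (G : X → ℝ) (P : ℝ)
    (hP : 1 ≤ P) (hG0 : ∀ w, 0 ≤ G w) (hGo : G o = 0)
    (hG : ∀ i, ∑ w, |G ((s i)⁻¹ w) - G w| ^ P ≤ 1) (n : ℕ) (hg : GirthGT t n)
    (R : ℝ) (hR : 0 ≤ R) (hRn : R ≤ n) (d : ℕ) (good : Finset X)
    (hgood : ∀ w, G w ≤ R + 1 + R → w ∈ good)
    (hgoodw : ∀ w ∈ good, ∃ L : List (I × Bool), L.length ≤ d ∧ wordVal s L o = w)
    (g g' : WG X Z I) (hgm : g ∈ Subgroup.closure (Set.range (gen o s t)))
    (hgm' : g' ∈ Subgroup.closure (Set.range (gen o s t)))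
    (hdist : ∑ a, |FF G g a - FF G g' a| ^ P ≤ R) :
    ∃ L : List (Option I × Bool), (L.length : ℝ) ≤ R + good.card * (2 * d + 1) ∧
      wordVal (gen o s t) L = g⁻¹ * g' := by
  classical
  have hP0 : P ≠ 0 := by linarith
  have hnn : ∀ a, 0 ≤ |FF G g a - FF G g' a| ^ P := fun a => Real.rpow_nonneg (abs_nonneg _) _
  -- single coordinates
  have hone : ∀ a, |FF G g a - FF G g' a| ^ P ≤ R := fun a =>
    (Finset.single_le_sum (fun a _ => hnn a) (mem_univ a)).trans hdist
  have hGlip : ∀ i w, |G ((s i)⁻¹ w) - G w| ≤ 1 := by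
    intro i w
    have h1 : |G ((s i)⁻¹ w) - G w| ^ P ≤ 1 :=
      (Finset.single_le_sum (f := fun w => |G ((s i)⁻¹ w) - G w| ^ P)
        (fun w _ => Real.rpow_nonneg (abs_nonneg _) _) (mem_univ w)).trans (hG i)
    by_contra h
    push Not at h
    have := Real.one_lt_rpow h (by linarith : 0 < P)
    linarith
  -- the edge part
  have hcard : ((univ.filter (fun e => (g⁻¹ * g').k e ≠ 0)).card : ℝ) ≤ R := by
    have h1 : ∑ e : (Equiv.Perm X × Equiv.Perm Z) × I, |FF G g (Sum.inr e) - FF G g' (Sum.inr e)| ^ P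
        ≤ R := by
      rw [Fintype.sum_sum_type] at hdist
      have : 0 ≤ ∑ w : X, |FF G g (Sum.inl w) - FF G g' (Sum.inl w)| ^ P :=
        sum_nonneg fun w _ => hnn _
      linarith
    refine le_trans (le_of_eq ?_) h1
    let φ : ((Equiv.Perm X × Equiv.Perm Z) × I) ≃ ((Equiv.Perm X × Equiv.Perm Z) × I) :=
      (Equiv.mulLeft g.y).prodCongr (Equiv.refl I)
    rw [← Equiv.sum_comp φ, Finset.card_filter]
    push_cast
    refine Finset.sum_congr rfl fun e _ => ?_
    have h2 : (g⁻¹ * g').k e = - g.k (φ e) + g'.k (φ e) := by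
      rw [WG.mul_k, WG.inv_k, WG.inv_y, inv_inv]
      rfl
    rw [h2]
    simp only [FF]
    have h3 : ∀ a b : ZMod 2, (- a + b ≠ 0) ↔ ((a = 0 ∧ b ≠ 0) ∨ (a ≠ 0 ∧ b = 0)) := by decide
    by_cases ha : g.k (φ e) = 0 <;> by_cases hb : g'.k (φ e) = 0
    · rw [if_neg (by rw [h3]; tauto), if_pos ha, if_pos hb]
      simp [Real.zero_rpow hP0]
    · rw [if_pos (by rw [h3]; tauto), if_pos ha, if_neg hb]
      simp
    · rw [if_pos (by rw [h3]; tauto), if_neg ha, if_pos hb]
      simp
    · rw [if_neg (by rw [h3]; tauto), if_neg ha, if_neg hb]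
      simp [Real.zero_rpow hP0]
  have hcardn : (univ.filter (fun e => (g⁻¹ * g').k e ≠ 0)).card ≤ n := by
    have := hcard.trans hRn
    exact_mod_cast this
  obtain ⟨L1, _, hL1, hv1⟩ := cover_word o s t n hg (g⁻¹ * g')
    (Subgroup.mul_mem _ (Subgroup.inv_mem _ hgm) hgm') hcardn
  have hL1R : (L1.length : ℝ) ≤ R := by rw [hL1]; exact hcard
  -- the lamps
  have hyv : (g⁻¹ * g').y.1 = wordVal s L1 := by
    rw [← mvG_word_y s t L1, hv1]
  have hsupp : ∀ w, (g⁻¹ * g').c w ≠ 0 → w ∈ good := by
    intro w hw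
    apply hgood
    have h2 : (g⁻¹ * g').c w = - g.c (g.y.1 w) + g'.c (g.y.1 w) := by
      rw [WG.mul_c, WG.inv_c, WG.inv_y]
      simp
    have h3 : ∀ a b : ZMod 2, (- a + b ≠ 0) → ((a = 0 ∧ b ≠ 0) ∨ (a ≠ 0 ∧ b = 0)) := by decide
    rw [h2] at hw
    have h4 := hone (Sum.inl (g.y.1 w))
    simp only [FF] at h4
    rcases h3 _ _ hw with ⟨ha, hb⟩ | ⟨ha, hb⟩
    · rw [if_pos ha, if_neg hb, zero_sub, abs_neg, abs_of_nonneg (hG0 _)] at h4
      have h5 := le_of_rpow_le hR hP h4
      have h6 : g'.y.1⁻¹ (g.y.1 w) = (wordVal s L1)⁻¹ w := by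
        rw [← hyv, WG.mul_y, WG.inv_y]
        simp [mul_inv_rev]
      rw [h6] at h5
      have h7 := weight_word s G hGlip L1 w
      linarith
    · rw [if_neg ha, if_pos hb, sub_zero, abs_of_nonneg (hG0 _)] at h4
      have h5 := le_of_rpow_le hR hP h4
      have h6 : g.y.1⁻¹ (g.y.1 w) = w := by simp
      rw [h6] at h5
      linarith
  obtain ⟨L2, hL2, hv2⟩ := lamps_word o s t d (univ.filter (fun w => (g⁻¹ * g').c w ≠ 0))
    (fun w hw => hgoodw w (hsupp w (mem_filter.1 hw).2))
  refine ⟨L2 ++ L1.map (fun p => (some p.1, p.2)), ?_, ?_⟩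
  · rw [List.length_append, List.length_map]
    have h1 : (univ.filter (fun w => (g⁻¹ * g').c w ≠ 0)).card ≤ good.card :=
      card_le_card fun w hw => hsupp w (mem_filter.1 hw).2
    have h2 : L2.length ≤ good.card * (2 * d + 1) := hL2.trans (Nat.mul_le_mul_right _ h1)
    have h3 : (L2.length : ℝ) ≤ good.card * (2 * d + 1) := by exact_mod_cast h2
    push_cast
    linarith
  · rw [wv_append, wv_gen, hv1, hv2]
    refine WG.ext ?_ ?_ ?_
    · funext w
      rw [WG.mul_c]
      simp only [lampE, mem_filter, mem_univ, true_and, Pi.zero_apply, add_zero]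
      have h3 : ∀ a : ZMod 2, (if a ≠ 0 then (1 : ZMod 2) else 0) = a := by decide
      exact h3 _
    · funext e
      rw [WG.mul_k]
      simp [lampE]
    · rw [WG.mul_y]
      simp [lampE]

end L2LP
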