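import Pool.Agent.Helper44.LP.FinalDefs

/-!
# Q1: a connected graph of bounded degree
-/

namespace L2LP

open Filter MeasureTheory

universe u

/-- criterion for coarse embeddings -/
theorem coarseEmb_of {X E : Type*} [NormedAddCommGroup E] (d : X → X → ℝ) (f : X → E)
    (C : ℝ) (hC : 0 ≤ C) (hd : ∀ x y, 0 ≤ d x y)
    (hup : ∀ x y, ‖f x - f y‖ ≤ C * d x y)
    (hlow : ∀ R : ℝ, ∃ rho : ℝ, ∀ x y, ‖f x - f y‖ ≤ R → d x y ≤ rho) : CoarseEmb d f := by
  have hbdd : ∀ t : ℝ, 0 ≤ t →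
      BddBelow (insert t {r : ℝ | ∃ x y, t ≤ d x y ∧ r = ‖f x - f y‖}) := by
    intro t ht
    refine ⟨0, ?_⟩
    rintro r (rfl | ⟨x, y, -, rfl⟩)
    · exact ht
    · exact norm_nonneg _
  refine ⟨fun t => sInf (insert t {r : ℝ | ∃ x y, t ≤ d x y ∧ r = ‖f x - f y‖}),
    fun t => C * t, ?_, ?_, ?_, ?_, ?_, ?_⟩
  · intro s hs t ht hst
    apply le_csInf (Set.insert_nonempty _ _)
    rintro r (rfl | ⟨x, y, hxy, rfl⟩)
    · exact (csInf_le (hbdd s hs) (Set.mem_insert _ _)).trans hst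
    · exact csInf_le (hbdd s hs) (Set.mem_insert_of_mem _ ⟨x, y, hst.trans hxy, rfl⟩)
  · intro s _ t _ hst
    exact mul_le_mul_of_nonneg_left hst hC
  · intro t ht
    apply le_csInf (Set.insert_nonempty _ _)
    rintro r (rfl | ⟨x, y, hxy, rfl⟩)
    · exact ht
    · exact norm_nonneg _
  · intro t ht
    exact mul_nonneg hC ht
  · rw [tendsto_atTop]
    intro R
    obtain ⟨rho, hrho⟩ := hlow R
    filter_upwards [eventually_gt_atTop (max R rho)] with t ht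
    apply le_csInf (Set.insert_nonempty _ _)
    rintro r (rfl | ⟨x, y, hxy, rfl⟩)
    · exact ((le_max_left _ _).trans_lt ht).le
    · by_contra hcon
      have h1 := hrho x y (not_le.mp hcon).le
      have h2 : rho < t := (le_max_right _ _).trans_lt ht
      linarith
  · intro x y
    refine ⟨?_, hup x y⟩
    exact csInf_le (hbdd _ (hd x y)) (Set.mem_insert_of_mem _ ⟨x, y, le_rfl, rfl⟩)

/-- the graph: the identities of the groups `Ga n` form a ray -/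
def rayGraph (Ga : ℕ → Type) [∀ n, Group (Ga n)] (S : ∀ n, Finset (Ga n)) :
    SimpleGraph (Σ n, Ga n) where
  Adj x y := (∃ (n : ℕ) (g h : Ga n), x = ⟨n, g⟩ ∧ y = ⟨n, h⟩ ∧
      (SimpleGraph.mulCayley (S n : Set (Ga n))).Adj g h) ∨
    (∃ n : ℕ, (x = ⟨n, 1⟩ ∧ y = ⟨n + 1, 1⟩) ∨ (y = ⟨n, 1⟩ ∧ x = ⟨n + 1, 1⟩))
  symm := by
    constructor
    rintro x y (⟨n, g, h, hx, hy, hgh⟩ | ⟨n, h⟩)
    · exact Or.inl ⟨n, h, g, hy, hx, hgh.symm⟩
    · exact Or.inr ⟨n, h.symm⟩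
  loopless := by
    constructor
    rintro x (⟨n, g, h, hx, hy, hgh⟩ | ⟨n, h⟩)
    · rw [hx] at hy
      have : g = h := by simpa using hy
      exact hgh.ne this
    · rcases h with ⟨h1, h2⟩ | ⟨h1, h2⟩
      · rw [h1] at h2
        have := congrArg Sigma.fst h2
        simp at this
      · rw [h1] at h2
        have := congrArg Sigma.fst h2
        simp at this

section

variable {Ga : ℕ → Type} [∀ n, Group (Ga n)] {S : ∀ n, Finset (Ga n)}

theorem rayGraph_adj_in {n : ℕ} {g h : Ga n}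
    (hgh : (SimpleGraph.mulCayley (S n : Set (Ga n))).Adj g h) :
    (rayGraph Ga S).Adj ⟨n, g⟩ ⟨n, h⟩ := Or.inl ⟨n, g, h, rfl, rfl, hgh⟩

theorem rayGraph_adj_ray (n : ℕ) : (rayGraph Ga S).Adj ⟨n, 1⟩ ⟨n + 1, 1⟩ :=
  Or.inr ⟨n, Or.inl ⟨rfl, rfl⟩⟩

/-- inclusion of the `n`-th Cayley graph -/
def incl (Ga : ℕ → Type) [∀ n, Group (Ga n)] (S : ∀ n, Finset (Ga n)) (n : ℕ) :
    SimpleGraph.mulCayley (S n : Set (Ga n)) →g rayGraph Ga S where
  toFun g := ⟨n, g⟩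
  map_rel' h := rayGraph_adj_in h

theorem dist_incl_le {n : ℕ} (hc : (SimpleGraph.mulCayley (S n : Set (Ga n))).Connected)
    (g h : Ga n) :
    (rayGraph Ga S).dist ⟨n, g⟩ ⟨n, h⟩ ≤ (SimpleGraph.mulCayley (S n : Set (Ga n))).dist g h := by
  obtain ⟨w, hw⟩ := hc.exists_walk_length_eq_dist g h
  have := SimpleGraph.dist_le (w.map (incl Ga S n))
  rw [SimpleGraph.Walk.length_map, hw] at this
  exact this

/-- the retraction onto the `n`-th Cayley graph -/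
noncomputable def retr (n : ℕ) (x : Σ n, Ga n) : Ga n :=
  open Classical in if h : x.1 = n then h ▸ x.2 else 1

theorem retr_same (n : ℕ) (g : Ga n) : retr n ⟨n, g⟩ = g := by
  simp [retr]

theorem retr_ne {n k : ℕ} (h : k ≠ n) (g : Ga k) : retr n ⟨k, g⟩ = (1 : Ga n) := by
  simp [retr, h]

theorem retr_one (n k : ℕ) : retr n (⟨k, 1⟩ : Σ n, Ga n) = (1 : Ga n) := by
  by_cases h : k = n
  · subst h
    exact retr_same _ _
  · exact retr_ne h _

theorem retr_adj (n : ℕ) {x y : Σ n, Ga n} (hxy : (rayGraph Ga S).Adj x y) :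
    retr n x = retr n y ∨ (SimpleGraph.mulCayley (S n : Set (Ga n))).Adj (retr n x) (retr n y) := by
  rcases hxy with ⟨k, g, h, rfl, rfl, hgh⟩ | ⟨k, ⟨rfl, rfl⟩ | ⟨rfl, rfl⟩⟩
  · by_cases hk : k = n
    · subst hk
      rw [retr_same, retr_same]
      exact Or.inr hgh
    · left
      rw [retr_ne hk, retr_ne hk]
  · left
    rw [retr_one, retr_one]
  · left
    rw [retr_one, retr_one]

theorem dist_retr_le (n : ℕ) (hc : (SimpleGraph.mulCayley (S n : Set (Ga n))).Connected)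
    {x y : Σ n, Ga n} (w : (rayGraph Ga S).Walk x y) :
    (SimpleGraph.mulCayley (S n : Set (Ga n))).dist (retr n x) (retr n y) ≤ w.length := by
  induction w with
  | nil => simp
  | @cons x y z hxy w ih =>
    have h1 := hc.dist_triangle (u := retr n x) (v := retr n y) (w := retr n z)
    have h2 : (SimpleGraph.mulCayley (S n : Set (Ga n))).dist (retr n x) (retr n y) ≤ 1 := by
      rcases retr_adj n hxy with h | h
      · rw [h]
        simp
      · rw [SimpleGraph.dist_eq_one_iff_adj.mpr h]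
    rw [SimpleGraph.Walk.length_cons]
    omega

theorem reach_one (n : ℕ) (hc : (SimpleGraph.mulCayley (S n : Set (Ga n))).Connected) (g : Ga n) :
    (rayGraph Ga S).Reachable ⟨n, g⟩ ⟨n, 1⟩ :=
  (hc.preconnected g 1).map (incl Ga S n)

theorem reach_ray (n : ℕ) : (rayGraph Ga S).Reachable ⟨n, 1⟩ ⟨0, 1⟩ := by
  induction n with
  | zero => exact SimpleGraph.Reachable.refl _
  | succ n ih => exact (rayGraph_adj_ray n).symm.reachable.trans ih

theorem rayGraph_connected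
    (hc : ∀ n, (SimpleGraph.mulCayley (S n : Set (Ga n))).Connected) :
    (rayGraph Ga S).Connected := by
  have : Nonempty (Σ n, Ga n) := ⟨⟨0, 1⟩⟩
  have h0 : ∀ x : Σ n, Ga n, (rayGraph Ga S).Reachable x ⟨0, 1⟩ := by
    rintro ⟨n, g⟩
    exact (reach_one n (hc n) g).trans (reach_ray n)
  exact SimpleGraph.Connected.mk (fun x y => (h0 x).trans (h0 y).symm)

theorem dist_ray_add (n k : ℕ)
    (hc : ∀ n, (SimpleGraph.mulCayley (S n : Set (Ga n))).Connected) :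
    (rayGraph Ga S).dist ⟨n, 1⟩ ⟨n + k, 1⟩ ≤ k := by
  induction k with
  | zero => simp
  | succ k ih =>
    have h1 := (rayGraph_connected hc).dist_triangle (u := (⟨n, 1⟩ : Σ n, Ga n))
      (v := ⟨n + k, 1⟩) (w := ⟨n + k + 1, 1⟩)
    have h2 : (rayGraph Ga S).dist ⟨n + k, 1⟩ ⟨n + k + 1, 1⟩ = 1 :=
      SimpleGraph.dist_eq_one_iff_adj.mpr (rayGraph_adj_ray (n + k))
    have h3 : (rayGraph Ga S).dist ⟨n, 1⟩ ⟨n + (k + 1), 1⟩ =
      (rayGraph Ga S).dist ⟨n, 1⟩ ⟨n + k + 1, 1⟩ := rfl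
    omega

theorem dist_ray (n k : ℕ)
    (hc : ∀ n, (SimpleGraph.mulCayley (S n : Set (Ga n))).Connected) :
    ((rayGraph Ga S).dist ⟨n, 1⟩ ⟨k, 1⟩ : ℝ) ≤ |(n : ℝ) - k| := by
  rcases le_total n k with h | h
  · obtain ⟨j, rfl⟩ := Nat.exists_eq_add_of_le h
    have := dist_ray_add (Ga := Ga) (S := S) n j hc
    have h2 : |(n : ℝ) - ((n + j : ℕ) : ℝ)| = j := by
      push_cast
      rw [abs_sub_comm]
      simp
    rw [h2]
    exact_mod_cast this
  · obtain ⟨j, rfl⟩ := Nat.exists_eq_add_of_le h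
    have := dist_ray_add (Ga := Ga) (S := S) k j hc
    have h2 : |((k + j : ℕ) : ℝ) - (k : ℝ)| = j := by
      push_cast
      simp
    rw [h2, SimpleGraph.dist_comm]
    exact_mod_cast this

theorem neighbor_bound (hS : ∀ n, (S n).card ≤ 6) (v : Σ n, Ga n) :
    ((rayGraph Ga S).neighborSet v).encard ≤ (15 : ℕ) := by
  classical
  obtain ⟨n, g⟩ := v
  let T : Finset (Σ n, Ga n) :=
    ((S n).image (fun s => (⟨n, g * s⟩ : Σ n, Ga n)) ∪
      (S n).image (fun s => (⟨n, g * s⁻¹⟩ : Σ n, Ga n))) ∪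
      {⟨n + 1, 1⟩, ⟨n - 1, 1⟩}
  have hT : T.card ≤ 15 := by
    have h1 : ((S n).image (fun s => (⟨n, g * s⟩ : Σ n, Ga n))).card ≤ 6 :=
      Finset.card_image_le.trans (hS n)
    have h2 : ((S n).image (fun s => (⟨n, g * s⁻¹⟩ : Σ n, Ga n))).card ≤ 6 :=
      Finset.card_image_le.trans (hS n)
    have h3 : ({⟨n + 1, 1⟩, ⟨n - 1, 1⟩} : Finset (Σ n, Ga n)).card ≤ 2 := Finset.card_le_two
    have h4 := Finset.card_union_le ((S n).image (fun s => (⟨n, g * s⟩ : Σ n, Ga n)))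
      ((S n).image (fun s => (⟨n, g * s⁻¹⟩ : Σ n, Ga n)))
    have h5 := Finset.card_union_le ((S n).image (fun s => (⟨n, g * s⟩ : Σ n, Ga n)) ∪
      (S n).image (fun s => (⟨n, g * s⁻¹⟩ : Σ n, Ga n)))
      ({⟨n + 1, 1⟩, ⟨n - 1, 1⟩} : Finset (Σ n, Ga n))
    show (((S n).image (fun s => (⟨n, g * s⟩ : Σ n, Ga n)) ∪
      (S n).image (fun s => (⟨n, g * s⁻¹⟩ : Σ n, Ga n))) ∪
      {⟨n + 1, 1⟩, ⟨n - 1, 1⟩}).card ≤ 15
    omega
  have hsub : (rayGraph Ga S).neighborSet ⟨n, g⟩ ⊆ (T : Set (Σ n, Ga n)) := by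
    intro y hy
    rw [SimpleGraph.mem_neighborSet] at hy
    rcases hy with ⟨k, a, b, h1, rfl, hab⟩ | ⟨k, ⟨h1, rfl⟩ | ⟨rfl, h1⟩⟩
    · have hk : n = k := congrArg Sigma.fst h1
      subst hk
      have ha : g = a := by simpa using h1
      subst ha
      rw [SimpleGraph.mulCayley_adj'] at hab
      obtain ⟨-, s, hs, h | h⟩ := hab
      · simp only [T, Finset.coe_union, Finset.coe_image, Set.mem_union, Set.mem_image]
        left; left
        exact ⟨s, hs, by rw [h]⟩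
      · simp only [T, Finset.coe_union, Finset.coe_image, Set.mem_union, Set.mem_image]
        left; right
        exact ⟨s, hs, by rw [h]; simp⟩
    · have hk : n = k := congrArg Sigma.fst h1
      subst hk
      simp [T]
    · have hk : n = k + 1 := congrArg Sigma.fst h1
      subst hk
      simp [T]
  calc ((rayGraph Ga S).neighborSet ⟨n, g⟩).encard ≤ (T : Set (Σ n, Ga n)).encard :=
        Set.encard_le_encard hsub
    _ = (T.card : ℕ∞) := Set.encard_coe_eq_coe_finsetCard T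
    _ ≤ (15 : ℕ) := by exact_mod_cast hT

end

theorem ray_hilbert {Ga : ℕ → Type} [∀ n, Group (Ga n)] [∀ n, Fintype (Ga n)]
    {S : ∀ n, Finset (Ga n)} {J : ℕ → Type} [∀ n, Fintype (J n)] {F : ∀ n, Ga n → J n → ℝ}
    (U : UnifData.{u} Ga S J F)
    (Hs : Type u) [NormedAddCommGroup Hs] [InnerProductSpace ℝ Hs] (f : (Σ n, Ga n) → Hs) :
    ¬ CoarseEmb (fun x y => ((rayGraph Ga S).dist x y : ℝ)) f := by
  rintro ⟨rm, rp, hrm, hrp, -, -, hlim, hf⟩
  have hc : ∀ n, (SimpleGraph.mulCayley (S n : Set (Ga n))).Connected :=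
    fun n => cayley_connected _ (U.gen n)
  set C : ℝ := max (rp 1) 1 with hCdef
  have hC : 0 < C := lt_of_lt_of_le one_pos (le_max_right _ _)
  -- choose a large n
  obtain ⟨N, hN⟩ : ∃ N : ℕ, 300 * C < rm N := by
    have := (hlim.comp tendsto_natCast_atTop_atTop).eventually_gt_atTop (300 * C)
    exact this.exists
  obtain ⟨g, h, hgh, hle⟩ := U.hilb N Hs (fun g => C⁻¹ • f ⟨N, g⟩) (by
    intro g s hs
    have h1 : (rayGraph Ga S).dist ⟨N, g * s⟩ ⟨N, g⟩ ≤ 1 := by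
      by_cases hs1 : g * s = g
      · rw [hs1]
        simp
      · have : (SimpleGraph.mulCayley (S N : Set (Ga N))).Adj (g * s) g := by
          rw [SimpleGraph.mulCayley_adj']
          exact ⟨hs1, s, hs, Or.inr rfl⟩
        rw [SimpleGraph.dist_eq_one_iff_adj.mpr (rayGraph_adj_in this)]
    have h2 : ‖f ⟨N, g * s⟩ - f ⟨N, g⟩‖ ≤ C := by
      refine ((hf _ _).2.trans (hrp ?_ ?_ ?_)).trans (le_max_left _ _)
      · exact Set.mem_Ici.mpr (Nat.cast_nonneg _)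
      · exact Set.mem_Ici.mpr (zero_le_one : (0 : ℝ) ≤ 1)
      · show ((rayGraph Ga S).dist ⟨N, g * s⟩ ⟨N, g⟩ : ℝ) ≤ 1
        exact_mod_cast h1
    rw [← smul_sub, norm_smul, norm_inv, Real.norm_of_nonneg hC.le]
    calc C⁻¹ * ‖f ⟨N, g * s⟩ - f ⟨N, g⟩‖ ≤ C⁻¹ * C := by gcongr
      _ = 1 := inv_mul_cancel₀ hC.ne')
  have h3 : ‖f ⟨N, g⟩ - f ⟨N, h⟩‖ ≤ 300 * C := by
    have h4 : ‖C⁻¹ • f ⟨N, g⟩ - C⁻¹ • f ⟨N, h⟩‖ = C⁻¹ * ‖f ⟨N, g⟩ - f ⟨N, h⟩‖ := by
      rw [← smul_sub, norm_smul, norm_inv, Real.norm_of_nonneg hC.le]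
    have h5 : C⁻¹ * ‖f ⟨N, g⟩ - f ⟨N, h⟩‖ ≤ 300 := by
      rw [← h4]
      exact hle
    calc ‖f ⟨N, g⟩ - f ⟨N, h⟩‖ = (C⁻¹ * ‖f ⟨N, g⟩ - f ⟨N, h⟩‖) * C := by
          field_simp
      _ ≤ 300 * C := by gcongr
  have h6 : (N : ℝ) ≤ (rayGraph Ga S).dist ⟨N, g⟩ ⟨N, h⟩ := by
    obtain ⟨w, hw⟩ := (rayGraph_connected hc).exists_walk_length_eq_dist ⟨N, g⟩ ⟨N, h⟩
    have := dist_retr_le N (hc N) w
    rw [retr_same, retr_same, hw] at this
    exact_mod_cast hgh.trans this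
  have h7 := (hf ⟨N, g⟩ ⟨N, h⟩).1
  have h8 : rm N ≤ rm ((rayGraph Ga S).dist ⟨N, g⟩ ⟨N, h⟩) :=
    hrm (Set.mem_Ici.mpr (Nat.cast_nonneg _)) (Set.mem_Ici.mpr (Nat.cast_nonneg _)) h6
  exact absurd (h8.trans (h7.trans h3)) (not_le.mpr hN)

theorem sum_le_of_supp {iota : Type*} (s t : Finset iota) (f : iota → ℝ) (hf : ∀ i, 0 ≤ f i)
    (h : ∀ i ∈ s, f i ≠ 0 → i ∈ t) : ∑ i ∈ s, f i ≤ ∑ i ∈ t, f i := by
  classical
  rw [← Finset.sum_filter_ne_zero s]
  refine Finset.sum_le_sum_of_subset_of_nonneg ?_ (fun i _ _ => hf i)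
  intro i hi
  rw [Finset.mem_filter] at hi
  exact h i hi.1 hi.2

section

variable {Ga : ℕ → Type} [∀ n, Group (Ga n)]
  {J : ℕ → Type} [∀ n, Fintype (J n)] (F : ∀ n, Ga n → J n → ℝ)

/-- coordinates of the embedding -/
noncomputable def rayVec (x : Σ n, Ga n) : Option (Σ n, J n) → ℝ
  | none => x.1
  | some i => F i.1 (retr i.1 x) i.2 - F i.1 1 i.2

theorem rayVec_supp (x : Σ n, Ga n) :
    (Function.support (rayVec F x)).Finite := by
  classical
  refine Set.Finite.subset (Finset.finite_toSet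
    (insert none ((Finset.univ : Finset (J x.1)).image (fun j => some ⟨x.1, j⟩)))) ?_
  rintro (_ | ⟨k, j⟩) hi
  · simp
  · rw [Function.mem_support] at hi
    by_cases hk : x.1 = k
    · subst hk
      simp
    · exfalso
      apply hi
      obtain ⟨n, g⟩ := x
      show F k (retr k ⟨n, g⟩) j - F k 1 j = 0
      rw [retr_ne hk, sub_self]

/-- the embedding into finitely supported functions -/
noncomputable def rayFs (x : Σ n, Ga n) : Option (Σ n, J n) →₀ ℝ :=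
  Finsupp.ofSupportFinite (rayVec F x) (rayVec_supp F x)

theorem rayFs_apply (x : Σ n, Ga n) (i : Option (Σ n, J n)) : rayFs F x i = rayVec F x i := rfl

theorem rayFs_none (x y : Σ n, Ga n) :
    rayFs F x none - rayFs F y none = (x.1 : ℝ) - y.1 := rfl

theorem rayFs_some (x y : Σ n, Ga n) (k : ℕ) (j : J k) :
    rayFs F x (some ⟨k, j⟩) - rayFs F y (some ⟨k, j⟩) =
      F k (retr k x) j - F k (retr k y) j := by
  show (F k (retr k x) j - F k 1 j) - (F k (retr k y) j - F k 1 j) = _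
  ring

theorem rayFs_mem_supp {x y : Σ n, Ga n} {P : ℝ} (hP : P ≠ 0) {i : Option (Σ n, J n)}
    (h : |rayFs F x i - rayFs F y i| ^ P ≠ 0) : i ∈ (rayFs F x - rayFs F y).support := by
  rw [Finsupp.mem_support_iff, Finsupp.sub_apply]
  intro h0
  apply h
  rw [h0, abs_zero, Real.zero_rpow hP]

theorem ray_low_none (x y : Σ n, Ga n) {P : ℝ} (hP : P ≠ 0) :
    |(x.1 : ℝ) - y.1| ^ P ≤
      ∑ i ∈ (rayFs F x - rayFs F y).support, |rayFs F x i - rayFs F y i| ^ P := by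
  have h := sum_le_of_supp {none} (rayFs F x - rayFs F y).support
    (fun i => |rayFs F x i - rayFs F y i| ^ P) (fun i => by positivity)
    (fun i _ hi => rayFs_mem_supp F hP hi)
  rw [Finset.sum_singleton] at h
  exact h

theorem ray_low_some (x y : Σ n, Ga n) {P : ℝ} (hP : P ≠ 0) (k : ℕ) :
    ∑ j, |F k (retr k x) j - F k (retr k y) j| ^ P ≤
      ∑ i ∈ (rayFs F x - rayFs F y).support, |rayFs F x i - rayFs F y i| ^ P := by
  classical
  have h := sum_le_of_supp ((Finset.univ : Finset (J k)).image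
      (fun j => (some ⟨k, j⟩ : Option (Σ n, J n)))) (rayFs F x - rayFs F y).support
    (fun i => |rayFs F x i - rayFs F y i| ^ P) (fun i => by positivity)
    (fun i _ hi => rayFs_mem_supp F hP hi)
  rw [Finset.sum_image (by
    intro a _ b _ hab
    simpa using hab)] at h
  simp only [rayFs_some] at h
  exact h

theorem ray_up_same (n : ℕ) (g h : Ga n) {P : ℝ} (hP : P ≠ 0) :
    ∑ i ∈ (rayFs F ⟨n, g⟩ - rayFs F ⟨n, h⟩).support,
      |rayFs F ⟨n, g⟩ i - rayFs F ⟨n, h⟩ i| ^ P ≤ ∑ j, |F n g j - F n h j| ^ P := by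
  classical
  have h1 := sum_le_of_supp (rayFs F ⟨n, g⟩ - rayFs F ⟨n, h⟩).support
    ((Finset.univ : Finset (J n)).image (fun j => (some ⟨n, j⟩ : Option (Σ n, J n))))
    (fun i => |rayFs F ⟨n, g⟩ i - rayFs F ⟨n, h⟩ i| ^ P) (fun i => by positivity) (by
      rintro (_ | ⟨k, j⟩) _ hi
      · exfalso
        apply hi
        show |rayFs F ⟨n, g⟩ none - rayFs F ⟨n, h⟩ none| ^ P = 0
        rw [rayFs_none, sub_self, abs_zero, Real.zero_rpow hP]
      · by_cases hk : n = k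
        · subst hk
          simp
        · exfalso
          apply hi
          show |rayFs F ⟨n, g⟩ (some ⟨k, j⟩) - rayFs F ⟨n, h⟩ (some ⟨k, j⟩)| ^ P = 0
          rw [rayFs_some, retr_ne hk, retr_ne hk, sub_self, abs_zero, Real.zero_rpow hP])
  rw [Finset.sum_image (by
    intro a _ b _ hab
    simpa using hab)] at h1
  simp only [rayFs_some, retr_same] at h1
  exact h1

theorem ray_up_ray (n : ℕ) {P : ℝ} (hP : P ≠ 0) :
    ∑ i ∈ (rayFs F ⟨n, 1⟩ - rayFs F ⟨n + 1, 1⟩).support,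
      |rayFs F ⟨n, 1⟩ i - rayFs F ⟨n + 1, 1⟩ i| ^ P ≤ 1 := by
  classical
  have h1 := sum_le_of_supp (rayFs F ⟨n, 1⟩ - rayFs F ⟨n + 1, 1⟩).support {none}
    (fun i => |rayFs F ⟨n, 1⟩ i - rayFs F ⟨n + 1, 1⟩ i| ^ P) (fun i => by positivity) (by
      rintro (_ | ⟨k, j⟩) _ hi
      · simp
      · exfalso
        apply hi
        show |rayFs F ⟨n, 1⟩ (some ⟨k, j⟩) - rayFs F ⟨n + 1, 1⟩ (some ⟨k, j⟩)| ^ P = 0
        rw [rayFs_some, retr_one, retr_one, sub_self, abs_zero, Real.zero_rpow hP])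
  rw [Finset.sum_singleton] at h1
  refine h1.trans ?_
  show |rayFs F ⟨n, 1⟩ none - rayFs F ⟨n + 1, 1⟩ none| ^ P ≤ 1
  rw [rayFs_none]
  have : |((n : ℕ) : ℝ) - ((n + 1 : ℕ) : ℝ)| = 1 := by
    push_cast
    simp
  show |((n : ℕ) : ℝ) - ((n + 1 : ℕ) : ℝ)| ^ P ≤ 1
  rw [this, Real.one_rpow]

end

theorem ray_lp {Ga : ℕ → Type} [∀ n, Group (Ga n)] [∀ n, Fintype (Ga n)]
    {S : ∀ n, Finset (Ga n)} {J : ℕ → Type} [∀ n, Fintype (J n)] {F : ∀ n, Ga n → J n → ℝ}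
    (U : UnifData.{u} Ga S J F) (p : ENNReal) [Fact (1 ≤ p)] (hp : 64 ≤ p) (hptop : p ≠ ⊤) :
    ∃ (O : Type) (_ : MeasurableSpace O) (mu : Measure O) (f : (Σ n, Ga n) → Lp ℝ p mu),
      CoarseEmb (fun x y => ((rayGraph Ga S).dist x y : ℝ)) f := by
  have hc : ∀ n, (SimpleGraph.mulCayley (S n : Set (Ga n))).Connected :=
    fun n => cayley_connected _ (U.gen n)
  have hconn := rayGraph_connected hc
  have hP : (64 : ℝ) ≤ p.toReal := by
    have := (ENNReal.toReal_le_toReal (by simp) hptop).mpr hp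
    simpa using this
  have hP0 : p.toReal ≠ 0 := by linarith
  obtain ⟨mO, mu, Phi, hPhi⟩ := exists_Lp_count (Option (Σ n, J n)) p hptop
  refine ⟨Option (Σ n, J n), mO, mu, fun x => Phi (rayFs F x), ?_⟩
  apply coarseEmb_of _ _ 2 (by norm_num) (fun x y => Nat.cast_nonneg _)
  · -- Lipschitz
    apply lip_of_gen _ hconn
    intro x y hxy
    by_contra hcon
    have h2 : (2 : ℝ) ^ p.toReal < ‖Phi (rayFs F x) - Phi (rayFs F y)‖ ^ p.toReal :=
      Real.rpow_lt_rpow (by norm_num) (not_le.mp hcon) (by linarith)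
    have h3 : (2 : ℝ) ≤ (2 : ℝ) ^ p.toReal := by
      calc (2 : ℝ) = (2 : ℝ) ^ (1 : ℝ) := (Real.rpow_one 2).symm
        _ ≤ (2 : ℝ) ^ p.toReal := Real.rpow_le_rpow_of_exponent_le (by norm_num) (by linarith)
    have h4 : ‖Phi (rayFs F x) - Phi (rayFs F y)‖ ^ p.toReal ≤ 2 := by
      rcases hxy with ⟨k, g, h, rfl, rfl, hgh⟩ | ⟨k, ⟨rfl, rfl⟩ | ⟨rfl, rfl⟩⟩
      · rw [SimpleGraph.mulCayley_adj'] at hgh
        obtain ⟨-, s, hs, h1 | h1⟩ := hgh
        · rw [norm_sub_rev, hPhi]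
          refine (ray_up_same F k h g hP0).trans ?_
          rw [← h1]
          exact U.lip _ hP k g s hs
        · rw [hPhi]
          refine (ray_up_same F k g h hP0).trans ?_
          rw [h1]
          exact U.lip _ hP k h s hs
      · rw [hPhi]
        exact (ray_up_ray F k hP0).trans (by norm_num)
      · rw [norm_sub_rev, hPhi]
        exact (ray_up_ray F k hP0).trans (by norm_num)
    linarith
  · -- lower bound
    intro R
    obtain ⟨rho, hrho⟩ := U.low p.toReal hP ((max R 0) ^ p.toReal)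
    refine ⟨2 * rho + max R 0, ?_⟩
    intro x y hxy
    have hR0 : (0 : ℝ) ≤ max R 0 := le_max_right _ _
    have hsum : ∑ i ∈ (rayFs F x - rayFs F y).support, |rayFs F x i - rayFs F y i| ^ p.toReal ≤
        (max R 0) ^ p.toReal := by
      rw [← hPhi]
      exact Real.rpow_le_rpow (norm_nonneg _) (hxy.trans (le_max_left _ _)) (by linarith)
    have hn : |(x.1 : ℝ) - y.1| ≤ max R 0 := by
      by_contra hcon
      have h1 : (max R 0) ^ p.toReal < |(x.1 : ℝ) - y.1| ^ p.toReal :=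
        Real.rpow_lt_rpow hR0 (not_le.mp hcon) (by linarith)
      have h2 := ray_low_none F x y hP0
      linarith
    have hk : ∀ k, (SimpleGraph.mulCayley (S k : Set (Ga k))).dist (retr k x) (retr k y) ≤ rho :=
      fun k => hrho k _ _ ((ray_low_some F x y hP0 k).trans hsum)
    obtain ⟨n, g⟩ := x
    obtain ⟨k, h⟩ := y
    show ((rayGraph Ga S).dist ⟨n, g⟩ ⟨k, h⟩ : ℝ) ≤ 2 * rho + max R 0
    by_cases hnk : n = k
    · subst hnk
      have h1 := hk n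
      rw [retr_same, retr_same] at h1
      have h2 : (rayGraph Ga S).dist ⟨n, g⟩ ⟨n, h⟩ ≤ rho := (dist_incl_le (hc n) g h).trans h1
      have h3 : ((rayGraph Ga S).dist ⟨n, g⟩ ⟨n, h⟩ : ℝ) ≤ rho := by exact_mod_cast h2
      have h4 : (0 : ℝ) ≤ rho := Nat.cast_nonneg _
      linarith
    · have h1 := hk n
      rw [retr_same, retr_ne (Ne.symm hnk)] at h1
      have h2 := hk k
      rw [retr_same, retr_ne hnk] at h2
      have h3 : ((rayGraph Ga S).dist ⟨n, g⟩ ⟨n, 1⟩ : ℝ) ≤ rho := by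
        exact_mod_cast (dist_incl_le (hc n) g 1).trans h1
      have h4 : ((rayGraph Ga S).dist ⟨k, 1⟩ ⟨k, h⟩ : ℝ) ≤ rho := by
        exact_mod_cast (dist_incl_le (hc k) 1 h).trans h2
      have h5 := dist_ray (Ga := Ga) (S := S) n k hc
      have h6 : ((rayGraph Ga S).dist ⟨n, g⟩ ⟨k, h⟩ : ℝ) ≤
          (rayGraph Ga S).dist ⟨n, g⟩ ⟨n, 1⟩ + (rayGraph Ga S).dist ⟨n, 1⟩ ⟨k, 1⟩ +
            (rayGraph Ga S).dist ⟨k, 1⟩ ⟨k, h⟩ := by
        have a1 := hconn.dist_triangle (u := (⟨n, g⟩ : Σ n, Ga n)) (v := ⟨n, 1⟩) (w := ⟨k, h⟩)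
        have a2 := hconn.dist_triangle (u := (⟨n, 1⟩ : Σ n, Ga n)) (v := ⟨k, 1⟩) (w := ⟨k, h⟩)
        have a3 : (rayGraph Ga S).dist ⟨n, g⟩ ⟨k, h⟩ ≤
          (rayGraph Ga S).dist ⟨n, g⟩ ⟨n, 1⟩ + (rayGraph Ga S).dist ⟨n, 1⟩ ⟨k, 1⟩ +
            (rayGraph Ga S).dist ⟨k, 1⟩ ⟨k, h⟩ := by omega
        exact_mod_cast a3
      have h7 : |(n : ℝ) - k| ≤ max R 0 := hn
      linarith

theorem ray_graph {Ga : ℕ → Type} [∀ n, Group (Ga n)] [∀ n, Fintype (Ga n)]
    {S : ∀ n, Finset (Ga n)} {J : ℕ → Type} [∀ n, Fintype (J n)] {F : ∀ n, Ga n → J n → ℝ}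
    (U : UnifData.{u} Ga S J F) :
    ∃ (V : Type) (G : SimpleGraph V), G.Connected ∧
      (∃ D : ℕ, ∀ v, (G.neighborSet v).encard ≤ D) ∧
      (∀ (Hs : Type u) [NormedAddCommGroup Hs] [InnerProductSpace ℝ Hs] (f : V → Hs),
        ¬ CoarseEmb (fun x y => (G.dist x y : ℝ)) f) ∧
      (∀ (p : ENNReal) [Fact (1 ≤ p)], 64 ≤ p → p ≠ ⊤ →
        ∃ (O : Type) (_ : MeasurableSpace O) (mu : Measure O) (f : V → Lp ℝ p mu),
          CoarseEmb (fun x y => (G.dist x y : ℝ)) f) := by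
  have hc : ∀ n, (SimpleGraph.mulCayley (S n : Set (Ga n))).Connected :=
    fun n => cayley_connected _ (U.gen n)
  exact ⟨Σ n, Ga n, rayGraph Ga S, rayGraph_connected hc, ⟨15, neighbor_bound U.card⟩,
    fun Hs _ _ f => ray_hilbert U Hs f, fun p _ hp hptop => ray_lp U p hp hptop⟩

end L2LP
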