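import Mathlib

/-!
# Sidon variance estimate (Lemma 1)
-/

namespace L2LP

open Finset

/-- the parabola in `F_q^2` -/
def Cm (q : ℕ) [NeZero q] : Finset (ZMod q × ZMod q) :=
  univ.image (fun x : ZMod q => (x, x ^ 2))

/-- enumeration of the translated parabolas -/
def pt (q : ℕ) (t : ℕ) : ZMod q × ZMod q :=
  ((t : ZMod q), (t : ZMod q) ^ 2 + 1 + ((t / q : ℕ) : ZMod q))

/-- the union of translated parabolas with `n` points -/
def Cp (q n : ℕ) : Finset (ZMod q × ZMod q) := (range n).image (pt q)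

/-- number of points `t` of `T` with `t + a` in `C` -/
def cntN {q : ℕ} (C T : Finset (ZMod q × ZMod q)) (a : ZMod q × ZMod q) : ℕ :=
  (T.filter (fun t => t + a ∈ C)).card

theorem cast_eq_of_lt (q a b : ℕ) (ha : a < q) (hb : b < q)
    (h : (a : ZMod q) = (b : ZMod q)) : a = b := by
  have h1 := (ZMod.natCast_eq_natCast_iff' a b q).mp h
  rwa [Nat.mod_eq_of_lt ha, Nat.mod_eq_of_lt hb] at h1

theorem pt_injOn (q n : ℕ) [Fact q.Prime] (hn : n / q + 1 < q) : Set.InjOn (pt q) (range n : Set ℕ) := by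
  intro i hi j hj hij
  rw [Finset.mem_coe, Finset.mem_range] at hi hj
  unfold pt at hij
  rw [Prod.mk.injEq] at hij
  obtain ⟨h1, h2⟩ := hij
  rw [h1] at h2
  have h3 : ((i / q : ℕ) : ZMod q) = ((j / q : ℕ) : ZMod q) := by
    exact add_left_cancel h2
  have hi2 : i / q ≤ n / q := Nat.div_le_div_right hi.le
  have hj2 : j / q ≤ n / q := Nat.div_le_div_right hj.le
  have h4 : i / q = j / q := cast_eq_of_lt q _ _ (by omega) (by omega) h3
  have h5 : i % q = j % q := (ZMod.natCast_eq_natCast_iff' i j q).mp h1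
  rw [← Nat.div_add_mod i q, ← Nat.div_add_mod j q, h4, h5]

theorem Cm_disjoint_Cp (q n : ℕ) [Fact q.Prime] (hn : n / q + 1 < q) :
    Disjoint (Cm q) (Cp q n) := by
  rw [Finset.disjoint_left]
  intro z hz hz2
  unfold Cm at hz
  unfold Cp at hz2
  rw [Finset.mem_image] at hz hz2
  obtain ⟨x, -, rfl⟩ := hz
  obtain ⟨t, ht, h⟩ := hz2
  rw [Finset.mem_range] at ht
  unfold pt at h
  rw [Prod.mk.injEq] at h
  obtain ⟨h1, h2⟩ := h
  rw [h1] at h2
  have ht2 : t / q ≤ n / q := Nat.div_le_div_right ht.le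
  have h3 : ((1 + t / q : ℕ) : ZMod q) = ((0 : ℕ) : ZMod q) := by
    push_cast
    have h4 : x ^ 2 + (1 + ((t / q : ℕ) : ZMod q)) = x ^ 2 + 0 := by
      rw [add_zero, ← add_assoc]
      exact h2
    exact add_left_cancel h4
  have h5 := cast_eq_of_lt q (1 + t / q) 0 (by omega) (Fact.out : q.Prime).pos h3
  rw [Nat.add_comm] at h5
  exact absurd h5 (Nat.succ_ne_zero _)

theorem card_Cm (q : ℕ) [Fact q.Prime] : (Cm q).card = q := by
  unfold Cm
  rw [Finset.card_image_of_injective, Finset.card_univ, ZMod.card]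
  intro x y h
  exact (Prod.mk.injEq _ _ _ _ ▸ h).1

theorem card_Cp (q n : ℕ) [Fact q.Prime] (hn : n / q + 1 < q) : (Cp q n).card = n := by
  unfold Cp
  rw [Finset.card_image_of_injOn (pt_injOn q n hn), Finset.card_range]

theorem sum_cntN (q : ℕ) [Fact q.Prime] (C T : Finset (ZMod q × ZMod q)) :
    ∑ a, (cntN C T a : ℝ) = C.card * T.card := by
  have h : ∀ a, (cntN C T a : ℝ) = ∑ t ∈ T, (if t + a ∈ C then (1 : ℝ) else 0) := by
    intro a
    unfold cntN
    rw [← Finset.sum_filter, Finset.sum_const, nsmul_eq_mul, mul_one]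
  simp only [h]
  rw [Finset.sum_comm]
  have h2 : ∀ t ∈ T, ∑ a, (if t + a ∈ C then (1 : ℝ) else 0) = C.card := by
    intro t _
    rw [Fintype.sum_equiv (Equiv.addLeft t) (fun a => if t + a ∈ C then (1 : ℝ) else 0)
      (fun z => if z ∈ C then (1 : ℝ) else 0) (fun a => by simp)]
    rw [← Finset.sum_filter, Finset.sum_const, nsmul_eq_mul, mul_one]
    congr 2
    ext z
    simp
  rw [Finset.sum_congr rfl h2, Finset.sum_const, nsmul_eq_mul]
  ring

/-- pieces of a translated parabola -/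
def SubPar (q : ℕ) (C : Finset (ZMod q × ZMod q)) : Prop :=
  ∃ c : ZMod q, ∀ z ∈ C, z.2 = z.1 ^ 2 + c

theorem pairs_le (q : ℕ) [Fact q.Prime] (hq2 : q ≠ 2) (C : Finset (ZMod q × ZMod q))
    (hC : SubPar q C) (t t' : ZMod q × ZMod q) (htt : t ≠ t') :
    (univ.filter (fun a => t + a ∈ C ∧ t' + a ∈ C)).card ≤ 1 := by
  obtain ⟨c, hc⟩ := hC
  rw [Finset.card_le_one]
  intro a ha b hb
  rw [Finset.mem_filter] at ha hb
  have e1 := hc _ ha.2.1
  have e2 := hc _ ha.2.2
  have e3 := hc _ hb.2.1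
  have e4 := hc _ hb.2.2
  simp only [Prod.fst_add, Prod.snd_add] at e1 e2 e3 e4
  have two : (2 : ZMod q) ≠ 0 := by
    intro h
    have h2 : ((2 : ℕ) : ZMod q) = 0 := by exact_mod_cast h
    rw [ZMod.natCast_eq_zero_iff] at h2
    have hp := (Fact.out : q.Prime)
    have := (Nat.prime_dvd_prime_iff_eq hp Nat.prime_two).mp h2
    exact hq2 this
  -- differences
  have d1 : (t.1 - t'.1) * ((t.1 + a.1) + (t'.1 + a.1)) = t.2 - t'.2 := by
    linear_combination e2 - e1
  have d2 : (t.1 - t'.1) * ((t.1 + b.1) + (t'.1 + b.1)) = t.2 - t'.2 := by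
    linear_combination e4 - e3
  by_cases h0 : t.1 - t'.1 = 0
  · exfalso
    apply htt
    rw [h0, zero_mul] at d1
    exact Prod.ext (sub_eq_zero.mp h0) (sub_eq_zero.mp d1.symm)
  · have h3 := mul_left_cancel₀ h0 (d1.trans d2.symm)
    have h4 : 2 * a.1 = 2 * b.1 := by linear_combination h3
    have h5 : a.1 = b.1 := mul_left_cancel₀ two h4
    have h6 : a.2 = b.2 := by
      rw [h5] at e1
      linear_combination e1 - e3
    exact Prod.ext h5 h6

theorem cast_cntN_sq {q : ℕ} (C T : Finset (ZMod q × ZMod q)) (a : ZMod q × ZMod q) :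
    (cntN C T a : ℝ) ^ 2 = ∑ t ∈ T, ∑ t' ∈ T, (if t + a ∈ C ∧ t' + a ∈ C then (1 : ℝ) else 0) := by
  have h : (cntN C T a : ℝ) = ∑ t ∈ T, (if t + a ∈ C then (1 : ℝ) else 0) := by
    unfold cntN
    rw [← Finset.sum_filter, Finset.sum_const, nsmul_eq_mul, mul_one]
  rw [h, sq, Finset.sum_mul_sum]
  refine Finset.sum_congr rfl fun t _ => Finset.sum_congr rfl fun t' _ => ?_
  by_cases h1 : t + a ∈ C <;> by_cases h2 : t' + a ∈ C <;> simp [h1, h2]

theorem sum_sq_le (q : ℕ) [Fact q.Prime] (hq2 : q ≠ 2) (C : Finset (ZMod q × ZMod q))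
    (hC : SubPar q C) (T : Finset (ZMod q × ZMod q)) :
    ∑ a, (cntN C T a : ℝ) ^ 2 ≤ C.card * T.card + (T.card : ℝ) ^ 2 := by
  simp only [cast_cntN_sq]
  rw [Finset.sum_comm]
  have h1 : ∀ t ∈ T, ∑ a, ∑ t' ∈ T, (if t + a ∈ C ∧ t' + a ∈ C then (1 : ℝ) else 0) ≤
      C.card + T.card := by
    intro t ht
    rw [Finset.sum_comm]
    have h2 : ∀ t' ∈ T, ∑ a, (if t + a ∈ C ∧ t' + a ∈ C then (1 : ℝ) else 0) ≤
        (if t = t' then (C.card : ℝ) else 0) + 1 := by
      intro t' _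
      rw [← Finset.sum_filter, Finset.sum_const, nsmul_eq_mul, mul_one]
      by_cases h : t = t'
      · rw [if_pos h]
        have h3 : (univ.filter (fun a => t + a ∈ C ∧ t' + a ∈ C)).card ≤ C.card := by
          apply Finset.card_le_card_of_injOn (fun a => t + a)
          · intro a ha
            have ha2 := (Finset.mem_filter.mp (Finset.mem_coe.mp ha)).2.1
            exact Finset.mem_coe.mpr ha2
          · intro a _ b _ hab
            exact add_left_cancel hab
        have h4 : ((univ.filter (fun a => t + a ∈ C ∧ t' + a ∈ C)).card : ℝ) ≤ C.card := by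
          exact_mod_cast h3
        linarith
      · rw [if_neg h, zero_add]
        exact_mod_cast pairs_le q hq2 C hC t t' h
    refine le_trans (Finset.sum_le_sum h2) ?_
    rw [Finset.sum_add_distrib, Finset.sum_ite_eq T t (fun _ => (C.card : ℝ)), if_pos ht,
      Finset.sum_const, nsmul_eq_mul, mul_one]
  refine le_trans (Finset.sum_le_sum h1) ?_
  rw [Finset.sum_const, nsmul_eq_mul]
  apply le_of_eq
  ring

theorem var_eq (q : ℕ) [Fact q.Prime] (C T : Finset (ZMod q × ZMod q)) :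
    ∑ a, ((cntN C T a : ℝ) - C.card * T.card / (q : ℝ) ^ 2) ^ 2 =
      ∑ a, (cntN C T a : ℝ) ^ 2 - (C.card * T.card : ℝ) ^ 2 / (q : ℝ) ^ 2 := by
  have hq : (q : ℝ) ≠ 0 := by
    have := (Fact.out : q.Prime).pos
    positivity
  have h : ∀ a, ((cntN C T a : ℝ) - C.card * T.card / (q : ℝ) ^ 2) ^ 2 =
      (cntN C T a : ℝ) ^ 2 - 2 * (C.card * T.card / (q : ℝ) ^ 2) * (cntN C T a : ℝ) +
        (C.card * T.card / (q : ℝ) ^ 2) ^ 2 := by
    intro a
    ring
  simp only [h]
  rw [Finset.sum_add_distrib, Finset.sum_sub_distrib, ← Finset.mul_sum, sum_cntN,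
    Finset.sum_const, Finset.card_univ, Fintype.card_prod, ZMod.card, nsmul_eq_mul]
  push_cast
  field_simp
  ring

theorem var_le (q : ℕ) [Fact q.Prime] (hq2 : q ≠ 2) (C : Finset (ZMod q × ZMod q))
    (hC : SubPar q C) (hc : C.card ≤ q) (T : Finset (ZMod q × ZMod q)) :
    ∑ a, ((cntN C T a : ℝ) - C.card * T.card / (q : ℝ) ^ 2) ^ 2 ≤
      q * T.card + (T.card : ℝ) ^ 2 := by
  rw [var_eq]
  have h1 := sum_sq_le q hq2 C hC T
  have h2 : (C.card : ℝ) ≤ q := by exact_mod_cast hc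
  have h3 : (C.card : ℝ) * T.card ≤ q * T.card := mul_le_mul_of_nonneg_right h2 (by positivity)
  have h4 : 0 ≤ (C.card * T.card : ℝ) ^ 2 / (q : ℝ) ^ 2 := by positivity
  linarith

theorem var_full (q : ℕ) [Fact q.Prime] (hq2 : q ≠ 2) (C : Finset (ZMod q × ZMod q))
    (hC : SubPar q C) (hc : C.card = q) (T : Finset (ZMod q × ZMod q)) :
    ∑ a, ((cntN C T a : ℝ) - C.card * T.card / (q : ℝ) ^ 2) ^ 2 ≤ q * T.card := by
  rw [var_eq]
  have h1 := sum_sq_le q hq2 C hC T
  rw [hc] at h1 ⊢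
  have hq : (q : ℝ) ≠ 0 := by
    have := (Fact.out : q.Prime).pos
    positivity
  have h4 : (q * T.card : ℝ) ^ 2 / (q : ℝ) ^ 2 = (T.card : ℝ) ^ 2 := by
    field_simp
  rw [h4]
  linarith

theorem subPar_Cm (q : ℕ) [Fact q.Prime] : SubPar q (Cm q) := by
  refine ⟨0, fun z hz => ?_⟩
  unfold Cm at hz
  rw [Finset.mem_image] at hz
  obtain ⟨x, -, rfl⟩ := hz
  simp

theorem sidon_one (q : ℕ) [Fact q.Prime] (hq2 : q ≠ 2) (C : Finset (ZMod q × ZMod q))
    (hC : SubPar q C) (hc : C.card = q) (T : Finset (ZMod q × ZMod q)) :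
    ∑ a, ((cntN C T a : ℝ) / q - (T.card : ℝ) / (q : ℝ) ^ 2) ^ 2 ≤ 16 * T.card / q := by
  have hq0 : (0 : ℝ) < q := by
    have := (Fact.out : q.Prime).pos
    positivity
  have h1 := var_full q hq2 C hC hc T
  have h : ∀ a, ((cntN C T a : ℝ) / q - (T.card : ℝ) / (q : ℝ) ^ 2) ^ 2 =
      ((cntN C T a : ℝ) - C.card * T.card / (q : ℝ) ^ 2) ^ 2 * (1 / (q : ℝ) ^ 2) := by
    intro a
    rw [hc]
    field_simp
  simp only [h]
  rw [← Finset.sum_mul]
  refine le_trans (mul_le_mul_of_nonneg_right h1 (by positivity)) ?_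
  have h2 : (q : ℝ) * T.card * (1 / (q : ℝ) ^ 2) = T.card / q := by
    field_simp
  rw [h2]
  apply div_le_div_of_nonneg_right _ hq0.le
  have : (0 : ℝ) ≤ T.card := by positivity
  linarith

theorem sidon_Cm (q : ℕ) [Fact q.Prime] (hq2 : q ≠ 2) (T : Finset (ZMod q × ZMod q)) :
    ∑ a, ((cntN (Cm q) T a : ℝ) / q - (T.card : ℝ) / (q : ℝ) ^ 2) ^ 2 ≤ 16 * T.card / q :=
  sidon_one q hq2 (Cm q) (subPar_Cm q) (card_Cm q) T

/-- the `j`-th piece of `Cp q n` -/
def Cj (q n j : ℕ) : Finset (ZMod q × ZMod q) :=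
  ((range n).filter (fun i => i / q = j)).image (pt q)

theorem subPar_Cj (q n j : ℕ) : SubPar q (Cj q n j) := by
  refine ⟨1 + (j : ZMod q), fun z hz => ?_⟩
  unfold Cj at hz
  rw [Finset.mem_image] at hz
  obtain ⟨i, hi, rfl⟩ := hz
  rw [Finset.mem_filter] at hi
  unfold pt
  rw [hi.2]
  ring

theorem card_Cj (q n j : ℕ) [Fact q.Prime] (hn : n / q + 1 < q) :
    (Cj q n j).card = ((range n).filter (fun i => i / q = j)).card := by
  unfold Cj
  apply Finset.card_image_of_injOn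
  intro a ha b hb hab
  apply pt_injOn q n hn _ _ hab
  · have := (Finset.mem_filter.mp (Finset.mem_coe.mp ha)).1
    exact Finset.mem_coe.mpr this
  · have := (Finset.mem_filter.mp (Finset.mem_coe.mp hb)).1
    exact Finset.mem_coe.mpr this

theorem filt_le (q n j : ℕ) (hq : 0 < q) : ((range n).filter (fun i => i / q = j)).card ≤ q := by
  have h : (range n).filter (fun i => i / q = j) ⊆ Finset.Ico (j * q) (j * q + q) := by
    intro i hi
    rw [Finset.mem_filter] at hi
    rw [Finset.mem_Ico]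
    have h1 := Nat.div_add_mod i q
    have h2 := Nat.mod_lt i hq
    rw [hi.2] at h1
    rw [mul_comm j q]
    omega
  have h2 := Finset.card_le_card h
  rw [Nat.card_Ico] at h2
  omega

theorem filt_eq (q n j : ℕ) (hq : 0 < q) (hj : j < n / q) :
    ((range n).filter (fun i => i / q = j)).card = q := by
  have h : (range n).filter (fun i => i / q = j) = Finset.Ico (j * q) (j * q + q) := by
    ext i
    rw [Finset.mem_filter, Finset.mem_Ico, Finset.mem_range]
    constructor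
    · intro hi
      have h1 := Nat.div_add_mod i q
      have h2 := Nat.mod_lt i hq
      rw [hi.2] at h1
      rw [mul_comm j q]
      omega
    · rintro ⟨h1, h2⟩
      have h3 : i / q = j := by
        apply Nat.div_eq_of_lt_le
        · exact h1
        · rw [Nat.succ_mul]
          exact h2
      refine ⟨?_, h3⟩
      have h4 : (j + 1) * q ≤ n / q * q := Nat.mul_le_mul_right q hj
      have h5 := Nat.div_mul_le_self n q
      rw [Nat.succ_mul] at h4
      omega
  rw [h, Nat.card_Ico]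
  omega

theorem cntN_Cp (q n : ℕ) [Fact q.Prime] (hn : n / q + 1 < q) (T : Finset (ZMod q × ZMod q))
    (a : ZMod q × ZMod q) :
    (cntN (Cp q n) T a : ℝ) = ∑ j ∈ range (n / q + 1), (cntN (Cj q n j) T a : ℝ) := by
  have h : cntN (Cp q n) T a = ∑ j ∈ range (n / q + 1), cntN (Cj q n j) T a := by
    unfold cntN
    rw [← Finset.card_biUnion]
    · congr 1
      ext t
      simp only [Finset.mem_filter, Finset.mem_biUnion, Finset.mem_range]
      constructor
      · rintro ⟨ht, h1⟩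
        unfold Cp at h1
        rw [Finset.mem_image] at h1
        obtain ⟨i, hi, hi2⟩ := h1
        refine ⟨i / q, ?_, ht, ?_⟩
        · have : i / q ≤ n / q := Nat.div_le_div_right (Finset.mem_range.mp hi).le
          omega
        · unfold Cj
          rw [Finset.mem_image]
          exact ⟨i, Finset.mem_filter.mpr ⟨hi, rfl⟩, hi2⟩
      · rintro ⟨j, _, ht, h1⟩
        refine ⟨ht, ?_⟩
        unfold Cj at h1
        rw [Finset.mem_image] at h1
        obtain ⟨i, hi, hi2⟩ := h1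
        unfold Cp
        rw [Finset.mem_image]
        exact ⟨i, (Finset.mem_filter.mp hi).1, hi2⟩
    · intro j _ j' _ hjj
      rw [Function.onFun, Finset.disjoint_left]
      intro t ht ht2
      apply hjj
      have h1 := (Finset.mem_filter.mp ht).2
      have h2 := (Finset.mem_filter.mp ht2).2
      unfold Cj at h1 h2
      rw [Finset.mem_image] at h1 h2
      obtain ⟨i, hi, hi2⟩ := h1
      obtain ⟨i', hi', hi2'⟩ := h2
      rw [Finset.mem_filter] at hi hi'
      have h3 := pt_injOn q n hn (Finset.mem_coe.mpr hi.1) (Finset.mem_coe.mpr hi'.1)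
        (hi2.trans hi2'.symm)
      rw [← hi.2, ← hi'.2, h3]
  rw [h]
  push_cast
  rfl

theorem sum_card_Cj (q n : ℕ) [Fact q.Prime] (hn : n / q + 1 < q) :
    (n : ℝ) = ∑ j ∈ range (n / q + 1), ((Cj q n j).card : ℝ) := by
  have h : n = ∑ j ∈ range (n / q + 1), (Cj q n j).card := by
    rw [Finset.sum_congr rfl (fun j _ => card_Cj q n j hn)]
    rw [← Finset.card_eq_sum_card_fiberwise]
    · rw [Finset.card_range]
    · intro i hi
      rw [Finset.mem_coe, Finset.mem_range] at hi ⊢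
      have : i / q ≤ n / q := Nat.div_le_div_right hi.le
      exact Nat.lt_succ_of_le this
  exact_mod_cast h

theorem sidon_Cp (q n : ℕ) [Fact q.Prime] (hq2 : q ≠ 2) (hqn : q ≤ n) (hn : n / q + 1 < q)
    (hk : n = q ∨ q ≤ (n / q) ^ 2) (T : Finset (ZMod q × ZMod q)) :
    ∑ a, ((cntN (Cp q n) T a : ℝ) / n - (T.card : ℝ) / (q : ℝ) ^ 2) ^ 2 ≤ 16 * T.card / q := by
  have hqp := (Fact.out : q.Prime).pos
  have hq0 : (0 : ℝ) < q := by positivity
  rcases hk with hk | hk
  · subst hk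
    apply sidon_one n hq2 (Cp n n) _ (card_Cp n n hn) T
    refine ⟨1, fun z hz => ?_⟩
    unfold Cp at hz
    rw [Finset.mem_image] at hz
    obtain ⟨i, hi, rfl⟩ := hz
    rw [Finset.mem_range] at hi
    unfold pt
    rw [Nat.div_eq_of_lt hi]
    simp
  · set k := n / q with hkdef
    have hk1 : 1 ≤ k := (Nat.one_le_div_iff hqp).mpr hqn
    have hkr : (1 : ℝ) ≤ k := by exact_mod_cast hk1
    have hkq : (k : ℝ) * q ≤ n := by
      have := Nat.div_mul_le_self n q
      exact_mod_cast this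
    have hn0 : (0 : ℝ) < n := by nlinarith
    have hkk : (q : ℝ) ≤ (k : ℝ) ^ 2 := by exact_mod_cast hk
    have hT : (T.card : ℝ) ≤ (q : ℝ) ^ 2 := by
      have h1 := Finset.card_le_univ T
      rw [Fintype.card_prod, ZMod.card] at h1
      have h2 : (T.card : ℝ) ≤ (q * q : ℕ) := by exact_mod_cast h1
      rw [sq]
      exact_mod_cast h2
    have hT0 : (0 : ℝ) ≤ T.card := by positivity
    -- the fluctuation of the pieces
    set F : ℕ → ZMod q × ZMod q → ℝ := fun j a =>
      (cntN (Cj q n j) T a : ℝ) - (Cj q n j).card * T.card / (q : ℝ) ^ 2 with hF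
    have hsum : ∀ a, (cntN (Cp q n) T a : ℝ) - n * T.card / (q : ℝ) ^ 2 =
        ∑ j ∈ range (k + 1), F j a := by
      intro a
      rw [hF]
      simp only
      rw [Finset.sum_sub_distrib, ← cntN_Cp q n hn, ← Finset.sum_div, ← Finset.sum_mul,
        ← sum_card_Cj q n hn]
    have hpt : ∀ a, ((cntN (Cp q n) T a : ℝ) - n * T.card / (q : ℝ) ^ 2) ^ 2 ≤
        2 * k * ∑ j ∈ range k, F j a ^ 2 + 2 * F k a ^ 2 := by
      intro a
      rw [hsum a, Finset.sum_range_succ]
      have h1 : (∑ j ∈ range k, F j a) ^ 2 ≤ k * ∑ j ∈ range k, F j a ^ 2 := by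
        have := sq_sum_le_card_mul_sum_sq (s := range k) (f := fun j => F j a)
        rwa [Finset.card_range] at this
      nlinarith [sq_nonneg (∑ j ∈ range k, F j a - F k a)]
    have htot : ∑ a, ((cntN (Cp q n) T a : ℝ) - n * T.card / (q : ℝ) ^ 2) ^ 2 ≤
        2 * k * (k * (q * T.card)) + 2 * (q * T.card + (T.card : ℝ) ^ 2) := by
      refine le_trans (Finset.sum_le_sum fun a _ => hpt a) ?_
      rw [Finset.sum_add_distrib, ← Finset.mul_sum, ← Finset.mul_sum, Finset.sum_comm]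
      have h1 : ∑ j ∈ range k, ∑ a, F j a ^ 2 ≤ k * (q * T.card) := by
        have h2 : ∀ j ∈ range k, ∑ a, F j a ^ 2 ≤ q * T.card := by
          intro j hj
          apply var_full q hq2 _ (subPar_Cj q n j)
          rw [card_Cj q n j hn, filt_eq q n j hqp (Finset.mem_range.mp hj)]
        refine le_trans (Finset.sum_le_sum h2) ?_
        rw [Finset.sum_const, Finset.card_range, nsmul_eq_mul]
      have h3 : ∑ a, F k a ^ 2 ≤ q * T.card + (T.card : ℝ) ^ 2 := by
        apply var_le q hq2 _ (subPar_Cj q n k)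
        rw [card_Cj q n k hn]
        exact filt_le q n k hqp
      have h4 : (0 : ℝ) ≤ 2 * k := by positivity
      have h5 := mul_le_mul_of_nonneg_left h1 h4
      linarith
    have h : ∀ a, ((cntN (Cp q n) T a : ℝ) / n - (T.card : ℝ) / (q : ℝ) ^ 2) ^ 2 =
        ((cntN (Cp q n) T a : ℝ) - n * T.card / (q : ℝ) ^ 2) ^ 2 * (1 / (n : ℝ) ^ 2) := by
      intro a
      field_simp
    simp only [h]
    rw [← Finset.sum_mul]
    refine le_trans (mul_le_mul_of_nonneg_right htot (by positivity)) ?_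
    rw [mul_one_div, div_le_div_iff₀ (by positivity) hq0]
    -- (2 k² q T + 2 (q T + T²)) q ≤ 16 T n²
    have hn2 : ((k : ℝ) * q) ^ 2 ≤ (n : ℝ) ^ 2 := by
      apply pow_le_pow_left₀ (by positivity) hkq
    have h6 : (T.card : ℝ) ^ 2 ≤ T.card * (q : ℝ) ^ 2 := by
      rw [sq]
      exact mul_le_mul_of_nonneg_left hT hT0
    have h7 : (T.card : ℝ) * (q : ℝ) ^ 2 * q ≤ T.card * (q : ℝ) ^ 2 * (k : ℝ) ^ 2 :=
      mul_le_mul_of_nonneg_left hkk (by positivity)
    have h8 : (q : ℝ) ^ 2 * T.card ≤ (q : ℝ) ^ 2 * T.card * (k : ℝ) ^ 2 := by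
      have : (1 : ℝ) ≤ (k : ℝ) ^ 2 := by nlinarith
      have h9 : (0 : ℝ) ≤ (q : ℝ) ^ 2 * T.card := by positivity
      nlinarith
    have h10 : (T.card : ℝ) ^ 2 * q ≤ T.card * (q : ℝ) ^ 2 * q :=
      mul_le_mul_of_nonneg_right h6 hq0.le
    have h11 : 16 * (T.card : ℝ) * ((k : ℝ) * q) ^ 2 ≤ 16 * T.card * (n : ℝ) ^ 2 :=
      mul_le_mul_of_nonneg_left hn2 (by positivity)
    nlinarith

end L2LP
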