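import Pool.Agent.Helper44.LP.FinalAux

/-!
# Q2: the coarse disjoint union of the Cayley graphs
-/

namespace L2LP

open Filter MeasureTheory

universe u

theorem union_hilbert {Ga : ℕ → Type} [∀ n, Group (Ga n)] [∀ n, Fintype (Ga n)]
    {S : ∀ n, Finset (Ga n)} {J : ℕ → Type} [∀ n, Fintype (J n)] {F : ∀ n, Ga n → J n → ℝ}
    (U : UnifData.{u} Ga S J F) (d : (Σ n, Ga n) → (Σ n, Ga n) → ℝ)
    (hd : IsCoarseUnion (fun n => SimpleGraph.mulCayley (S n : Set (Ga n))) d)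
    (Hs : Type u) [NormedAddCommGroup Hs] [InnerProductSpace ℝ Hs] (f : (Σ n, Ga n) → Hs) :
    ¬ CoarseEmb d f := by
  rintro ⟨rm, rp, hm1, hm2, hm3, hm4, hm5, hm6⟩
  set c : ℝ := max (rp 1) 1 with hc
  have hcpos : 0 < c := lt_of_lt_of_le one_pos (le_max_right _ _)
  have hstep : ∀ n (g : Ga n), ∀ s ∈ S n, ‖f ⟨n, g * s⟩ - f ⟨n, g⟩‖ ≤ c := by
    intro n g s hs
    have h1 : d ⟨n, g * s⟩ ⟨n, g⟩ ≤ 1 := by
      rw [hd.restrict]
      have h2 : (SimpleGraph.mulCayley (S n : Set (Ga n))).dist (g * s) g ≤ 1 := by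
        by_cases hg : g = g * s
        · rw [← hg, SimpleGraph.dist_self]; omega
        · have hadj : (SimpleGraph.mulCayley (S n : Set (Ga n))).Adj g (g * s) := by
            rw [SimpleGraph.mulCayley_adj']
            exact ⟨hg, s, hs, Or.inl rfl⟩
          rw [SimpleGraph.dist_comm, SimpleGraph.dist_eq_one_iff_adj.mpr hadj]
      exact_mod_cast h2
    have h0 : 0 ≤ d ⟨n, g * s⟩ ⟨n, g⟩ := by
      rw [hd.restrict]; positivity
    have h3 := (hm6 ⟨n, g * s⟩ ⟨n, g⟩).2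
    have h4 : rp (d ⟨n, g * s⟩ ⟨n, g⟩) ≤ rp 1 := hm2 h0 (by norm_num : (0:ℝ) ≤ 1) h1
    exact (h3.trans h4).trans (le_max_left _ _)
  have hbound : ∀ n : ℕ, rm n ≤ 300 * c := by
    intro n
    obtain ⟨g, h, hgh, hle⟩ := U.hilb n Hs (fun g => (1 / c) • f ⟨n, g⟩) (by
      intro g s hs
      rw [← smul_sub, norm_smul, Real.norm_eq_abs, abs_of_pos (by positivity : 0 < 1 / c),
        div_mul_eq_mul_div, one_mul, div_le_one hcpos]
      exact hstep n g s hs)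
    rw [← smul_sub, norm_smul, Real.norm_eq_abs, abs_of_pos (by positivity : 0 < 1 / c),
      div_mul_eq_mul_div, one_mul, div_le_iff₀ hcpos] at hle
    have h1 : (n : ℝ) ≤ d ⟨n, g⟩ ⟨n, h⟩ := by
      rw [hd.restrict]; exact_mod_cast hgh
    have h2 : rm n ≤ rm (d ⟨n, g⟩ ⟨n, h⟩) :=
      hm1 (by positivity : (0:ℝ) ≤ n) (le_trans (by positivity : (0:ℝ) ≤ n) h1) h1
    exact (h2.trans (hm6 _ _).1).trans hle
  obtain ⟨t0, ht0⟩ := tendsto_atTop_atTop.mp hm5 (300 * c + 1)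
  obtain ⟨n, hn⟩ := exists_nat_ge t0
  have h1 := ht0 n hn
  have h2 := hbound n
  linarith

theorem union_lp {Ga : ℕ → Type} [∀ n, Group (Ga n)] [∀ n, Fintype (Ga n)]
    {S : ∀ n, Finset (Ga n)} {J : ℕ → Type} [∀ n, Fintype (J n)] {F : ∀ n, Ga n → J n → ℝ}
    (U : UnifData.{u} Ga S J F) (d : (Σ n, Ga n) → (Σ n, Ga n) → ℝ)
    (hd : IsCoarseUnion (fun n => SimpleGraph.mulCayley (S n : Set (Ga n))) d)
    (p : ENNReal) [Fact (1 ≤ p)] (hp : 64 ≤ p) (hptop : p ≠ ⊤) :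
    ∃ (O : Type) (_ : MeasurableSpace O) (mu : Measure O) (f : (Σ n, Ga n) → Lp ℝ p mu),
      CoarseEmb d f := by
  classical
  have hP64 : (64 : ℝ) ≤ p.toReal := by
    have := ENNReal.toReal_mono hptop hp
    simpa using this
  have hP : 0 < p.toReal := by linarith
  set P : ℝ := p.toReal with hPdef
  let iota : Type := Σ n, Option (J n)
  obtain ⟨mI, mu, Phi, hPhi⟩ := exists_Lp_count iota p hptop
  -- distances are nonnegative
  have hd0 : ∀ x y, 0 ≤ d x y := by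
    intro x y
    have h1 := hd.tri x y x
    rw [hd.self, hd.symm y x] at h1
    linarith
  have hconn : ∀ n, (SimpleGraph.mulCayley (S n : Set (Ga n))).Connected := fun n =>
    cayley_connected _ (U.gen n)
  let dm : ℕ → ℝ := fun n => (SimpleGraph.mulCayley (S n : Set (Ga n))).diam
  have hdiam : ∀ n (g h : Ga n), ((SimpleGraph.mulCayley (S n : Set (Ga n))).dist g h : ℝ) ≤ dm n := by
    intro n g h
    have h1 : (SimpleGraph.mulCayley (S n : Set (Ga n))).dist g h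
        ≤ (SimpleGraph.mulCayley (S n : Set (Ga n))).diam := by
      apply SimpleGraph.dist_le_diam
      have := (SimpleGraph.connected_iff_ediam_ne_top).mp (hconn n)
      exact this
    show ((SimpleGraph.mulCayley (S n : Set (Ga n))).dist g h : ℝ)
      ≤ ((SimpleGraph.mulCayley (S n : Set (Ga n))).diam : ℝ)
    exact_mod_cast h1
  let s : ℕ → ℝ := fun n => dm n + d ⟨n, 1⟩ ⟨0, 1⟩
  have hs0 : ∀ n, 0 ≤ s n := fun n => add_nonneg (Nat.cast_nonneg _) (hd0 _ _)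
  have hds : ∀ (n k : ℕ) (g : Ga n) (h : Ga k), d ⟨n, g⟩ ⟨k, h⟩ ≤ s n + s k := by
    intro n k g h
    have h1 := hd.tri ⟨n, g⟩ ⟨n, 1⟩ ⟨k, h⟩
    have h2 := hd.tri ⟨n, 1⟩ ⟨0, 1⟩ ⟨k, h⟩
    have h3 := hd.tri ⟨0, 1⟩ ⟨k, 1⟩ ⟨k, h⟩
    have h4 : d ⟨n, g⟩ ⟨n, 1⟩ ≤ dm n := by rw [hd.restrict]; exact hdiam n g 1
    have h5 : d ⟨k, 1⟩ ⟨k, h⟩ ≤ dm k := by rw [hd.restrict]; exact hdiam k 1 h
    rw [hd.symm ⟨0, 1⟩ ⟨k, 1⟩] at h3
    simp only [s]
    linarith
  -- the vectors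
  let w : ∀ n, Ga n → Option (J n) → ℝ := fun n g o =>
    match o with
    | none => s n
    | some j => F n g j - F n 1 j
  let vec : (Σ n, Ga n) → (iota →₀ ℝ) := fun x =>
    Finsupp.embDomain (Function.Embedding.sigmaMk x.1) (Finsupp.equivFunOnFinite.symm (w x.1 x.2))
  have vec_same : ∀ n (g : Ga n) (o : Option (J n)), vec ⟨n, g⟩ ⟨n, o⟩ = w n g o := by
    intro n g o
    have : (⟨n, o⟩ : iota) = Function.Embedding.sigmaMk n o := rfl
    simp only [vec]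
    rw [this, Finsupp.embDomain_apply_self]
    rfl
  have vec_ne : ∀ n k (g : Ga n) (o : Option (J k)), k ≠ n → vec ⟨n, g⟩ ⟨k, o⟩ = 0 := by
    intro n k g o hkn
    simp only [vec]
    apply Finsupp.embDomain_of_notMem_range
    rintro ⟨o', ho'⟩
    exact hkn (congrArg Sigma.fst ho').symm
  let f : (Σ n, Ga n) → Lp ℝ p mu := fun x => Phi (vec x)
  have f_same : ∀ n (g h : Ga n), ‖f ⟨n, g⟩ - f ⟨n, h⟩‖ ^ P = ∑ j, |F n g j - F n h j| ^ P := by
    intro n g h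
    have h1 := phi_eq hPhi hP (fun o : Option (J n) => (⟨n, o⟩ : iota))
      (fun a b hab => eq_of_heq (Sigma.mk.inj hab).2) (vec ⟨n, g⟩) (vec ⟨n, h⟩) (by
        rintro ⟨k, o⟩ hne
        by_cases hk : k = n
        · subst hk; exact ⟨o, rfl⟩
        · exact absurd (by rw [vec_ne _ _ _ _ hk, vec_ne _ _ _ _ hk]) hne)
    rw [h1, Fintype.sum_option]
    simp only [vec_same, w]
    rw [sub_self, abs_zero, Real.zero_rpow hP.ne', zero_add]
    refine Finset.sum_congr rfl fun j _ => ?_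
    congr 2
    ring
  have f_coord : ∀ n k (g : Ga n) (h : Ga k), n ≠ k → s n ≤ ‖f ⟨n, g⟩ - f ⟨k, h⟩‖ ∧
      s k ≤ ‖f ⟨n, g⟩ - f ⟨k, h⟩‖ := by
    intro n k g h hnk
    constructor
    · have h1 := phi_coord_le hPhi hP (⟨n, none⟩ : iota) (vec ⟨n, g⟩) (vec ⟨k, h⟩)
      rw [vec_same, vec_ne _ _ _ _ hnk, sub_zero] at h1
      exact (le_abs_self _).trans h1
    · have h1 := phi_coord_le hPhi hP (⟨k, none⟩ : iota) (vec ⟨n, g⟩) (vec ⟨k, h⟩)
      rw [vec_same, vec_ne _ _ _ _ hnk.symm, zero_sub, abs_neg] at h1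
      exact (le_abs_self _).trans h1
  have f_lip : ∀ n (g h : Ga n), ‖f ⟨n, g⟩ - f ⟨n, h⟩‖
      ≤ 2 * (SimpleGraph.mulCayley (S n : Set (Ga n))).dist g h := by
    intro n g h
    apply lip_of_gen _ (hconn n) (fun g => f ⟨n, g⟩) 2
    intro x y hxy
    rw [SimpleGraph.mulCayley_adj'] at hxy
    obtain ⟨_, t, ht, h1⟩ := hxy
    have key : ∀ a : Ga n, ‖f ⟨n, a * t⟩ - f ⟨n, a⟩‖ ≤ 2 := by
      intro a
      apply le_of_rpow_le (norm_nonneg _) (by norm_num) hP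
      rw [f_same]
      refine (U.lip P hP64 n a t ht).trans ?_
      calc (2 : ℝ) = 2 ^ (1 : ℝ) := (Real.rpow_one 2).symm
        _ ≤ 2 ^ P := Real.rpow_le_rpow_of_exponent_le (by norm_num) (by linarith)
    rcases h1 with h1 | h1
    · rw [← h1, norm_sub_rev]; exact key x
    · rw [h1]; exact key y
  refine ⟨iota, mI, mu, f, coarse_of_control d f ?_ ?_⟩
  · intro R
    obtain ⟨rho, hrho⟩ := U.low P hP64 ((max R 0) ^ P)
    refine ⟨max (rho : ℝ) (2 * R), ?_⟩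
    rintro ⟨n, g⟩ ⟨k, h⟩ hR
    by_cases hnk : n = k
    · subst hnk
      have h1 : ‖f ⟨n, g⟩ - f ⟨n, h⟩‖ ^ P ≤ (max R 0) ^ P :=
        Real.rpow_le_rpow (norm_nonneg _) (hR.trans (le_max_left _ _)) hP.le
      rw [f_same] at h1
      have h2 := hrho n g h h1
      rw [hd.restrict]
      exact le_trans (by exact_mod_cast h2) (le_max_left _ _)
    · obtain ⟨h1, h2⟩ := f_coord n k g h hnk
      have h3 := hds n k g h
      refine le_trans ?_ (le_max_right _ _)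
      linarith
  · intro R
    obtain ⟨N, hN⟩ := exists_nat_ge R
    let B : ℝ := ∑ n ∈ Finset.range (N + 1), ∑ g : Ga n, ‖f ⟨n, g⟩‖
    have hB : ∀ n (g : Ga n), n ≤ N → ‖f ⟨n, g⟩‖ ≤ B := by
      intro n g hn
      have h1 : ‖f ⟨n, g⟩‖ ≤ ∑ g : Ga n, ‖f ⟨n, g⟩‖ :=
        Finset.single_le_sum (f := fun g : Ga n => ‖f ⟨n, g⟩‖) (fun _ _ => norm_nonneg _)
          (Finset.mem_univ g)
      have h2 : ∑ g : Ga n, ‖f ⟨n, g⟩‖ ≤ B :=
        Finset.single_le_sum (f := fun n => ∑ g : Ga n, ‖f ⟨n, g⟩‖)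
          (fun _ _ => Finset.sum_nonneg fun _ _ => norm_nonneg _)
          (Finset.mem_range.mpr (by omega))
      exact h1.trans h2
    refine ⟨max (2 * R) (B + B), ?_⟩
    rintro ⟨n, g⟩ ⟨k, h⟩ hR
    by_cases hnk : n = k
    · subst hnk
      rw [hd.restrict] at hR
      refine le_trans ((f_lip n g h).trans ?_) (le_max_left _ _)
      linarith
    · have h1 := hd.far n k hnk g h
      have h2 : (n : ℝ) ≤ N := by
        have : (0 : ℝ) ≤ ((SimpleGraph.mulCayley (S n : Set (Ga n))).diam : ℝ) := Nat.cast_nonneg _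
        have : (0 : ℝ) ≤ ((SimpleGraph.mulCayley (S k : Set (Ga k))).diam : ℝ) := Nat.cast_nonneg _
        have : (0 : ℝ) ≤ (k : ℝ) := Nat.cast_nonneg _
        linarith
      have h3 : (k : ℝ) ≤ N := by
        have : (0 : ℝ) ≤ ((SimpleGraph.mulCayley (S n : Set (Ga n))).diam : ℝ) := Nat.cast_nonneg _
        have : (0 : ℝ) ≤ ((SimpleGraph.mulCayley (S k : Set (Ga k))).diam : ℝ) := Nat.cast_nonneg _
        have : (0 : ℝ) ≤ (n : ℝ) := Nat.cast_nonneg _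
        linarith
      refine le_trans ?_ (le_max_right _ _)
      exact (norm_sub_le _ _).trans (add_le_add (hB n g (by exact_mod_cast h2))
        (hB k h (by exact_mod_cast h3)))

end L2LP
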