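import Mathlib

/-!
# Words in generators
-/

namespace L2LP

open Finset

/-- value of a letter -/
def letterVal {G I : Type*} [Group G] (s : I → G) (p : I × Bool) : G :=
  if p.2 then s p.1 else (s p.1)⁻¹

/-- value of a word -/
def wordVal {G I : Type*} [Group G] (s : I → G) (L : List (I × Bool)) : G :=
  (L.map (letterVal s)).prod

/-- reduced words: no letter is followed by its inverse -/
def Red {I : Type*} (L : List (I × Bool)) : Prop :=
  List.IsChain (fun a b => ¬ (a.1 = b.1 ∧ a.2 ≠ b.2)) L

/-- girth larger than `n` -/
def GirthGT {G I : Type*} [Group G] (s : I → G) (n : ℕ) : Prop :=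
  ∀ L : List (I × Bool), L ≠ [] → L.length ≤ n → Red L → wordVal s L ≠ 1

end L2LP
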